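import Mathlib

/-!
# MP_80160f_co : sums of products of linear forms over the field with three elements

`sig L A` is the sum over all points `x` of the product of all coordinates and of the linear forms
outside of `A`. The identity `sum_sig` : the sum over `A` of `sig L A * sig L Aᶜ` is the sum over all
points of the product of all linear forms.
-/

set_option autoImplicit false

namespace TB

open Finset

section alg

variable {κ ι : Type*} [Fintype κ] [DecidableEq κ]

/-- a linear form as a polynomial -/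
noncomputable def linPoly (L : (κ → ZMod 3) →ₗ[ZMod 3] ZMod 3) : MvPolynomial κ (ZMod 3) :=
  ∑ j, MvPolynomial.C (L fun i => if j = i then 1 else 0) * MvPolynomial.X j

theorem eval_linPoly (L : (κ → ZMod 3) →ₗ[ZMod 3] ZMod 3) (x : κ → ZMod 3) :
    MvPolynomial.eval x (linPoly L) = L x := by
  unfold linPoly
  rw [map_sum, LinearMap.pi_apply_eq_sum_univ L x]
  refine sum_congr rfl fun j _ => ?_
  rw [map_mul, MvPolynomial.eval_C, MvPolynomial.eval_X, smul_eq_mul, mul_comm]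

theorem deg_linPoly (L : (κ → ZMod 3) →ₗ[ZMod 3] ZMod 3) : (linPoly L).totalDegree ≤ 1 := by
  unfold linPoly
  refine MvPolynomial.totalDegree_finsetSum_le fun j _ => ?_
  refine (MvPolynomial.totalDegree_mul _ _).trans ?_
  rw [MvPolynomial.totalDegree_C, MvPolynomial.totalDegree_X]

/-- a product of few linear forms has sum zero -/
theorem sum_prod_zero (L : ι → ((κ → ZMod 3) →ₗ[ZMod 3] ZMod 3)) (I : Finset ι)
    (h : I.card < 2 * Fintype.card κ) : ∑ x, ∏ i ∈ I, L i x = 0 := by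
  have h1 := MvPolynomial.sum_eval_eq_zero (K := ZMod 3) (σ := κ) (∏ i ∈ I, linPoly (L i)) (by
    rw [ZMod.card]
    refine lt_of_le_of_lt (MvPolynomial.totalDegree_finsetProd _ _) ?_
    refine lt_of_le_of_lt (sum_le_sum fun i _ => deg_linPoly (L i)) ?_
    rw [sum_const, smul_eq_mul, mul_one]
    exact h)
  rw [← h1]
  refine sum_congr rfl fun x _ => ?_
  rw [map_prod]
  exact prod_congr rfl fun i _ => (eval_linPoly (L i) x).symm

/-- a product of at most `2 * card` affine forms has a sum which does not depend on the shifts -/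
theorem sum_prod_shift [DecidableEq ι] (L : ι → ((κ → ZMod 3) →ₗ[ZMod 3] ZMod 3)) (I : Finset ι)
    (h : I.card ≤ 2 * Fintype.card κ) (c : ι → ZMod 3) :
    ∑ x, ∏ i ∈ I, (L i x - c i) = ∑ x, ∏ i ∈ I, L i x := by
  have h1 : ∀ x : κ → ZMod 3, ∏ i ∈ I, (L i x - c i) =
      ∑ t ∈ I.powerset, (∏ i ∈ t, L i x) * ∏ i ∈ I \ t, (-c i) := by
    intro x
    rw [← prod_add]
    exact prod_congr rfl fun i _ => sub_eq_add_neg _ _
  simp only [h1]
  rw [sum_comm, sum_eq_single_of_mem I (mem_powerset_self I)]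
  · rw [Finset.sdiff_self, prod_empty]
    simp only [mul_one]
  · intro t ht hne
    rw [← sum_mul, sum_prod_zero, zero_mul]
    refine lt_of_lt_of_le (card_lt_card ?_) h
    rw [mem_powerset] at ht
    exact lt_of_le_of_ne ht hne

/-- a point which avoids all shifts -/
theorem exists_avoid [DecidableEq ι] (L : ι → ((κ → ZMod 3) →ₗ[ZMod 3] ZMod 3)) (I : Finset ι)
    (h : I.card ≤ 2 * Fintype.card κ) (hne : ∑ x, ∏ i ∈ I, L i x ≠ 0) (c : ι → ZMod 3) :
    ∃ x, ∀ i ∈ I, L i x ≠ c i := by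
  rw [← sum_prod_shift L I h c] at hne
  obtain ⟨x, -, hx⟩ := exists_ne_zero_of_sum_ne_zero hne
  refine ⟨x, fun i hi h1 => hx ?_⟩
  exact prod_eq_zero hi (by rw [h1, sub_self])

theorem sum_mul_sub (s : ZMod 3) : ∑ a : ZMod 3, a * (s - a) = 1 := by
  revert s
  decide

end alg

section split

variable {κ τ : Type*} [Fintype κ] [DecidableEq κ] [Fintype τ] [DecidableEq τ]

/-- the sum of the products of all coordinates and of the linear forms outside of `A` -/
noncomputable def sig (L : τ → ((κ → ZMod 3) →ₗ[ZMod 3] ZMod 3)) (A : Finset τ) : ZMod 3 :=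
  ∑ x : κ → ZMod 3, (∏ k, x k) * ∏ t ∈ Aᶜ, L t x

/-- **the identity** -/
theorem sum_sig (L : τ → ((κ → ZMod 3) →ₗ[ZMod 3] ZMod 3)) :
    ∑ A : Finset τ, sig L A * sig L Aᶜ = ∑ x, ∏ t, L t x := by
  have h1 : ∀ A : Finset τ, sig L A * sig L Aᶜ = ∑ x : κ → ZMod 3, ∑ y : κ → ZMod 3,
      ((∏ k, x k) * ∏ k, y k) * ((∏ t ∈ A, L t y) * ∏ t ∈ univ \ A, L t x) := by
    intro A
    unfold sig
    rw [sum_mul_sum]
    refine sum_congr rfl fun x _ => sum_congr rfl fun y _ => ?_
    rw [compl_compl, ← compl_eq_univ_sdiff]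
    ring
  simp only [h1]
  rw [sum_comm]
  have h2 : ∀ x : κ → ZMod 3, ∑ A : Finset τ, ∑ y : κ → ZMod 3,
      ((∏ k, x k) * ∏ k, y k) * ((∏ t ∈ A, L t y) * ∏ t ∈ univ \ A, L t x) =
      ∑ s : κ → ZMod 3, (∏ k, (x k * (s k - x k))) * ∏ t, L t s := by
    intro x
    rw [sum_comm, ← (Equiv.subRight x).sum_comp]
    refine sum_congr rfl fun s _ => ?_
    rw [← mul_sum, ← powerset_univ, ← prod_add, ← prod_mul_distrib]
    refine congrArg₂ (· * ·) ?_ ?_
    · exact prod_congr rfl fun k _ => rfl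
    · refine prod_congr rfl fun t _ => ?_
      rw [← map_add, Equiv.subRight_apply, sub_add_cancel]
  simp only [h2]
  rw [sum_comm]
  refine sum_congr rfl fun s _ => ?_
  rw [← sum_mul]
  have h3 : ∑ x : κ → ZMod 3, ∏ k, (x k * (s k - x k)) = 1 := by
    rw [← Fintype.piFinset_univ, ← prod_univ_sum (fun _ => univ) fun k a => a * (s k - a)]
    exact prod_eq_one fun k _ => sum_mul_sub (s k)
  rw [h3, one_mul]

/-- the coordinates and the linear forms together -/
noncomputable def both (L : τ → ((κ → ZMod 3) →ₗ[ZMod 3] ZMod 3)) :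
    κ ⊕ τ → ((κ → ZMod 3) →ₗ[ZMod 3] ZMod 3)
  | Sum.inl k => LinearMap.proj k
  | Sum.inr t => L t

theorem sig_eq (L : τ → ((κ → ZMod 3) →ₗ[ZMod 3] ZMod 3)) (A : Finset τ) :
    sig L A = ∑ x, ∏ i ∈ (univ : Finset κ).disjSum Aᶜ, both L i x := by
  unfold sig
  refine sum_congr rfl fun x _ => ?_
  rw [prod_disjSum]
  rfl

theorem card_of_sig (L : τ → ((κ → ZMod 3) →ₗ[ZMod 3] ZMod 3)) {A : Finset τ}
    (h : sig L A ≠ 0) : Fintype.card κ ≤ (Aᶜ).card := by
  by_contra hlt
  apply h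
  rw [sig_eq]
  apply sum_prod_zero
  rw [card_disjSum, card_univ]
  omega

/-- **the splitting** of the linear forms into two halves, by the sums -/
theorem exists_split_sig (L : τ → ((κ → ZMod 3) →ₗ[ZMod 3] ZMod 3))
    (hc : Fintype.card τ = 2 * Fintype.card κ) (hne : ∑ x, ∏ t, L t x ≠ 0) :
    ∃ A : Finset τ, A.card = Fintype.card κ ∧ (Aᶜ).card = Fintype.card κ ∧
      sig L A ≠ 0 ∧ sig L Aᶜ ≠ 0 := by
  rw [← sum_sig] at hne
  obtain ⟨A, -, hA⟩ := exists_ne_zero_of_sum_ne_zero hne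
  have hA1 := left_ne_zero_of_mul hA
  have hA2 := right_ne_zero_of_mul hA
  have c1 := card_of_sig L hA1
  have c2 := card_of_sig L hA2
  rw [compl_compl] at c2
  have c3 : A.card + (Aᶜ).card = Fintype.card τ := card_add_card_compl A
  exact ⟨A, by omega, by omega, hA1, hA2⟩

/-- **the splitting** of the linear forms into two halves -/
theorem exists_split_forms (L : τ → ((κ → ZMod 3) →ₗ[ZMod 3] ZMod 3))
    (hc : Fintype.card τ = 2 * Fintype.card κ) (hne : ∑ x, ∏ t, L t x ≠ 0) :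
    ∃ A : Finset τ, A.card = Fintype.card κ ∧ (Aᶜ).card = Fintype.card κ ∧
      (∀ c : τ → ZMod 3, ∃ x, ∀ t, L t x ≠ c t) ∧
      (∀ (c : κ → ZMod 3) (c' : τ → ZMod 3), ∃ x : κ → ZMod 3, (∀ k, x k ≠ c k) ∧
        ∀ t, t ∉ A → L t x ≠ c' t) ∧
      ∀ (c : κ → ZMod 3) (c' : τ → ZMod 3), ∃ x : κ → ZMod 3, (∀ k, x k ≠ c k) ∧
        ∀ t ∈ A, L t x ≠ c' t := by
  have h0 := hne
  rw [← sum_sig] at hne
  obtain ⟨A, -, hA⟩ := exists_ne_zero_of_sum_ne_zero hne
  have hA1 := left_ne_zero_of_mul hA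
  have hA2 := right_ne_zero_of_mul hA
  have c1 := card_of_sig L hA1
  have c2 := card_of_sig L hA2
  rw [compl_compl] at c2
  have c3 : A.card + (Aᶜ).card = Fintype.card τ := card_add_card_compl A
  have key : ∀ B : Finset τ, sig L B ≠ 0 → (Bᶜ).card = Fintype.card κ →
      ∀ (c : κ → ZMod 3) (c' : τ → ZMod 3), ∃ x : κ → ZMod 3, (∀ k, x k ≠ c k) ∧
        ∀ t, t ∉ B → L t x ≠ c' t := by
    intro B hB hcB c c'
    rw [sig_eq] at hB
    obtain ⟨x, hx⟩ := exists_avoid (both L) _ (by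
      rw [card_disjSum, card_univ, hcB]
      omega) hB (Sum.elim c c')
    refine ⟨x, fun k => ?_, fun t ht => ?_⟩
    · exact hx (Sum.inl k) (inl_mem_disjSum.2 (mem_univ k))
    · exact hx (Sum.inr t) (inr_mem_disjSum.2 (mem_compl.2 ht))
  refine ⟨A, by omega, by omega, ?_, key A hA1 (by omega), ?_⟩
  · intro c
    obtain ⟨x, hx⟩ := exists_avoid L univ (by rw [card_univ, hc]) h0 c
    exact ⟨x, fun t => hx t (mem_univ t)⟩
  · intro c c'
    obtain ⟨x, h1, h2⟩ := key Aᶜ hA2 (by rw [compl_compl]; omega) c c'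
    exact ⟨x, h1, fun t ht => h2 t (fun h3 => (mem_compl.1 h3) ht)⟩

/-- if for one shift only the point zero avoids, and there all shifts are nonzero, then the sum of
the products is nonzero -/
theorem sum_ne_zero (L : τ → ((κ → ZMod 3) →ₗ[ZMod 3] ZMod 3))
    (hc : Fintype.card τ ≤ 2 * Fintype.card κ) (c : τ → ZMod 3) (h0 : ∀ t, c t ≠ 0)
    (h : ∀ x : κ → ZMod 3, (∀ t, L t x ≠ c t) → x = 0) : ∑ x, ∏ t, L t x ≠ 0 := by
  rw [← sum_prod_shift L univ (by rw [card_univ]; exact hc) c,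
    sum_eq_single_of_mem (0 : κ → ZMod 3) (mem_univ _)]
  · rw [prod_ne_zero_iff]
    intro t _
    rw [map_zero, zero_sub]
    exact neg_ne_zero.2 (h0 t)
  · intro x _ hx
    by_contra h1
    apply hx
    apply h
    intro t h2
    apply h1
    exact prod_eq_zero (mem_univ t) (by rw [h2, sub_self])

end split

end TB
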