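import Pool.Agent.Lib.MP_80160f_co.Base

/-!
# MP_80160f_co : a 2-base of a connected graph collapses the graph to one cluster
-/

set_option autoImplicit false
set_option linter.unusedSectionVars false

namespace TB

open Finset

variable {α : Type*} [DecidableEq α]

/-- two clusters which meet -/
theorem Clu.union_of_meet {W : α → α → ℕ} {B : Finset α} (hB : Clu W B) : ∀ {A : Finset α},
    Clu W A → (A ∩ B).Nonempty → Clu W (A ∪ B) := by
  induction hB with
  | single b =>
    rintro A hA ⟨x, hx⟩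
    rw [mem_inter, mem_singleton] at hx
    rw [union_eq_left.2 (singleton_subset_iff.2 (hx.2 ▸ hx.1))]
    exact hA
  | merge B C hB hC hd hw ihB ihC =>
    have key : ∀ {B C : Finset α}, Clu W C → Disjoint B C → 2 ≤ wt W B C →
        (∀ {A : Finset α}, Clu W A → (A ∩ B).Nonempty → Clu W (A ∪ B)) →
        (∀ {A : Finset α}, Clu W A → (A ∩ C).Nonempty → Clu W (A ∪ C)) →
        ∀ {A : Finset α}, Clu W A → (A ∩ B).Nonempty → Clu W (A ∪ B ∪ C) := by
      intro B C hC hd hw ihB ihC A hA hAB
      have h1 := ihB hA hAB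
      by_cases h2 : ((A ∪ B) ∩ C).Nonempty
      · exact ihC h1 h2
      · rw [not_nonempty_iff_eq_empty, ← disjoint_iff_inter_eq_empty] at h2
        exact Clu.merge _ _ h1 hC h2 (hw.trans (wt_sub subset_union_right (Subset.refl _)))
    rintro A hA ⟨x, hx⟩
    rw [mem_inter, mem_union] at hx
    rw [← union_assoc]
    rcases hx.2 with h | h
    · exact key hC hd hw ihB ihC hA ⟨x, mem_inter.2 ⟨hx.1, h⟩⟩
    · -- the second part meets first
      have h1 := ihC hA ⟨x, mem_inter.2 ⟨hx.1, h⟩⟩
      by_cases h2 : ((A ∪ C) ∩ B).Nonempty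
      · have h3 := ihB h1 h2
        rwa [union_right_comm] at h3
      · rw [not_nonempty_iff_eq_empty, ← disjoint_iff_inter_eq_empty] at h2
        have h3 : 2 ≤ wt W B (A ∪ C) := hw.trans (wt_sub (Subset.refl _) subset_union_right)
        have h4 := Clu.merge _ _ hB h1 h2.symm h3
        rwa [union_comm, union_right_comm] at h4

/-- in a common cluster -/
def Same (W : α → α → ℕ) (x y : α) : Prop := ∃ U, Clu W U ∧ x ∈ U ∧ y ∈ U

theorem Same.refl (W : α → α → ℕ) (x : α) : Same W x x :=
  ⟨{x}, Clu.single x, mem_singleton_self x, mem_singleton_self x⟩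

theorem Same.symm {W : α → α → ℕ} {x y : α} (h : Same W x y) : Same W y x := by
  obtain ⟨U, h1, h2, h3⟩ := h
  exact ⟨U, h1, h3, h2⟩

theorem Same.trans {W : α → α → ℕ} {x y z : α} (h : Same W x y) (h' : Same W y z) :
    Same W x z := by
  obtain ⟨U, h1, h2, h3⟩ := h
  obtain ⟨U', h1', h2', h3'⟩ := h'
  exact ⟨U ∪ U', h1'.union_of_meet h1 ⟨y, mem_inter.2 ⟨h3, h2'⟩⟩, mem_union_left _ h2,
    mem_union_right _ h3'⟩

/-- an edge of weight two -/
theorem same_of_two {W : α → α → ℕ} {x y : α} (hxy : x ≠ y) (h : 2 ≤ W x y) : Same W x y := by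
  refine ⟨{x} ∪ {y}, Clu.merge _ _ (Clu.single x) (Clu.single y)
    (disjoint_singleton.2 hxy) ?_, mem_union_left _ (mem_singleton_self x),
    mem_union_right _ (mem_singleton_self y)⟩
  unfold wt
  rw [sum_singleton, sum_singleton]
  exact h

/-- two pairs of positive weight between two clusters -/
theorem same_of_pairs {W : α → α → ℕ} {a b c d : α} (hac : Same W a c) (hbd : Same W b d)
    (hne : ¬ (a = c ∧ b = d)) (hab : 1 ≤ W a b) (hcd : 1 ≤ W c d) : Same W a b := by
  obtain ⟨A, hA, haA, hcA⟩ := hac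
  obtain ⟨B, hB, hbB, hdB⟩ := hbd
  by_cases hm : (A ∩ B).Nonempty
  · exact ⟨A ∪ B, hB.union_of_meet hA hm, mem_union_left _ haA, mem_union_right _ hbB⟩
  · rw [not_nonempty_iff_eq_empty, ← disjoint_iff_inter_eq_empty] at hm
    refine ⟨A ∪ B, Clu.merge _ _ hA hB hm ?_, mem_union_left _ haA, mem_union_right _ hbB⟩
    have h1 : ({(a, b), (c, d)} : Finset (α × α)) ⊆ A ×ˢ B := by
      intro p hp
      rw [mem_insert, mem_singleton] at hp
      rcases hp with h | h
      · rw [h]
        exact mem_product.2 ⟨haA, hbB⟩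
      · rw [h]
        exact mem_product.2 ⟨hcA, hdB⟩
    have h2 : wt W A B = ∑ p ∈ A ×ˢ B, W p.1 p.2 := by
      rw [sum_product]
      rfl
    rw [h2]
    refine le_trans ?_ (sum_le_sum_of_subset h1)
    rw [sum_pair fun h => hne (by
      rw [Prod.mk.injEq] at h
      exact h)]
    exact Nat.add_le_add hab hcd

/-- the edges inside of the clusters -/
def inside (G : SimpleGraph α) (W : α → α → ℕ) : Set (Sym2 α) :=
  {e | e ∈ G.edgeSet ∧ ∃ U, Clu W U ∧ ∀ x ∈ e, x ∈ U}

theorem mem_inside {G : SimpleGraph α} {W : α → α → ℕ} {x y : α} :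
    s(x, y) ∈ inside G W ↔ G.Adj x y ∧ Same W x y := by
  unfold inside Same
  rw [Set.mem_ofPred_eq, SimpleGraph.mem_edgeSet]
  refine and_congr_right fun _ => exists_congr fun U => and_congr_right fun _ => ?_
  constructor
  · intro h
    exact ⟨h x (Sym2.mem_mk_left x y), h y (Sym2.mem_mk_right x y)⟩
  · rintro ⟨h1, h2⟩ z hz
    rcases Sym2.mem_iff.1 hz with h | h
    · exact h ▸ h1
    · exact h ▸ h2

theorem gw_one {G : SimpleGraph α} {A : Set (Sym2 α)} {x y : α} (h : G.Adj x y) :
    1 ≤ gw G A x y := by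
  unfold gw
  rw [if_pos h]
  split_ifs <;> omega

theorem gw_two {G : SimpleGraph α} {A : Set (Sym2 α)} {x y : α} (h : G.Adj x y)
    (h' : s(x, y) ∈ A) : 2 ≤ gw G A x y := by
  unfold gw
  rw [if_pos h, if_pos h']

/-- a walk whose edges are inside of clusters, except for one -/
theorem walk_same {G : SimpleGraph α} {W : α → α → ℕ} {c d : α} : ∀ {x y : α} (p : G.Walk x y),
    (∀ e ∈ p.edges, e ∈ inside G W ∨ e = s(c, d)) →
      Same W x y ∨ (Same W x c ∧ Same W d y) ∨ (Same W x d ∧ Same W c y)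
  | _, _, .nil, _ => Or.inl (Same.refl W _)
  | x, y, .cons (v := z) h p, he => by
    have ih := walk_same p fun e h1 => he e (by
      rw [SimpleGraph.Walk.edges_cons]
      exact List.mem_cons_of_mem _ h1)
    have h1 := he s(x, z) (by
      rw [SimpleGraph.Walk.edges_cons]
      exact List.mem_cons_self)
    rcases h1 with h1 | h1
    · have h2 := (mem_inside.1 h1).2
      rcases ih with h3 | ⟨h3, h4⟩ | ⟨h3, h4⟩
      · exact Or.inl (h2.trans h3)
      · exact Or.inr (Or.inl ⟨h2.trans h3, h4⟩)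
      · exact Or.inr (Or.inr ⟨h2.trans h3, h4⟩)
    · rw [Sym2.eq_iff] at h1
      rcases h1 with ⟨h1, h2⟩ | ⟨h1, h2⟩
      · rw [h1]
        rw [h2] at ih
        rcases ih with h3 | ⟨h3, h4⟩ | ⟨h3, h4⟩
        · exact Or.inr (Or.inl ⟨Same.refl W c, h3⟩)
        · exact Or.inl (h3.symm.trans h4)
        · exact Or.inl h4
      · rw [h1]
        rw [h2] at ih
        rcases ih with h3 | ⟨h3, h4⟩ | ⟨h3, h4⟩
        · exact Or.inr (Or.inr ⟨Same.refl W d, h3⟩)
        · exact Or.inl h4
        · exact Or.inl (h3.symm.trans h4)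

/-- the edges inside of the clusters form a closed set -/
theorem inside_closed (G : SimpleGraph α) (A : Set (Sym2 α)) :
    KClosed G 2 (inside G (gw G A)) := by
  rintro u C hC ⟨e, he, heR⟩
  by_contra hlt
  induction e with
  | h a b =>
  have hab : G.Adj a b := C.edges_subset_edgeSet he
  have hnab : ¬ Same (gw G A) a b := fun h => heR (mem_inside.2 ⟨hab, h⟩)
  set F : SimpleGraph α := SimpleGraph.fromEdgeSet {e | e ∈ C.edges} with hF
  have hFC : ∀ e ∈ C.edges, e ∈ F.edgeSet := by
    intro e h1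
    rw [hF, SimpleGraph.edgeSet_fromEdgeSet]
    exact ⟨h1, G.not_isDiag_of_mem_edgeSet (C.edges_subset_edgeSet h1)⟩
  have hcyc : (C.transfer F hFC).IsCycle := hC.transfer hFC
  have hre := (SimpleGraph.adj_and_reachable_delete_edges_iff_exists_cycle (v := a) (w := b)).2
    ⟨u, C.transfer F hFC, hcyc, by rw [SimpleGraph.Walk.edges_transfer]; exact he⟩
  rw [SimpleGraph.reachable_deleteEdges_iff_exists_walk] at hre
  obtain ⟨-, p, hp⟩ := hre
  have hFG : F ≤ G := by
    intro x y h
    rw [hF, SimpleGraph.fromEdgeSet_adj] at h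
    exact C.edges_subset_edgeSet h.1
  set q : G.Walk a b := p.mapLe hFG with hq
  have hqe : q.edges = p.edges := by
    rw [hq]
    exact SimpleGraph.Walk.edges_mapLe_eq_edges hFG p
  have hqC : ∀ e ∈ q.edges, e ∈ C.edges := by
    intro e h1
    rw [hqe] at h1
    have h2 := p.edges_subset_edgeSet h1
    rw [hF, SimpleGraph.edgeSet_fromEdgeSet] at h2
    exact h2.1
  have hqab : s(a, b) ∉ q.edges := by
    rw [hqe]
    exact hp
  -- at most one other edge is not inside
  have hone : ∀ e ∈ q.edges, e ∉ inside G (gw G A) → ∀ e' ∈ q.edges,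
      e' ∉ inside G (gw G A) → e = e' := by
    intro e h1 h2 e' h3 h4
    by_contra hee
    apply hlt
    have h5 : ({s(a, b), e, e'} : Set (Sym2 α)) ⊆
        {e | e ∈ C.edges ∧ e ∉ inside G (gw G A)} := by
      intro f hf
      rcases hf with hf | hf | hf
      · rw [hf]
        exact ⟨he, heR⟩
      · rw [hf]
        exact ⟨hqC e h1, h2⟩
      · rw [Set.mem_singleton_iff] at hf
        rw [hf]
        exact ⟨hqC e' h3, h4⟩
    refine le_trans ?_ (Set.ncard_le_ncard h5 ((C.edges.finite_toSet).subset fun f hf => hf.1))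
    have h6 : s(a, b) ≠ e := fun h => hqab (h ▸ h1)
    have h7 : s(a, b) ≠ e' := fun h => hqab (h ▸ h3)
    rw [Set.ncard_eq_three.2 ⟨_, _, _, h6, h7, hee, rfl⟩]
  by_cases hex : ∃ e ∈ q.edges, e ∉ inside G (gw G A)
  · obtain ⟨e, h1, h2⟩ := hex
    induction e with
    | h c d =>
    have hcd : G.Adj c d := C.edges_subset_edgeSet (hqC _ h1)
    have h3 := walk_same (c := c) (d := d) q (by
      intro e' h4
      by_cases h5 : e' ∈ inside G (gw G A)
      · exact Or.inl h5
      · exact Or.inr (hone e' h4 h5 _ h1 h2))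
    have h4 : s(a, b) ≠ s(c, d) := fun h => hqab (h ▸ h1)
    rcases h3 with h3 | ⟨h3, h5⟩ | ⟨h3, h5⟩
    · exact hnab h3
    · refine hnab (same_of_pairs h3 h5.symm ?_ (gw_one hab) (gw_one hcd))
      rintro ⟨h6, h7⟩
      exact h4 (by rw [h6, h7])
    · refine hnab (same_of_pairs h3 h5.symm ?_ (gw_one hab) (gw_one hcd.symm))
      rintro ⟨h6, h7⟩
      exact h4 (by rw [h6, h7, Sym2.eq_swap])
  · have h3 := walk_same (c := a) (d := a) q (by
      intro e' h4
      by_contra h5
      exact hex ⟨e', h4, fun h6 => h5 (Or.inl h6)⟩)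
    rcases h3 with h3 | ⟨-, h5⟩ | ⟨-, h5⟩
    · exact hnab h3
    · exact hnab h5
    · exact hnab h5

/-- **a 2-base of a connected graph collapses the graph** -/
theorem clu_of_isKBase [Fintype α] {G : SimpleGraph α} (hG : G.Connected) {A : Set (Sym2 α)}
    (h : IsKBase G 2 A) : Clu (gw G A) univ := by
  classical
  have hA := h.1
  have h1 := (isKBase_iff hA).1 h (inside G (gw G A)) (by
    intro e he
    induction e with
    | h x y =>
    have h2 : G.Adj x y := hA he
    exact mem_inside.2 ⟨h2, same_of_two h2.ne (gw_two h2 he)⟩) (fun e he => he.1)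
    (inside_closed G A)
  have hadj : ∀ x y, G.Adj x y → Same (gw G A) x y := by
    intro x y hxy
    have h2 : s(x, y) ∈ inside G (gw G A) := by
      rw [h1]
      exact hxy
    exact (mem_inside.1 h2).2
  have hall : ∀ x y, Same (gw G A) x y := by
    intro x y
    obtain ⟨p⟩ := hG.preconnected x y
    induction p with
    | nil => exact Same.refl _ _
    | cons h p ih => exact (hadj _ _ h).trans ih
  obtain ⟨x⟩ := hG.nonempty
  obtain ⟨U, hU, hmax⟩ := exists_max_image ((univ : Finset (Finset α)).filter (Clu (gw G A))) card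
    ⟨{x}, mem_filter.2 ⟨mem_univ _, Clu.single x⟩⟩
  rw [mem_filter] at hU
  have h2 : U = univ := by
    rw [eq_univ_iff_forall]
    intro y
    by_contra hy
    obtain ⟨z, hz⟩ := hU.2.nonempty
    obtain ⟨U', h3, h4, h5⟩ := hall z y
    have h6 := h3.union_of_meet hU.2 ⟨z, mem_inter.2 ⟨hz, h4⟩⟩
    have h7 := hmax _ (mem_filter.2 ⟨mem_univ _, h6⟩)
    have h8 : U ⊂ U ∪ U' := by
      rw [Finset.ssubset_iff_of_subset subset_union_left]
      exact ⟨y, mem_union_right _ h5, hy⟩
    exact absurd (card_lt_card h8) (not_lt.2 h7)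
  exact h2 ▸ hU.2

end TB
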