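import Mathlib

/-!
# MP_80160f_co : the balanced orientation of a graph with even degrees
-/

set_option autoImplicit false
set_option linter.unusedSectionVars false

namespace TB

open Finset

variable {α : Type*} [DecidableEq α] [Fintype α]

/-- **heads** : in a graph with even degrees every edge can choose one of its ends such that every
vertex is chosen at most by half of its edges -/
theorem exists_heads (S : SimpleGraph α) [DecidableRel S.Adj]
    (hS : ∀ a, Even (univ.filter fun b => S.Adj a b).card) :
    ∃ h : Sym2 α → α, (∀ a b, S.Adj a b → h s(a, b) = a ∨ h s(a, b) = b) ∧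
      ∀ a, 2 * (univ.filter fun b => S.Adj a b ∧ h s(a, b) = a).card ≤
        (univ.filter fun b => S.Adj a b).card := by
  classical
  set N : α → Finset α := fun a => univ.filter fun b => S.Adj a b with hN
  set R : α → Finset (α × ℕ) := fun a => {a} ×ˢ range ((N a).card / 2) with hR
  set t : S.edgeSet → Finset (α × ℕ) := fun e =>
    (univ.filter fun a => a ∈ (e : Sym2 α)).biUnion R with ht
  have hall : ∀ s : Finset S.edgeSet, s.card ≤ (s.biUnion t).card := by
    intro s
    set Vs : Finset α := univ.filter fun a => ∃ e ∈ s, a ∈ (e : Sym2 α) with hVs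
    have h1 : Vs.biUnion R ⊆ s.biUnion t := by
      intro p hp
      rw [mem_biUnion] at hp
      obtain ⟨a, ha, hpa⟩ := hp
      obtain ⟨e, he, hae⟩ := (mem_filter.1 ha).2
      rw [mem_biUnion]
      refine ⟨e, he, ?_⟩
      rw [ht, mem_biUnion]
      exact ⟨a, mem_filter.2 ⟨mem_univ _, hae⟩, hpa⟩
    refine le_trans ?_ (card_le_card h1)
    have h2 : (Vs.biUnion R).card = ∑ a ∈ Vs, (N a).card / 2 := by
      rw [card_biUnion]
      · refine sum_congr rfl fun a _ => ?_
        rw [hR, card_product, card_singleton, card_range, one_mul]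
      · intro a _ b _ hab
        rw [Function.onFun, Finset.disjoint_left]
        intro p hp hp'
        rw [hR, mem_product, mem_singleton] at hp hp'
        exact hab (hp.1.symm.trans hp'.1)
    rw [h2]
    -- double counting
    have h3 := sum_card_bipartiteAbove_eq_sum_card_bipartiteBelow (s := s) (t := Vs)
      (fun (e : S.edgeSet) (a : α) => a ∈ (e : Sym2 α))
    have h4 : ∀ e ∈ s, (bipartiteAbove (fun (e : S.edgeSet) (a : α) => a ∈ (e : Sym2 α)) Vs e).card
        = 2 := by
      rintro ⟨e, hadj⟩ he
      induction e with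
      | h a b =>
      have hab : S.Adj a b := hadj
      rw [card_eq_two]
      refine ⟨a, b, hab.ne, ?_⟩
      ext z
      rw [mem_bipartiteAbove, mem_insert, mem_singleton]
      constructor
      · rintro ⟨-, hz⟩
        exact Sym2.mem_iff.1 hz
      · intro hz
        have h5 : z ∈ s(a, b) := Sym2.mem_iff.2 hz
        exact ⟨mem_filter.2 ⟨mem_univ _, ⟨_, he, h5⟩⟩, h5⟩
    rw [sum_congr rfl h4, sum_const, smul_eq_mul] at h3
    have h5 : ∀ a ∈ Vs, (bipartiteBelow (fun (e : S.edgeSet) (a : α) => a ∈ (e : Sym2 α)) s a).card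
        ≤ (N a).card := by
      intro a _
      refine card_le_card_of_injOn (fun e => if h : a ∈ (e : Sym2 α) then Sym2.Mem.other' h else a)
        ?_ ?_
      · intro e he
        have he' := ((mem_bipartiteBelow _).1 (mem_coe.1 he)).2
        simp only [dif_pos he']
        rw [mem_coe, hN, mem_filter]
        refine ⟨mem_univ _, ?_⟩
        have h6 : (e : Sym2 α) ∈ S.edgeSet := e.2
        rw [← Sym2.other_spec' he'] at h6
        exact h6
      · intro e he e' he' hee
        have h6 := ((mem_bipartiteBelow _).1 (mem_coe.1 he)).2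
        have h7 := ((mem_bipartiteBelow _).1 (mem_coe.1 he')).2
        simp only [dif_pos h6, dif_pos h7] at hee
        apply Subtype.ext
        rw [← Sym2.other_spec' h6, ← Sym2.other_spec' h7, hee]
    have h6 : s.card * 2 ≤ ∑ a ∈ Vs, (N a).card := by
      rw [h3]
      exact sum_le_sum h5
    have h7 : ∑ a ∈ Vs, (N a).card = 2 * ∑ a ∈ Vs, (N a).card / 2 := by
      rw [mul_sum]
      exact sum_congr rfl fun a _ => (Nat.two_mul_div_two_of_even (hS a)).symm
    omega
  obtain ⟨f, hf, hft⟩ := (all_card_le_biUnion_card_iff_exists_injective t).1 hall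
  have hfm : ∀ e : S.edgeSet, (f e).1 ∈ (e : Sym2 α) ∧ (f e).2 < (N (f e).1).card / 2 := by
    intro e
    have h1 := hft e
    rw [ht, mem_biUnion] at h1
    obtain ⟨a, ha, h2⟩ := h1
    rw [hR, mem_product, mem_singleton, mem_range] at h2
    rw [h2.1]
    exact ⟨(mem_filter.1 ha).2, h2.2⟩
  refine ⟨fun e => if h : e ∈ S.edgeSet then (f ⟨e, h⟩).1 else (Quot.out e).1, ?_, ?_⟩
  · intro a b hab
    have h1 : s(a, b) ∈ S.edgeSet := hab
    simp only [dif_pos h1]
    exact Sym2.mem_iff.1 (hfm ⟨s(a, b), h1⟩).1
  · intro a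
    have h1 : (univ.filter fun b => S.Adj a b ∧ (if h : s(a, b) ∈ S.edgeSet then
        (f ⟨s(a, b), h⟩).1 else (Quot.out s(a, b)).1) = a).card ≤
        (range ((N a).card / 2)).card := by
      refine card_le_card_of_injOn (fun b => if h : s(a, b) ∈ S.edgeSet then
        (f ⟨s(a, b), h⟩).2 else 0) ?_ ?_
      · intro b hb
        obtain ⟨hab, hfa⟩ := (mem_filter.1 (mem_coe.1 hb)).2
        have h1 : s(a, b) ∈ S.edgeSet := hab
        simp only [dif_pos h1] at hfa ⊢
        rw [mem_coe, mem_range]
        have h2 := (hfm ⟨s(a, b), h1⟩).2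
        rw [hfa] at h2
        exact h2
      · intro b hb b' hb' hbb
        obtain ⟨hab, hfa⟩ := (mem_filter.1 (mem_coe.1 hb)).2
        obtain ⟨hab', hfa'⟩ := (mem_filter.1 (mem_coe.1 hb')).2
        have h1 : s(a, b) ∈ S.edgeSet := hab
        have h1' : s(a, b') ∈ S.edgeSet := hab'
        simp only [dif_pos h1] at hfa
        simp only [dif_pos h1'] at hfa'
        simp only [dif_pos h1, dif_pos h1'] at hbb
        have h2 : f ⟨s(a, b), h1⟩ = f ⟨s(a, b'), h1'⟩ :=
          Prod.ext (hfa.trans hfa'.symm) hbb
        have h3 := congrArg Subtype.val (hf h2)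
        simp only at h3
        rw [Sym2.eq_iff] at h3
        rcases h3 with ⟨-, h3⟩ | ⟨h3, h4⟩
        · exact h3
        · exact absurd h3 (S.ne_of_adj hab')
    rw [card_range] at h1
    have h2 : 2 * ((N a).card / 2) = (N a).card := Nat.two_mul_div_two_of_even (hS a)
    beta_reduce
    change _ ≤ (N a).card
    omega

/-- **the balanced orientation** -/
theorem exists_balanced {Γ : Type*} [AddCommGroup Γ] (S : SimpleGraph α) [DecidableRel S.Adj]
    (hS : ∀ a, Even (univ.filter fun b => S.Adj a b).card) (x : Γ) :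
    ∃ ψ : α → α → Γ, (∀ a b, ψ b a = -ψ a b) ∧ (∀ a b, ¬ S.Adj a b → ψ a b = 0) ∧
      (∀ a b, S.Adj a b → ψ a b = x ∨ ψ a b = -x) ∧ ∀ a, ∑ b, ψ a b = 0 := by
  classical
  obtain ⟨h, h1, h2⟩ := exists_heads S hS
  -- the number of heads at every vertex is one half of the degree
  have hsum : ∑ a, 2 * (univ.filter fun b => S.Adj a b ∧ h s(a, b) = a).card =
      ∑ a, (univ.filter fun b => S.Adj a b).card := by
    have h3 : ∑ a, (univ.filter fun b => S.Adj a b ∧ h s(a, b) = a).card =
        ∑ a, (univ.filter fun b => S.Adj a b ∧ ¬ h s(a, b) = a).card := by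
      have h4 : ∀ (p : α → α → Prop) [∀ a b, Decidable (p a b)],
          ∑ a, (univ.filter fun b => p a b).card = ∑ a, ∑ b, if p a b then 1 else 0 := by
        intro p _
        exact sum_congr rfl fun a _ => card_filter _ _
      rw [h4, h4, sum_comm]
      refine sum_congr rfl fun a _ => sum_congr rfl fun b _ => ?_
      refine if_congr ?_ rfl rfl
      rw [Sym2.eq_swap (a := b) (b := a), S.adj_comm b a]
      refine and_congr_right fun h5 => ?_
      constructor
      · intro h6 h7
        exact h5.ne (h7.symm.trans h6)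
      · intro h6
        rcases h1 a b h5 with h7 | h7
        · exact absurd h7 h6
        · exact h7
    rw [← mul_sum, two_mul]
    nth_rw 2 [h3]
    rw [← sum_add_distrib]
    refine sum_congr rfl fun a _ => ?_
    rw [← filter_filter, ← filter_filter, card_filter_add_card_filter_not]
  have heq : ∀ a, 2 * (univ.filter fun b => S.Adj a b ∧ h s(a, b) = a).card =
      (univ.filter fun b => S.Adj a b).card := fun a =>
    (sum_eq_sum_iff_of_le fun a _ => h2 a).1 hsum a (mem_univ a)
  refine ⟨fun a b => if S.Adj a b then (if h s(a, b) = a then -x else x) else 0, ?_, ?_, ?_, ?_⟩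
  · intro a b
    by_cases hab : S.Adj a b
    · simp only [if_pos hab, if_pos hab.symm]
      rw [Sym2.eq_swap (a := b) (b := a)]
      rcases h1 a b hab with h3 | h3
      · rw [h3, if_neg hab.ne, if_pos rfl, neg_neg]
      · rw [h3, if_pos rfl, if_neg hab.ne']
    · have hba : ¬ S.Adj b a := fun h3 => hab h3.symm
      simp only [if_neg hab, if_neg hba, neg_zero]
  · intro a b hab
    simp only [if_neg hab]
  · intro a b hab
    simp only [if_pos hab]
    by_cases h3 : h s(a, b) = a
    · rw [if_pos h3]
      exact Or.inr rfl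
    · rw [if_neg h3]
      exact Or.inl rfl
  · intro a
    simp only
    rw [← sum_filter, sum_ite, sum_const, sum_const, filter_filter, filter_filter, smul_neg]
    have h3 := heq a
    rw [← card_filter_add_card_filter_not (s := univ.filter fun b => S.Adj a b)
      (fun b => h s(a, b) = a), filter_filter, filter_filter, two_mul] at h3
    rw [Nat.add_left_cancel h3, neg_add_cancel]

end TB
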