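import Pool.Agent.Lib.MP_80160f_co.TreeFlow
import Pool.Agent.Lib.MP_80160f_co.Euler

/-!
# MP_80160f_co : flows with values in an abelian group, and two spanning trees
-/

set_option autoImplicit false
set_option linter.unusedSectionVars false

namespace TB

open Finset

variable {α : Type*} [DecidableEq α] [Fintype α] {Γ : Type*} [AddCommGroup Γ]

/-- the sum of an antisymmetric function over a square is zero -/
theorem gsum_square {φ : α → α → Γ} (h : ∀ x y, φ y x = -φ x y) (h0 : ∀ x, φ x x = 0)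
    (A : Finset α) : ∑ x ∈ A, ∑ y ∈ A, φ x y = 0 := by
  induction A using Finset.induction_on with
  | empty => rw [sum_empty]
  | insert a A ha ih =>
    rw [sum_insert ha, sum_insert ha, h0, zero_add]
    have h1 : ∑ x ∈ A, ∑ y ∈ insert a A, φ x y = ∑ x ∈ A, φ x a + ∑ x ∈ A, ∑ y ∈ A, φ x y := by
      rw [← sum_add_distrib]
      exact sum_congr rfl fun x _ => sum_insert ha
    have h2 : ∑ x ∈ A, φ x a = -∑ y ∈ A, φ a y := by
      rw [← sum_neg_distrib]
      exact sum_congr rfl fun x _ => h a x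
    rw [h1, ih, h2, add_zero, add_neg_cancel]

/-- what flows into the set `S` -/
def ginflow (z : α → α → Γ) (S : Finset α) : Γ := ∑ b ∈ S, ∑ a, z a b

/-- the flow which extends `z` along the tree -/
noncomputable def gfl (T : SimpleGraph α) (z : α → α → Γ) (p q : α) : Γ := by
  classical
  exact z p q - if T.Adj p q then ginflow z (br T univ p q) else 0

theorem gfl_adj {T : SimpleGraph α} (z : α → α → Γ) {p q : α} (h : T.Adj p q) :
    gfl T z p q = z p q - ginflow z (br T univ p q) := by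
  unfold gfl
  rw [if_pos h]

theorem gfl_not {T : SimpleGraph α} (z : α → α → Γ) {p q : α} (h : ¬ T.Adj p q) :
    gfl T z p q = z p q := by
  unfold gfl
  rw [if_neg h, sub_zero]

theorem ginflow_univ {z : α → α → Γ} (hz : ∀ x y, z y x = -z x y) (h0 : ∀ x, z x x = 0) :
    ginflow z univ = 0 := by
  unfold ginflow
  rw [sum_comm]
  exact gsum_square hz h0 univ

theorem gfl_symm {T : SimpleGraph α} (hT : T.IsAcyclic) (hc : ConnIn T univ) {z : α → α → Γ}
    (hz : ∀ x y, z y x = -z x y) (h0 : ∀ x, z x x = 0) (p q : α) :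
    gfl T z q p = -gfl T z p q := by
  by_cases h : T.Adj p q
  · rw [gfl_adj _ h, gfl_adj _ h.symm, hz p q, br_compl hT hc h]
    have h1 : ginflow z (br T univ p q) + ginflow z (br T univ p q)ᶜ = 0 := by
      rw [← ginflow_univ hz h0]
      exact sum_add_sum_compl _ _
    have h2 : ginflow z (br T univ p q)ᶜ = -ginflow z (br T univ p q) :=
      eq_neg_of_add_eq_zero_right h1
    rw [h2]
    abel
  · rw [gfl_not _ h, gfl_not _ fun h1 => h h1.symm, hz p q]

theorem gfl_div {T : SimpleGraph α} (hT : T.IsAcyclic) (hc : ConnIn T univ) {z : α → α → Γ}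
    (hz : ∀ x y, z y x = -z x y) (h0 : ∀ x, z x x = 0) (p : α) : ∑ q, gfl T z p q = 0 := by
  classical
  have h1 : ∀ q, gfl T z p q = z p q - if T.Adj p q then ginflow z (br T univ p q) else 0 :=
    fun q => rfl
  simp only [h1]
  rw [sum_sub_distrib, ← sum_filter]
  have h2 : ∑ q ∈ univ.filter fun q => T.Adj p q, ginflow z (br T univ p q) =
      ginflow z (univ.erase p) := by
    have h3 : (univ.filter fun q => T.Adj p q) = nbT T univ p := by
      ext q
      rw [mem_nbT, mem_filter]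
    rw [h3]
    unfold ginflow
    rw [← br_union hc (mem_univ p), sum_biUnion]
    intro w hw w' hw' hne
    exact br_disjoint hT hc (mem_univ p) w (mem_coe.1 hw) w' (mem_coe.1 hw') hne
  rw [h2]
  have h4 : ∑ q, z p q = -∑ a, z a p := by
    rw [← sum_neg_distrib]
    exact sum_congr rfl fun a _ => hz a p
  have h5 : ∑ a, z a p + ginflow z (univ.erase p) = 0 := by
    rw [← ginflow_univ hz h0]
    exact add_sum_erase univ (fun b => ∑ a, z a b) (mem_univ p)
  rw [h4]
  have h6 : -∑ a, z a p - ginflow z (univ.erase p) =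
      -(∑ a, z a p + ginflow z (univ.erase p)) := by
    abel
  rw [h6, h5, neg_zero]

/-- an oriented constant -/
noncomputable def gor (w : Γ) (a b : α) : Γ := if fst s(a, b) = a then w else -w

theorem gor_symm (w : Γ) {a b : α} (h : a ≠ b) : gor w b a = -gor w a b := by
  unfold gor
  rw [Sym2.eq_swap (a := b) (b := a)]
  rcases out_or a b with ⟨h1, -⟩ | ⟨h1, -⟩
  · rw [h1, if_neg h, if_pos rfl]
  · rw [h1, if_pos rfl, if_neg h.symm, neg_neg]

theorem gor_or (w : Γ) (a b : α) : gor w a b = w ∨ gor w a b = -w := by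
  unfold gor
  split_ifs
  · exact Or.inl rfl
  · exact Or.inr rfl

/-- **two spanning trees** : the avoidance property for groups of order at least four -/
theorem avoid_of_trees {G : SimpleGraph α} {C₁ C₂ : Set (Sym2 α)} (h₁ : C₁ ⊆ G.edgeSet)
    (h₂ : C₂ ⊆ G.edgeSet)
    (t₁ : (G.deleteEdges C₁).IsTree) (t₂ : (G.deleteEdges C₂).IsTree) {x w : Γ} (hx : x ≠ 0)
    (hw0 : w ≠ 0) (hw1 : w ≠ x) (hw2 : w ≠ -x) (f : α → α → Γ) (hf : ∀ a b, f b a = -f a b) :
    ∃ φ : α → α → Γ, (∀ a b, φ b a = -φ a b) ∧ (∀ a b, ¬ G.Adj a b → φ a b = 0) ∧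
      (∀ a, ∑ b, φ a b = 0) ∧ ∀ a b, s(a, b) ∈ C₁ ∪ C₂ → φ a b ≠ f a b := by
  classical
  set T₁ := G.deleteEdges C₁ with hT₁
  set T₂ := G.deleteEdges C₂ with hT₂
  have c₁ := connIn_univ t₁.connected
  have c₂ := connIn_univ t₂.connected
  have hnd₁ : ∀ {a b}, s(a, b) ∈ C₁ → G.Adj a b := fun h => h₁ h
  have hnd₂ : ∀ {a b}, s(a, b) ∈ C₂ → G.Adj a b := fun h => h₂ h
  have nT₁ : ∀ {a b}, s(a, b) ∈ C₁ → ¬ T₁.Adj a b := by
    intro a b h h'
    rw [hT₁, SimpleGraph.deleteEdges_adj] at h'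
    exact h'.2 h
  have nT₂ : ∀ {a b}, s(a, b) ∈ C₂ → ¬ T₂.Adj a b := by
    intro a b h h'
    rw [hT₂, SimpleGraph.deleteEdges_adj] at h'
    exact h'.2 h
  have l₁ : ∀ {a b}, T₁.Adj a b → G.Adj a b := fun h => (SimpleGraph.deleteEdges_le C₁) h
  have l₂ : ∀ {a b}, T₂.Adj a b → G.Adj a b := fun h => (SimpleGraph.deleteEdges_le C₂) h
  -- the first flow
  set z : α → α → Γ := fun a b => if s(a, b) ∈ C₁ then f a b + gor w a b else 0 with hz
  have z1 : ∀ a b, z b a = -z a b := by
    intro a b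
    rw [hz]
    by_cases h : s(a, b) ∈ C₁
    · have h' : s(b, a) ∈ C₁ := by rw [Sym2.eq_swap]; exact h
      simp only [if_pos h, if_pos h']
      rw [hf, gor_symm w (hnd₁ h).ne]
      abel
    · have h' : ¬ s(b, a) ∈ C₁ := by rw [Sym2.eq_swap]; exact h
      simp only [if_neg h, if_neg h', neg_zero]
  have z0 : ∀ a, z a a = 0 := by
    intro a
    rw [hz]
    simp only
    rw [if_neg]
    intro h
    exact G.loopless.irrefl _ (hnd₁ h)
  set φ₁ : α → α → Γ := gfl T₁ z with hφ₁
  have p1 : ∀ a b, φ₁ b a = -φ₁ a b := fun a b => gfl_symm t₁.isAcyclic c₁ z1 z0 a b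
  have p2 : ∀ a, ∑ b, φ₁ a b = 0 := fun a => gfl_div t₁.isAcyclic c₁ z1 z0 a
  have p3 : ∀ a b, ¬ G.Adj a b → φ₁ a b = 0 := by
    intro a b h
    rw [hφ₁, gfl_not _ fun h' => h (l₁ h'), hz]
    simp only
    rw [if_neg fun h' => h (hnd₁ h')]
  have p4 : ∀ a b, s(a, b) ∈ C₁ → φ₁ a b = f a b + gor w a b := by
    intro a b h
    rw [hφ₁, gfl_not _ (nT₁ h), hz]
    simp only
    rw [if_pos h]
  -- the correction modulo two
  set y : α → α → ZMod 2 := fun a b => if s(a, b) ∈ C₂ ∧ φ₁ a b = f a b then 1 else 0 with hy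
  have y1 : ∀ a b, y b a = -y a b := by
    intro a b
    have h1 : (s(b, a) ∈ C₂ ∧ φ₁ b a = f b a) ↔ (s(a, b) ∈ C₂ ∧ φ₁ a b = f a b) := by
      rw [Sym2.eq_swap, p1 a b, hf a b, neg_inj]
    rw [hy]
    simp only
    rw [if_congr h1 rfl rfl]
    split_ifs
    · decide
    · decide
  have y0 : ∀ a, y a a = 0 := by
    intro a
    rw [hy]
    simp only
    rw [if_neg]
    rintro ⟨h, -⟩
    exact G.loopless.irrefl _ (hnd₂ h)
  set r : α → α → ZMod 2 := gfl T₂ y with hr
  have r1 : ∀ a b, r b a = -r a b := fun a b => gfl_symm t₂.isAcyclic c₂ y1 y0 a b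
  have r2 : ∀ a, ∑ b, r a b = 0 := fun a => gfl_div t₂.isAcyclic c₂ y1 y0 a
  have r3 : ∀ a b, ¬ G.Adj a b → r a b = 0 := by
    intro a b h
    rw [hr, gfl_not _ fun h' => h (l₂ h'), hy]
    simp only
    rw [if_neg fun h' => h (hnd₂ h'.1)]
  have r4 : ∀ a b, s(a, b) ∈ C₂ → r a b = if φ₁ a b = f a b then 1 else 0 := by
    intro a b h
    rw [hr, gfl_not _ (nT₂ h), hy]
    simp only
    exact if_congr ⟨fun h' => h'.2, fun h' => ⟨h, h'⟩⟩ rfl rfl
  let S : SimpleGraph α :=
    { Adj := fun a b => r a b ≠ 0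
      symm := ⟨fun a b h => by
        rw [r1 a b]
        exact neg_ne_zero.2 h⟩
      loopless := ⟨fun a h => h (r3 a a (G.loopless.irrefl a))⟩ }
  have hSadj : ∀ a b, S.Adj a b ↔ r a b ≠ 0 := fun _ _ => Iff.rfl
  have heven : ∀ a, Even (univ.filter fun b => S.Adj a b).card := by
    intro a
    rw [← ZMod.natCast_eq_zero_iff_even, card_filter, Nat.cast_sum]
    refine Eq.trans ?_ (r2 a)
    refine sum_congr rfl fun b _ => ?_
    by_cases h : r a b = 0
    · rw [if_neg fun h' => (hSadj a b).1 h' h, Nat.cast_zero]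
      exact h.symm
    · rw [if_pos ((hSadj a b).2 h), Nat.cast_one]
      revert h
      generalize r a b = t
      revert t
      decide
  obtain ⟨ψ, s1, s2, s3, s4⟩ := exists_balanced S heven x
  have s5 : ∀ a b, ψ a b = 0 ∨ ψ a b = x ∨ ψ a b = -x := by
    intro a b
    by_cases h : S.Adj a b
    · exact Or.inr (s3 a b h)
    · exact Or.inl (s2 a b h)
  refine ⟨fun a b => φ₁ a b + ψ a b, ?_, ?_, ?_, ?_⟩
  · intro a b
    change φ₁ b a + ψ b a = -(φ₁ a b + ψ a b)
    rw [p1, s1]
    abel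
  · intro a b h
    change φ₁ a b + ψ a b = 0
    rw [p3 a b h, s2 a b fun h' => (hSadj a b).1 h' (r3 a b h), add_zero]
  · intro a
    rw [sum_add_distrib, p2, s4, add_zero]
  · intro a b hab h
    replace h : φ₁ a b + ψ a b = f a b := h
    rcases hab with hab | hab
    · rw [p4 a b hab] at h
      have h1 : gor w a b + ψ a b = 0 := by
        have h2 : f a b + gor w a b + ψ a b = f a b + (gor w a b + ψ a b) := by abel
        rw [h2] at h
        exact left_eq_add.1 h.symm
      rcases gor_or w a b with h3 | h3 <;> rcases s5 a b with h4 | h4 | h4 <;> rw [h3, h4] at h1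
      · rw [add_zero] at h1
        exact hw0 h1
      · exact hw2 (eq_neg_of_add_eq_zero_left h1)
      · rw [← sub_eq_add_neg, sub_eq_zero] at h1
        exact hw1 h1
      · rw [add_zero, neg_eq_zero] at h1
        exact hw0 h1
      · rw [neg_add_eq_zero] at h1
        exact hw1 h1
      · rw [← neg_add, neg_eq_zero] at h1
        exact hw2 (eq_neg_of_add_eq_zero_left h1)
    · have h5 := r4 a b hab
      by_cases hb : φ₁ a b = f a b
      · rw [if_pos hb] at h5
        have h6 : S.Adj a b := by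
          rw [hSadj, h5]
          decide
        rw [hb] at h
        have h7 := left_eq_add.1 h.symm
        rcases s3 a b h6 with h8 | h8
        · exact hx (h8.symm.trans h7)
        · rw [h7] at h8
          exact hx (neg_eq_zero.1 h8.symm)
      · rw [if_neg hb] at h5
        have h6 : ψ a b = 0 := s2 a b fun h' => (hSadj a b).1 h' h5
        rw [h6, add_zero] at h
        exact hb h

end TB
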