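import Mathlib

/-!
# MP_80160f_co : vectors which are a union of two independent sets
-/

set_option autoImplicit false
set_option linter.unusedSectionVars false

namespace TB

open Finset Module

variable {F E ι : Type*} [Field F] [AddCommGroup E] [Module F E] [FiniteDimensional F E]
  [DecidableEq ι]

/-- the dimension of the space spanned by `W` and the vectors of the set `S` -/
noncomputable def rk2 (ℓ : ι → E) (W : Submodule F E) (S : Finset ι) : ℕ :=
  finrank F ↥(W ⊔ Submodule.span F (ℓ '' (S : Set ι)))

theorem rk2_empty (ℓ : ι → E) (W : Submodule F E) : rk2 ℓ W ∅ = finrank F W := by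
  unfold rk2
  rw [coe_empty, Set.image_empty, Submodule.span_empty, sup_bot_eq]

theorem rk2_insert_sup (ℓ : ι → E) (W : Submodule F E) (e : ι) (S : Finset ι) :
    rk2 ℓ (W ⊔ Submodule.span F {ℓ e}) S = rk2 ℓ W (insert e S) := by
  unfold rk2
  rw [coe_insert, Set.image_insert_eq, Submodule.span_insert, sup_assoc]

theorem finrank_sup_single (W : Submodule F E) (x : E) :
    finrank F ↥(W ⊔ Submodule.span F {x}) ≤ finrank F W + 1 := by
  refine (Submodule.finrank_add_le_finrank_add_finrank _ _).trans ?_
  refine Nat.add_le_add_left ?_ _
  have h := finrank_span_le_card (R := F) ({x} : Set E)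
  rwa [Set.toFinset_singleton, card_singleton] at h

theorem rk2_submod (ℓ : ι → E) (W : Submodule F E) (S S' : Finset ι) :
    rk2 ℓ W (S ∪ S') + rk2 ℓ W (S ∩ S') ≤ rk2 ℓ W S + rk2 ℓ W S' := by
  unfold rk2
  rw [← Submodule.finrank_sup_add_finrank_inf_eq
    (W ⊔ Submodule.span F (ℓ '' (S : Set ι))) (W ⊔ Submodule.span F (ℓ '' (S' : Set ι)))]
  refine Nat.add_le_add ?_ ?_
  · apply Submodule.finrank_mono
    rw [coe_union, Set.image_union, Submodule.span_union]
    refine sup_le (le_sup_of_le_left le_sup_left) (sup_le ?_ ?_)
    · exact le_sup_of_le_left le_sup_right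
    · exact le_sup_of_le_right le_sup_right
  · apply Submodule.finrank_mono
    refine le_inf (sup_le_sup_left (Submodule.span_mono (Set.image_mono ?_)) W)
      (sup_le_sup_left (Submodule.span_mono (Set.image_mono ?_)) W)
    · exact coe_subset.2 inter_subset_left
    · exact coe_subset.2 inter_subset_right

theorem rk2_mono (ℓ : ι → E) (W : Submodule F E) {S S' : Finset ι} (h : S ⊆ S') :
    rk2 ℓ W S ≤ rk2 ℓ W S' := by
  unfold rk2
  exact Submodule.finrank_mono (sup_le_sup_left
    (Submodule.span_mono (Set.image_mono (coe_subset.2 h))) W)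

/-- **the partition lemma** (Rado, Edmonds) for two classes -/
theorem partition_forms (ℓ : ι → E) (C : Finset ι) : ∀ (W W' : Submodule F E),
    (∀ S ⊆ C, S.card + (finrank F W + finrank F W') ≤ rk2 ℓ W S + rk2 ℓ W' S) →
      ∃ I ⊆ C, finrank F W + I.card ≤ rk2 ℓ W I ∧
        finrank F W' + (C \ I).card ≤ rk2 ℓ W' (C \ I) := by
  induction C using Finset.induction_on with
  | empty =>
    intro W W' _
    refine ⟨∅, Subset.refl _, ?_, ?_⟩
    · rw [rk2_empty, card_empty]
      exact le_refl _
    · rw [sdiff_empty, rk2_empty, card_empty]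
      exact le_refl _
  | insert e C heC ih =>
    intro W W' H
    by_cases h1 : ∀ S ⊆ C, S.card + 1 + (finrank F W + finrank F W') ≤
        rk2 ℓ W (insert e S) + rk2 ℓ W' S
    · -- put `e` in the first class
      have h2 := h1 ∅ (empty_subset _)
      rw [card_empty, zero_add, rk2_empty, ← rk2_insert_sup, rk2_empty] at h2
      have h3 := finrank_sup_single W (ℓ e)
      obtain ⟨I, hI, h4, h5⟩ := ih (W ⊔ Submodule.span F {ℓ e}) W' (by
        intro S hS
        have h4 := h1 S hS
        rw [rk2_insert_sup]
        omega)
      have heI : e ∉ I := fun h => heC (hI h)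
      refine ⟨insert e I, insert_subset_insert e hI, ?_, ?_⟩
      · rw [card_insert_of_notMem heI]
        rw [rk2_insert_sup] at h4
        omega
      · have h6 : insert e C \ insert e I = C \ I := by
          ext x
          simp only [mem_sdiff, mem_insert, not_or]
          constructor
          · rintro ⟨h7 | h7, h8, h9⟩
            · exact absurd h7 h8
            · exact ⟨h7, h9⟩
          · rintro ⟨h7, h8⟩
            exact ⟨Or.inr h7, fun h9 => heC (h9 ▸ h7), h8⟩
        rw [h6]
        exact h5
    · by_cases h2 : ∀ S ⊆ C, S.card + 1 + (finrank F W + finrank F W') ≤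
          rk2 ℓ W S + rk2 ℓ W' (insert e S)
      · -- put `e` in the second class
        have h3 := h2 ∅ (empty_subset _)
        rw [card_empty, zero_add, rk2_empty, ← rk2_insert_sup, rk2_empty] at h3
        have h4 := finrank_sup_single W' (ℓ e)
        obtain ⟨I, hI, h5, h6⟩ := ih W (W' ⊔ Submodule.span F {ℓ e}) (by
          intro S hS
          have h5 := h2 S hS
          rw [rk2_insert_sup]
          omega)
        refine ⟨I, hI.trans (subset_insert e C), h5, ?_⟩
        have heI : e ∉ I := fun h => heC (hI h)
        have h7 : insert e C \ I = insert e (C \ I) := insert_sdiff_of_notMem _ heI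
        have h8 : e ∉ C \ I := fun h => heC (mem_sdiff.1 h).1
        rw [h7, card_insert_of_notMem h8]
        rw [rk2_insert_sup] at h6
        omega
      · exfalso
        simp only [not_forall, not_le] at h1 h2
        obtain ⟨S, hS, h3⟩ := h1
        obtain ⟨S', hS', h4⟩ := h2
        have h5 := rk2_submod ℓ W (insert e S) S'
        have h6 := rk2_submod ℓ W' S (insert e S')
        have heS : e ∉ S := fun h => heC (hS h)
        have heS' : e ∉ S' := fun h => heC (hS' h)
        have e1 : insert e S ∪ S' = insert e (S ∪ S') := insert_union _ _ _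
        have e2 : S ∪ insert e S' = insert e (S ∪ S') := union_insert _ _ _
        have e3 : insert e S ∩ S' = S ∩ S' := insert_inter_of_notMem heS'
        have e4 : S ∩ insert e S' = S ∩ S' := inter_insert_of_notMem heS
        rw [e1, e3] at h5
        rw [e2, e4] at h6
        have h7 := H (insert e (S ∪ S')) (insert_subset_insert e (union_subset hS hS'))
        have h8 := H (S ∩ S') ((inter_subset_left.trans hS).trans (subset_insert e C))
        have h9 : e ∉ S ∪ S' := fun h => (mem_union.1 h).elim heS heS'
        rw [card_insert_of_notMem h9] at h7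
        have h10 := card_union_add_card_inter S S'
        omega

end TB
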