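import Pool.Agent.Lib.MP_80160f_co.Alg
import Pool.Agent.Lib.MP_80160f_co.Rado

/-!
# MP_80160f_co : if a product of linear forms has a nonzero sum, then the forms are a union of two bases
-/

set_option autoImplicit false
set_option linter.unusedSectionVars false

namespace TB

open Finset Module

section rank

variable {V ι : Type*} [AddCommGroup V] [Module (ZMod 3) V] [Finite V]

/-- a product of few affine forms has sum zero -/
theorem sum_aff_zero [Fintype V] [DecidableEq ι] (L : ι → (V →ₗ[ZMod 3] ZMod 3)) (I : Finset ι)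
    (h : I.card < 2 * finrank (ZMod 3) V) (c : ι → ZMod 3) :
    ∑ x, ∏ i ∈ I, (L i x + c i) = 0 := by
  classical
  set e := (finBasis (ZMod 3) V).equivFun with he
  have h1 : ∀ i, ∀ x, L i x = (L i ∘ₗ e.symm.toLinearMap) (e x) := by
    intro i x
    rw [LinearMap.comp_apply, LinearEquiv.coe_coe, LinearEquiv.symm_apply_apply]
  have h2 : ∑ x, ∏ i ∈ I, (L i x + c i) =
      ∑ y : Fin (finrank (ZMod 3) V) → ZMod 3, ∏ i ∈ I,
        ((L i ∘ₗ e.symm.toLinearMap) y - (-c i)) := by
    rw [← e.toEquiv.sum_comp]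
    refine sum_congr rfl fun x _ => prod_congr rfl fun i _ => ?_
    rw [sub_neg_eq_add, h1 i x]
    rfl
  rw [h2, sum_prod_shift _ I (by rw [Fintype.card_fin]; exact h.le) fun i => -c i]
  apply sum_prod_zero
  rw [Fintype.card_fin]
  exact h

/-- **the rank condition** -/
theorem rank_cond [Fintype V] [DecidableEq ι] (L : ι → (V →ₗ[ZMod 3] ZMod 3)) (I : Finset ι)
    (hI : I.card = 2 * finrank (ZMod 3) V) (hne : ∑ x, ∏ i ∈ I, L i x ≠ 0) :
    ∀ S ⊆ I, S.card ≤ 2 * finrank (ZMod 3)
      ↥(Submodule.span (ZMod 3) (L '' (S : Set ι)) : Submodule (ZMod 3) (Dual (ZMod 3) V)) := by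
  classical
  intro S hS
  by_contra hlt
  rw [not_le] at hlt
  apply hne
  set D : Submodule (ZMod 3) (Dual (ZMod 3) V) := Submodule.span (ZMod 3) (L '' (S : Set ι))
    with hD
  have hlt' : 2 * finrank (ZMod 3) D < S.card := hlt
  set K := D.dualCoannihilator with hK
  have h1 : finrank (ZMod 3) D + finrank (ZMod 3) K = finrank (ZMod 3) V :=
    Subspace.finrank_add_finrank_dualCoannihilator_eq D
  clear hlt
  have hLK : ∀ i ∈ S, ∀ k : K, L i (k : V) = 0 := by
    intro i hi k
    have h2 : L i ∈ D := Submodule.subset_span ⟨i, mem_coe.2 hi, rfl⟩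
    exact (Submodule.mem_dualCoannihilator (k : V)).1 k.2 (L i) h2
  obtain ⟨K', hKK⟩ := Submodule.exists_isCompl K
  have : Fintype K := Fintype.ofFinite K
  have : Fintype K' := Fintype.ofFinite K'
  rw [← (Submodule.prodEquivOfIsCompl K K' hKK).toEquiv.sum_comp, Fintype.sum_prod_type_right]
  refine sum_eq_zero fun k' _ => ?_
  have h3 : ∀ k : K, ∏ i ∈ I, L i ((Submodule.prodEquivOfIsCompl K K' hKK).toEquiv (k, k')) =
      (∏ i ∈ S, L i (k' : V)) *
        ∏ i ∈ I \ S, ((L i ∘ₗ K.subtype) k + L i (k' : V)) := by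
    intro k
    have h4 : (Submodule.prodEquivOfIsCompl K K' hKK).toEquiv (k, k') = (k : V) + (k' : V) :=
      Submodule.coe_prodEquivOfIsCompl' K K' hKK (k, k')
    rw [h4, ← prod_sdiff hS, mul_comm]
    refine congrArg₂ (· * ·) ?_ ?_
    · refine prod_congr rfl fun i hi => ?_
      rw [map_add, hLK i hi k, zero_add]
    · exact prod_congr rfl fun i _ => map_add _ _ _
  simp only [h3]
  rw [← mul_sum, sum_aff_zero (fun i => L i ∘ₗ K.subtype) (I \ S) ?_ fun i => L i (k' : V),
    mul_zero]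
  rw [card_sdiff_of_subset hS]
  have h5 := card_le_card hS
  omega

/-- **two bases** : the forms are split into two halves each of which determines every point -/
theorem two_bases [Fintype V] [DecidableEq ι] (L : ι → (V →ₗ[ZMod 3] ZMod 3)) (I : Finset ι)
    (hI : I.card = 2 * finrank (ZMod 3) V) (hne : ∑ x, ∏ i ∈ I, L i x ≠ 0) :
    ∃ C ⊆ I, C.card = finrank (ZMod 3) V ∧ (I \ C).card = finrank (ZMod 3) V ∧
      (∀ x, (∀ i ∈ C, L i x = 0) → x = 0) ∧ ∀ x, (∀ i ∈ I \ C, L i x = 0) → x = 0 := by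
  classical
  have h1 := rank_cond L I hI hne
  obtain ⟨C, hC, h2, h3⟩ := partition_forms (F := ZMod 3) (E := Dual (ZMod 3) V) L I ⊥ ⊥ (by
    intro S hS
    have h4 := h1 S hS
    unfold rk2
    rw [bot_sup_eq, finrank_bot]
    omega)
  unfold rk2 at h2 h3
  rw [bot_sup_eq, finrank_bot, zero_add] at h2 h3
  have h4 : finrank (ZMod 3) (Dual (ZMod 3) V) = finrank (ZMod 3) V := Subspace.dual_finrank_eq
  have h5 := Submodule.finrank_le (Submodule.span (ZMod 3) (L '' (C : Set ι)) :
    Submodule (ZMod 3) (Dual (ZMod 3) V))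
  have h6 := Submodule.finrank_le (Submodule.span (ZMod 3) (L '' ((I \ C : Finset ι) : Set ι)) :
    Submodule (ZMod 3) (Dual (ZMod 3) V))
  have h7 := card_sdiff_add_card_eq_card hC
  have key : ∀ S : Finset ι, finrank (ZMod 3) V ≤ finrank (ZMod 3)
      ↥(Submodule.span (ZMod 3) (L '' (S : Set ι)) : Submodule (ZMod 3) (Dual (ZMod 3) V)) →
      ∀ x, (∀ i ∈ S, L i x = 0) → x = 0 := by
    intro S hS x hx
    have h8 : (Submodule.span (ZMod 3) (L '' (S : Set ι)) :
        Submodule (ZMod 3) (Dual (ZMod 3) V)) = ⊤ := by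
      apply Submodule.eq_top_of_finrank_eq
      rw [h4]
      have h9 := Submodule.finrank_le (Submodule.span (ZMod 3) (L '' (S : Set ι)) :
        Submodule (ZMod 3) (Dual (ZMod 3) V))
      omega
    rw [← Module.forall_dual_apply_eq_zero_iff (ZMod 3) x]
    intro φ
    have h9 : φ ∈ (Submodule.span (ZMod 3) (L '' (S : Set ι)) :
        Submodule (ZMod 3) (Dual (ZMod 3) V)) := by
      rw [h8]
      exact Submodule.mem_top
    refine Submodule.span_induction (p := fun φ _ => φ x = 0) ?_ ?_ ?_ ?_ h9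
    · rintro _ ⟨i, hi, rfl⟩
      exact hx i (mem_coe.1 hi)
    · exact LinearMap.zero_apply x
    · intro a b _ _ ha hb
      rw [LinearMap.add_apply, ha, hb, add_zero]
    · intro m a _ ha
      rw [LinearMap.smul_apply, ha, smul_zero]
  exact ⟨C, hC, by omega, by omega, key C (by omega), key (I \ C) (by omega)⟩

/-- prescribed values on a basis of forms -/
theorem exists_values [Fintype V] [DecidableEq ι] (L : ι → (V →ₗ[ZMod 3] ZMod 3)) (C : Finset ι)
    (hC : C.card = finrank (ZMod 3) V) (h : ∀ x, (∀ i ∈ C, L i x = 0) → x = 0)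
    (y : ι → ZMod 3) : ∃ x, ∀ i ∈ C, L i x = y i := by
  classical
  have hinj : Function.Injective (LinearMap.pi fun i : C => L i :
      V →ₗ[ZMod 3] (C → ZMod 3)) := by
    rw [injective_iff_map_eq_zero]
    intro x hx
    apply h
    intro i hi
    exact congrFun hx ⟨i, hi⟩
  have hsur : Function.Surjective (LinearMap.pi fun i : C => L i :
      V →ₗ[ZMod 3] (C → ZMod 3)) := by
    rw [← LinearMap.injective_iff_surjective_of_finrank_eq_finrank]
    · exact hinj
    · rw [finrank_fintype_fun_eq_card, Fintype.card_coe, hC]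
  obtain ⟨x, hx⟩ := hsur fun i => y i
  exact ⟨x, fun i hi => congrFun hx ⟨i, hi⟩⟩

end rank

end TB
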