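import Pool.Agent.Lib.MP_80160f_co.Core
import Pool.Agent.Lib.MP_80160f_co.Conv
import Pool.Agent.Lib.MP_80160f_co.GFlow
import Pool.Agent.Lib.MP_80160f_co.Rank

/-!
# MP_80160f_co : the avoidance property for all abelian groups
-/

set_option autoImplicit false
set_option linter.unusedSectionVars false

namespace TB

open Finset Module

/-- `B` has the avoidance property for the abelian group `Γ`: for all forbidden values there is a flow
with values in `Γ` which takes no forbidden value on the edges outside of `B` -/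
def Avoids {β : Type*} [Fintype β] (Γ : Type*) [AddCommGroup Γ] (G : SimpleGraph β)
    (B : Set (Sym2 β)) : Prop :=
  ∀ f : β → β → Γ, (∀ x y, f y x = -f x y) → ∃ φ : β → β → Γ,
    (∀ x y, φ y x = -φ x y) ∧ (∀ x y, ¬ G.Adj x y → φ x y = 0) ∧ (∀ x, ∑ y, φ x y = 0) ∧
      ∀ x y, G.Adj x y → s(x, y) ∉ B → φ x y ≠ f x y

variable {α : Type*} [DecidableEq α] [Fintype α]

theorem Avoids.of_equiv {Γ Δ : Type*} [AddCommGroup Γ] [AddCommGroup Δ] (g : Γ ≃+ Δ)
    {G : SimpleGraph α} {B : Set (Sym2 α)} (h : Avoids Δ G B) : Avoids Γ G B := by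
  intro f hf
  obtain ⟨φ, h1, h2, h3, h4⟩ := h (fun x y => g (f x y)) (fun x y => by rw [hf, map_neg])
  refine ⟨fun x y => g.symm (φ x y), ?_, ?_, ?_, ?_⟩
  · intro x y
    change g.symm (φ y x) = -g.symm (φ x y)
    rw [h1, map_neg]
  · intro x y hxy
    change g.symm (φ x y) = 0
    rw [h2 x y hxy, map_zero]
  · intro x
    rw [← map_sum, h3, map_zero]
  · intro x y hxy hB he
    apply h4 x y hxy hB
    rw [← he, AddEquiv.apply_symm_apply]

/-- a group whose elements are `0`, `a` and `-a` -/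
theorem equiv_three {Γ : Type*} [AddCommGroup Γ] {a : Γ} (ha : a ≠ 0) (ha' : a ≠ -a)
    (h : ∀ c : Γ, c = 0 ∨ c = a ∨ c = -a) : Nonempty (Γ ≃+ ZMod 3) := by
  classical
  have h1 : Nat.card Γ = 3 := by
    rw [← Set.ncard_univ]
    have h2 : (Set.univ : Set Γ) = {0, a, -a} := by
      ext c
      simp only [Set.mem_univ, Set.mem_insert_iff, Set.mem_singleton_iff, true_iff]
      exact h c
    rw [h2, Set.ncard_eq_three]
    exact ⟨0, a, -a, ha.symm, fun h3 => ha (by rw [← neg_eq_zero]; exact h3.symm), ha', rfl⟩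
  have : Fact (Nat.Prime 3) := ⟨Nat.prime_three⟩
  have h2 : IsAddCyclic Γ := isAddCyclic_of_prime_card h1
  have g := zmodAddCyclicAddEquiv h2
  rw [h1] at g
  exact ⟨g.symm⟩

section

variable {T J : SimpleGraph α}

/-- the edge of an index -/
def em (T J : SimpleGraph α) : J.edgeSet ⊕ T.edgeSet → Sym2 α := Sum.elim Subtype.val Subtype.val

theorem em_inj (hd : ∀ x y, T.Adj x y → ¬ J.Adj x y) : Function.Injective (em T J) := by
  have hne : ∀ (k : J.edgeSet) (t : T.edgeSet), (k : Sym2 α) ≠ (t : Sym2 α) := by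
    intro k t h
    have h1 := adj_out k
    have h2 := adj_out t
    rw [← h] at h2
    exact hd _ _ h2 h1
  rintro (i | i) (j | j) hij
  · exact congrArg Sum.inl (Subtype.ext hij)
  · exact absurd hij (hne i j)
  · exact absurd hij.symm (hne j i)
  · exact congrArg Sum.inr (Subtype.ext hij)

theorem em_mem (i : J.edgeSet ⊕ T.edgeSet) : em T J i ∈ (T ⊔ J).edgeSet := by
  rw [SimpleGraph.edgeSet_sup]
  rcases i with k | t
  · exact Or.inr k.2
  · exact Or.inl t.2

theorem both_eq (hd : ∀ x y, T.Adj x y → ¬ J.Adj x y)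
    (i : J.edgeSet ⊕ T.edgeSet) (x : J.edgeSet → ZMod 3) :
    both (lf T J) i x = fl T (anti J x) (fst (em T J i)) (snd (em T J i)) := by
  rcases i with k | t
  · have h1 : fl T (anti J x) (fst (k : Sym2 α)) (snd (k : Sym2 α)) = x k := by
      rw [fl_not _ fun h => hd _ _ h (adj_out k), anti_out]
    exact h1.symm
  · rfl

/-- **a basis of forms is the complement of a spanning tree** -/
theorem tree_of_basis [Fintype T.edgeSet] [Fintype J.edgeSet] [DecidableEq J.edgeSet]
    [DecidableEq T.edgeSet]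
    (hd : ∀ x y, T.Adj x y → ¬ J.Adj x y) (hT : T.IsTree)
    (hc : T.edgeSet.ncard = 2 * J.edgeSet.ncard) (C : Finset (J.edgeSet ⊕ T.edgeSet))
    (hC : C.card = Fintype.card J.edgeSet)
    (h : ∀ x, (∀ i ∈ C, both (lf T J) i x = 0) → x = 0) :
    ((T ⊔ J).deleteEdges (em T J '' (C : Set (J.edgeSet ⊕ T.edgeSet)))).IsTree := by
  classical
  have hcon := connIn_univ hT.connected
  set D : Set (Sym2 α) := em T J '' (C : Set (J.edgeSet ⊕ T.edgeSet)) with hD
  have hDG : D ⊆ (T ⊔ J).edgeSet := by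
    rintro _ ⟨i, -, rfl⟩
    exact em_mem i
  have hJ : Fintype.card J.edgeSet = J.edgeSet.ncard := by
    rw [← Nat.card_eq_fintype_card, Nat.card_coe_set_eq]
  have hDc : D.ncard = J.edgeSet.ncard := by
    rw [hD, Set.ncard_image_of_injective _ (em_inj hd), Set.ncard_coe_finset, hC, hJ]
  have hdis : Disjoint T.edgeSet J.edgeSet := by
    rw [Set.disjoint_left]
    intro e he he'
    induction e with
    | h a b => exact hd a b he he'
  have hGc : (T ⊔ J).edgeSet.ncard = T.edgeSet.ncard + J.edgeSet.ncard := by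
    rw [SimpleGraph.edgeSet_sup]
    exact Set.ncard_union_eq hdis (Set.toFinite _) (Set.toFinite _)
  have hcard : ((T ⊔ J).deleteEdges D).edgeSet.ncard + D.ncard = (T ⊔ J).edgeSet.ncard := by
    rw [SimpleGraph.edgeSet_deleteEdges]
    exact Set.ncard_sdiff_add_ncard_of_subset hDG (Set.toFinite _)
  have htc := tree_card hT
  rw [SimpleGraph.isTree_iff_connected_and_card]
  refine ⟨?_, ?_⟩
  · have hne : Nonempty α := hT.connected.nonempty
    refine (SimpleGraph.connected_iff _).2 ⟨?_, hne⟩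
    intro u w
    by_contra huw
    set G' := (T ⊔ J).deleteEdges D with hG'
    set P : Finset α := univ.filter fun y => G'.Reachable u y with hP
    have hu : u ∈ P := mem_filter.2 ⟨mem_univ _, SimpleGraph.Reachable.refl u⟩
    have hw : w ∉ P := fun h1 => huw (mem_filter.1 h1).2
    have hcross : ∀ a ∈ P, ∀ b ∉ P, (T ⊔ J).Adj a b → s(a, b) ∈ D := by
      intro a ha b hb hab
      by_contra hDn
      have h1 : G'.Adj a b := by
        rw [hG', SimpleGraph.deleteEdges_adj]
        exact ⟨hab, hDn⟩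
      exact hb (mem_filter.2 ⟨mem_univ _, (mem_filter.1 ha).2.trans h1.reachable⟩)
    obtain ⟨a0, ha0, b0, -, hb0, hab0⟩ := hcon.exists_adj (subset_univ P) hu (mem_univ w) hw
    have hab0' : (T ⊔ J).Adj a0 b0 := Or.inl hab0
    obtain ⟨i0, hi0, he0⟩ := hcross a0 ha0 b0 hb0 hab0'
    obtain ⟨x, hx⟩ := exists_values (both (lf T J)) C (by
      rw [hC, finrank_fintype_fun_eq_card]) h fun i => if i = i0 then 1 else 0
    have symm : ∀ p q, fl T (anti J x) q p = -fl T (anti J x) p q :=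
      fun p q => fl_symm hT.isAcyclic hcon (anti_symm x) p q
    have hval : ∀ a b, fl T (anti J x) (fst s(a, b)) (snd s(a, b)) = 0 →
        fl T (anti J x) a b = 0 := by
      intro a b hab
      rcases out_or a b with ⟨h1, h2⟩ | ⟨h1, h2⟩
      · rw [h1, h2] at hab
        exact hab
      · rw [h1, h2] at hab
        rw [symm b a, hab, neg_zero]
    have hsum : ∑ a ∈ P, ∑ b ∈ Pᶜ, fl T (anti J x) a b = 0 := by
      have h1 : ∑ a ∈ P, ∑ b, fl T (anti J x) a b = 0 :=
        sum_eq_zero fun a _ => fl_div hT.isAcyclic hcon (anti_symm x) a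
      have h2 : ∑ a ∈ P, ∑ b, fl T (anti J x) a b = ∑ a ∈ P, ∑ b ∈ P, fl T (anti J x) a b +
          ∑ a ∈ P, ∑ b ∈ Pᶜ, fl T (anti J x) a b := by
        rw [← sum_add_distrib]
        exact sum_congr rfl fun a _ => (sum_add_sum_compl P _).symm
      rw [h2, sum_square symm, zero_add] at h1
      exact h1
    have hother : ∀ a ∈ P, ∀ b ∈ Pᶜ, ¬ (a = a0 ∧ b = b0) → fl T (anti J x) a b = 0 := by
      intro a ha b hb hne
      by_cases hab : (T ⊔ J).Adj a b
      · obtain ⟨i, hi, he⟩ := hcross a ha b (mem_compl.1 hb) hab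
        have h1 := hx i (mem_coe.1 hi)
        rw [both_eq hd, he, if_neg] at h1
        · exact hval a b h1
        · intro hii
          rw [hii, he0, Sym2.eq_iff] at he
          rcases he with ⟨h2, h3⟩ | ⟨h2, h3⟩
          · exact hne ⟨h2.symm, h3.symm⟩
          · exact (mem_compl.1 hb) (h2 ▸ ha0)
      · exact fl_supp x hab
    have h0 : fl T (anti J x) a0 b0 = 0 := by
      rw [sum_eq_single_of_mem a0 ha0, sum_eq_single_of_mem b0 (mem_compl.2 hb0)] at hsum
      · exact hsum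
      · intro b hb hne
        exact hother a0 ha0 b hb fun h1 => hne h1.2
      · intro a ha hne
        exact sum_eq_zero fun b hb => hother a ha b hb fun h1 => hne h1.1
    have h1 := hx i0 (mem_coe.1 hi0)
    rw [both_eq hd, he0, if_pos rfl] at h1
    rcases out_or a0 b0 with ⟨h2, h3⟩ | ⟨h2, h3⟩
    · rw [h2, h3, h0] at h1
      exact absurd h1 (by decide)
    · rw [h2, h3, symm a0 b0, h0] at h1
      exact absurd h1 (by decide)
  · rw [Nat.card_coe_set_eq, Nat.card_eq_fintype_card]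
    omega

/-- **all groups** -/
theorem avoid_all [Fintype T.edgeSet] [Fintype J.edgeSet] [DecidableEq J.edgeSet]
    [DecidableEq T.edgeSet]
    (hd : ∀ x y, T.Adj x y → ¬ J.Adj x y) (hT : T.IsTree)
    (hc : T.edgeSet.ncard = 2 * J.edgeSet.ncard) (I : Finset (J.edgeSet ⊕ T.edgeSet))
    (hI : I.card = 2 * Fintype.card J.edgeSet) (hne : ∑ x, ∏ i ∈ I, both (lf T J) i x ≠ 0)
    {B : Set (Sym2 α)} (hB : (T ⊔ J).edgeSet \ B ⊆ em T J '' (I : Set (J.edgeSet ⊕ T.edgeSet)))
    (Γ : Type*) [AddCommGroup Γ] (h3 : ∃ a b : Γ, a ≠ 0 ∧ b ≠ 0 ∧ a ≠ b) :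
    Avoids Γ (T ⊔ J) B := by
  classical
  have hcon := connIn_univ hT.connected
  obtain ⟨a, b, ha, hb, hab⟩ := h3
  by_cases hex : ∃ c : Γ, c ≠ 0 ∧ c ≠ a ∧ c ≠ -a
  · obtain ⟨c, hc0, hc1, hc2⟩ := hex
    obtain ⟨C, hC, c1, c2, c3, c4⟩ := two_bases (both (lf T J)) I
      (by rw [hI, finrank_fintype_fun_eq_card]) hne
    rw [finrank_fintype_fun_eq_card] at c1 c2
    have t1 := tree_of_basis hd hT hc C c1 c3
    have t2 := tree_of_basis hd hT hc (I \ C) c2 c4
    intro f hf
    have hsub : ∀ S : Finset (J.edgeSet ⊕ T.edgeSet),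
        em T J '' (S : Set (J.edgeSet ⊕ T.edgeSet)) ⊆ (T ⊔ J).edgeSet := by
      rintro S _ ⟨i, -, rfl⟩
      exact em_mem i
    obtain ⟨φ, h1, h2, h4, h5⟩ := avoid_of_trees (hsub C) (hsub (I \ C)) t1 t2 ha hc0 hc1 hc2 f hf
    refine ⟨φ, h1, h2, h4, ?_⟩
    intro x y hxy hxB
    apply h5
    rw [← Set.image_union, ← coe_union, union_sdiff_of_subset hC]
    exact hB ⟨hxy, hxB⟩
  · have hall : ∀ c : Γ, c = 0 ∨ c = a ∨ c = -a := by
      intro c
      by_contra hcon
      rw [not_or, not_or] at hcon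
      exact hex ⟨c, hcon⟩
    have hba : b = -a := by
      rcases hall b with h1 | h1 | h1
      · exact absurd h1 hb
      · exact absurd h1.symm hab
      · exact h1
    obtain ⟨g⟩ := equiv_three ha (hba ▸ hab) hall
    refine Avoids.of_equiv g ?_
    intro f hf
    obtain ⟨x, hx⟩ := exists_avoid (both (lf T J)) I hI.le hne
      fun i => f (fst (em T J i)) (snd (em T J i))
    refine ⟨fl T (anti J x), fun p q => fl_symm hT.isAcyclic hcon (anti_symm x) p q,
      fun p q hpq => fl_supp x hpq, fun p => fl_div hT.isAcyclic hcon (anti_symm x) p, ?_⟩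
    intro p q hpq hpB
    obtain ⟨i, hi, hie⟩ := hB ⟨hpq, hpB⟩
    have h1 := hx i (mem_coe.1 hi)
    rw [both_eq hd, hie] at h1
    exact ne_of_out (fun p q => fl_symm hT.isAcyclic hcon (anti_symm x) p q) hf h1

/-- **the core theorem** for all groups -/
theorem core_all (hd : ∀ x y, T.Adj x y → ¬ J.Adj x y) (hT : T.IsTree)
    (hc : T.edgeSet.ncard = 2 * J.edgeSet.ncard)
    (hclu : Clu (gw (T ⊔ J) J.edgeSet) univ) :
    ∃ A : Set (Sym2 α), A ⊆ T.edgeSet ∧ A.ncard = J.edgeSet.ncard ∧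
        (T.edgeSet \ A).ncard = J.edgeSet.ncard ∧
      ∀ (Γ : Type*) [AddCommGroup Γ], (∃ a b : Γ, a ≠ 0 ∧ b ≠ 0 ∧ a ≠ b) →
        Avoids Γ (T ⊔ J) J.edgeSet ∧ Avoids Γ (T ⊔ J) A ∧ Avoids Γ (T ⊔ J) (T.edgeSet \ A) := by
  classical
  have hsum := sum_lf_ne_zero hd hT hc hclu
  have hJ : Fintype.card J.edgeSet = J.edgeSet.ncard := by
    rw [← Nat.card_eq_fintype_card, Nat.card_coe_set_eq]
  have hTc : Fintype.card T.edgeSet = T.edgeSet.ncard := by
    rw [← Nat.card_eq_fintype_card, Nat.card_coe_set_eq]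
  obtain ⟨A, hA1, hA2, h1, h2⟩ := exists_split_sig (lf T J) (by rw [hJ, hTc, hc]) hsum
  rw [sig_eq] at h1 h2
  rw [compl_compl] at h2
  set S : Set (Sym2 α) := Subtype.val '' (A : Set T.edgeSet) with hS
  have hsub : S ⊆ T.edgeSet := by
    rintro e ⟨e', -, rfl⟩
    exact e'.2
  have hScard : S.ncard = J.edgeSet.ncard := by
    rw [hS, Set.ncard_image_of_injective _ Subtype.val_injective, Set.ncard_coe_finset, hA1, hJ]
  refine ⟨S, hsub, hScard, ?_, ?_⟩
  · rw [Set.ncard_sdiff hsub (Set.toFinite _), hScard, hc]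
    omega
  intro Γ _ h3
  refine ⟨?_, ?_, ?_⟩
  · refine avoid_all hd hT hc ((∅ : Finset J.edgeSet).disjSum univ) ?_ ?_ ?_ Γ h3
    · rw [card_disjSum, card_empty, zero_add, card_univ, hJ, hTc, hc]
    · simp only [prod_disjSum, prod_empty, one_mul]
      exact hsum
    · rintro e ⟨he, heB⟩
      rw [SimpleGraph.edgeSet_sup] at he
      rcases he with he | he
      · exact ⟨Sum.inr ⟨e, he⟩, mem_coe.2 (inr_mem_disjSum.2 (mem_univ _)), rfl⟩
      · exact absurd he heB
  · refine avoid_all hd hT hc _ ?_ h1 ?_ Γ h3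
    · rw [card_disjSum, card_univ, hA2]
      omega
    · rintro e ⟨he, heB⟩
      rw [SimpleGraph.edgeSet_sup] at he
      rcases he with he | he
      · refine ⟨Sum.inr ⟨e, he⟩, mem_coe.2 (inr_mem_disjSum.2 (mem_compl.2 fun h4 => ?_)), rfl⟩
        exact heB ⟨⟨e, he⟩, mem_coe.2 h4, rfl⟩
      · exact ⟨Sum.inl ⟨e, he⟩, mem_coe.2 (inl_mem_disjSum.2 (mem_univ _)), rfl⟩
  · refine avoid_all hd hT hc _ ?_ h2 ?_ Γ h3
    · rw [card_disjSum, card_univ, hA1]
      omega
    · rintro e ⟨he, heB⟩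
      rw [SimpleGraph.edgeSet_sup] at he
      rcases he with he | he
      · refine ⟨Sum.inr ⟨e, he⟩, mem_coe.2 (inr_mem_disjSum.2 ?_), rfl⟩
        by_contra h4
        apply heB
        refine ⟨he, ?_⟩
        rintro ⟨e', he', h5⟩
        exact h4 ((Subtype.ext h5 : e' = ⟨e, he⟩) ▸ (mem_coe.1 he'))
      · exact ⟨Sum.inl ⟨e, he⟩, mem_coe.2 (inl_mem_disjSum.2 (mem_univ _)), rfl⟩

end

end TB
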