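import Pool.Agent.Lib.MP_80160f_co.Clu

/-!
# MP_80160f_co : k-bases, and a sufficient condition for 2-bases
-/

set_option autoImplicit false
set_option linter.unusedSectionVars false

namespace TB

open Finset

variable {α : Type*}

/-- `R` is closed for `k` : every cycle with an edge outside of `R` has at least `k + 1` such edges -/
def KClosed (G : SimpleGraph α) (k : ℕ) (R : Set (Sym2 α)) : Prop :=
  ∀ (u : α) (C : G.Walk u u), C.IsCycle → {e | e ∈ C.edges ∧ e ∉ R}.Nonempty →
    k + 1 ≤ {e | e ∈ C.edges ∧ e ∉ R}.ncard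

/-- the `k`-closure of the set `S` of edges: the smallest closed set of edges containing `S` -/
def kClosure (G : SimpleGraph α) (k : ℕ) (S : Set (Sym2 α)) : Set (Sym2 α) :=
  ⋂₀ {R | S ⊆ R ∧ R ⊆ G.edgeSet ∧ KClosed G k R}

/-- `S` is a `k`-base -/
def IsKBase (G : SimpleGraph α) (k : ℕ) (S : Set (Sym2 α)) : Prop :=
  S ⊆ G.edgeSet ∧ kClosure G k S = G.edgeSet

theorem isKBase_iff {G : SimpleGraph α} {k : ℕ} {S : Set (Sym2 α)} (hS : S ⊆ G.edgeSet) :
    IsKBase G k S ↔ ∀ R, S ⊆ R → R ⊆ G.edgeSet → KClosed G k R → R = G.edgeSet := by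
  constructor
  · rintro ⟨-, h⟩ R h1 h2 h3
    refine Set.Subset.antisymm h2 ?_
    rw [← h]
    exact Set.sInter_subset_of_mem ⟨h1, h2, h3⟩
  · intro h
    refine ⟨hS, Set.Subset.antisymm ?_ ?_⟩
    · apply Set.sInter_subset_of_mem
      refine ⟨hS, Set.Subset.rfl, ?_⟩
      intro u C _ hne
      obtain ⟨e, he, he2⟩ := hne
      exact absurd (C.edges_subset_edgeSet he) he2
    · apply Set.subset_sInter
      rintro R ⟨h1, h2, h3⟩
      rw [h R h1 h2 h3]

/-- the closure itself is closed -/
theorem kClosure_closed (G : SimpleGraph α) (k : ℕ) (S : Set (Sym2 α)) :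
    KClosed G k (kClosure G k S) := by
  intro u C hC hne
  obtain ⟨e, he, he2⟩ := hne
  have he2' : ¬ ∀ R ∈ {R | S ⊆ R ∧ R ⊆ G.edgeSet ∧ KClosed G k R}, e ∈ R := he2
  simp only [not_forall] at he2'
  obtain ⟨R, hR, heR⟩ := he2'
  refine (hR.2.2 u C hC ⟨e, he, heR⟩).trans ?_
  apply Set.ncard_le_ncard
  · rintro f ⟨hf, hf2⟩
    exact ⟨hf, fun h => hf2 (h R hR)⟩
  · exact (C.edges.finite_toSet).subset fun f hf => hf.1

variable [DecidableEq α]

/-- the graph inside of a set -/
def inG (G : SimpleGraph α) (U : Finset α) : SimpleGraph α where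
  Adj x y := G.Adj x y ∧ x ∈ U ∧ y ∈ U
  symm := ⟨fun _ _ h => ⟨h.1.symm, h.2.2, h.2.1⟩⟩
  loopless := ⟨fun _ h => G.loopless.irrefl _ h.1⟩

theorem inG_le (G : SimpleGraph α) (U : Finset α) : inG G U ≤ G := fun _ _ h => h.1

theorem inG_mono (G : SimpleGraph α) {U U' : Finset α} (h : U ⊆ U') : inG G U ≤ inG G U' :=
  fun _ _ h1 => ⟨h1.1, h h1.2.1, h h1.2.2⟩

/-- every two vertices of the set are joined inside of the set -/
def ConnIn (G : SimpleGraph α) (U : Finset α) : Prop :=
  ∀ x ∈ U, ∀ y ∈ U, (inG G U).Reachable x y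

theorem ConnIn.union {G : SimpleGraph α} {A B : Finset α} (hA : ConnIn G A) (hB : ConnIn G B)
    {a b : α} (ha : a ∈ A) (hb : b ∈ B) (hab : G.Adj a b) : ConnIn G (A ∪ B) := by
  have h1 : ∀ x ∈ A ∪ B, (inG G (A ∪ B)).Reachable a x := by
    intro x hx
    rcases mem_union.1 hx with hx | hx
    · exact (hA a ha x hx).mono (inG_mono G subset_union_left)
    · have h2 : (inG G (A ∪ B)).Adj a b := ⟨hab, mem_union_left _ ha, mem_union_right _ hb⟩
      exact h2.reachable.trans ((hB b hb x hx).mono (inG_mono G subset_union_right))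
  intro x hx y hy
  exact (h1 x hx).symm.trans (h1 y hy)

theorem walk_inG_support {G : SimpleGraph α} {U : Finset α} : ∀ {x y : α} (p : (inG G U).Walk x y),
    x ∈ U → ∀ z ∈ p.support, z ∈ U
  | _, _, .nil, hx, z, hz => by
    rw [SimpleGraph.Walk.support_nil, List.mem_singleton] at hz
    exact hz ▸ hx
  | _, _, .cons h p, hx, z, hz => by
    rw [SimpleGraph.Walk.support_cons, List.mem_cons] at hz
    rcases hz with rfl | hz
    · exact hx
    · exact walk_inG_support p h.2.2 z hz

/-- a path inside of the set -/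
theorem ConnIn.path {G : SimpleGraph α} {U : Finset α} (h : ConnIn G U) {x y : α} (hx : x ∈ U)
    (hy : y ∈ U) : ∃ p : G.Walk x y, p.IsPath ∧ ∀ z ∈ p.support, z ∈ U := by
  obtain ⟨p⟩ := h x hx y hy
  refine ⟨(p.toPath : (inG G U).Walk x y).mapLe (inG_le G U), ?_, ?_⟩
  · rw [SimpleGraph.Walk.isPath_mapLe]
    exact p.toPath.2
  · intro z hz
    rw [SimpleGraph.Walk.mapLe, SimpleGraph.Walk.support_map, List.mem_map] at hz
    obtain ⟨w, hw, rfl⟩ := hz
    exact walk_inG_support _ hx w hw

/-- a cycle through two edges between two connected sets -/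
theorem exists_cycle {G : SimpleGraph α} {A B : Finset α} (hA : ConnIn G A) (hB : ConnIn G B)
    (hd : Disjoint A B) {a a' b b' : α} (ha : a ∈ A) (ha' : a' ∈ A) (hb : b ∈ B) (hb' : b' ∈ B)
    (h : G.Adj a b) (h' : G.Adj a' b') (hne : ¬ (a = a' ∧ b = b')) :
    ∃ C : G.Walk a a, C.IsCycle ∧ s(a, b) ∈ C.edges ∧
      ∀ e ∈ C.edges, e = s(a, b) ∨ e = s(a', b') ∨ (∃ x ∈ A, ∃ y ∈ A, e = s(x, y)) ∨
        (∃ x ∈ B, ∃ y ∈ B, e = s(x, y)) := by
  obtain ⟨p, hp, hpB⟩ := hB.path hb hb'
  obtain ⟨q, hq, hqA⟩ := hA.path ha' ha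
  have hdis : ∀ x, x ∈ A → x ∈ B → False := fun x h1 h2 => Finset.disjoint_left.1 hd h1 h2
  set r : G.Walk b a := p.append (.cons h'.symm q) with hr
  have edgeIn : ∀ {u v : α} (w : G.Walk u v) (S : Finset α), (∀ z ∈ w.support, z ∈ S) →
      ∀ e ∈ w.edges, ∃ x ∈ S, ∃ y ∈ S, e = s(x, y) := by
    intro u v w S hS e he
    induction e with
    | h x y =>
      exact ⟨x, hS x (w.fst_mem_support_of_mem_edges he), y,
        hS y (w.snd_mem_support_of_mem_edges he), rfl⟩
  have hrp : r.IsPath := by
    rw [SimpleGraph.Walk.isPath_def, hr, SimpleGraph.Walk.support_append,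
      SimpleGraph.Walk.support_cons, List.tail_cons]
    rw [List.nodup_append]
    refine ⟨hp.support_nodup, hq.support_nodup, ?_⟩
    intro x hx y hy hxy
    exact hdis x (hxy ▸ hqA y hy) (hpB x hx)
  have hre : s(a, b) ∉ r.edges := by
    rw [hr, SimpleGraph.Walk.edges_append, SimpleGraph.Walk.edges_cons, List.mem_append,
      List.mem_cons]
    rintro (he | he | he)
    · obtain ⟨x, hx, y, hy, he⟩ := edgeIn p B hpB _ he
      rw [Sym2.eq_iff] at he
      rcases he with ⟨h1, -⟩ | ⟨h1, -⟩
      · exact hdis a ha (h1 ▸ hx)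
      · exact hdis a ha (h1 ▸ hy)
    · rw [Sym2.eq_iff] at he
      rcases he with ⟨h1, -⟩ | ⟨h1, h2⟩
      · exact hdis a ha (h1 ▸ hb')
      · exact hne ⟨h1, h2⟩
    · obtain ⟨x, hx, y, hy, he⟩ := edgeIn q A hqA _ he
      rw [Sym2.eq_iff] at he
      rcases he with ⟨-, h1⟩ | ⟨-, h1⟩
      · exact hdis b (h1 ▸ hy) hb
      · exact hdis b (h1 ▸ hx) hb
  refine ⟨.cons h r, (SimpleGraph.Walk.cons_isCycle_iff r h).2 ⟨hrp, hre⟩, ?_, ?_⟩
  · rw [SimpleGraph.Walk.edges_cons]
    exact List.mem_cons_self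
  · intro e he
    rw [SimpleGraph.Walk.edges_cons, List.mem_cons] at he
    rcases he with he | he
    · exact Or.inl he
    · rw [hr, SimpleGraph.Walk.edges_append, SimpleGraph.Walk.edges_cons, List.mem_append,
        List.mem_cons] at he
      rcases he with he | he | he
      · exact Or.inr (Or.inr (Or.inr (edgeIn p B hpB e he)))
      · exact Or.inr (Or.inl (by rw [he]; exact Sym2.eq_swap))
      · exact Or.inr (Or.inr (Or.inl (edgeIn q A hqA e he)))

/-- the weights of the edges: one, and one more for the edges of the set `A` -/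
noncomputable def gw (G : SimpleGraph α) (A : Set (Sym2 α)) (x y : α) : ℕ := by
  classical
  exact if G.Adj x y then (if s(x, y) ∈ A then 2 else 1) else 0

theorem gw_pos {G : SimpleGraph α} {A : Set (Sym2 α)} {x y : α} (h : gw G A x y ≠ 0) :
    G.Adj x y := by
  unfold gw at h
  by_contra h1
  rw [if_neg h1] at h
  exact h rfl

/-- a cluster is connected, and all its edges are in every closed set -/
theorem clu_closed {G : SimpleGraph α} {A R : Set (Sym2 α)} (hAR : A ⊆ R) (hR : KClosed G 2 R)
    {U : Finset α} (h : Clu (gw G A) U) :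
    ConnIn G U ∧ ∀ x ∈ U, ∀ y ∈ U, G.Adj x y → s(x, y) ∈ R := by
  induction h with
  | single a =>
    constructor
    · intro x hx y hy
      rw [mem_singleton] at hx hy
      rw [hx, hy]
    · intro x hx y hy hxy
      rw [mem_singleton] at hx hy
      rw [hx, hy] at hxy
      exact absurd hxy (G.loopless.irrefl _)
  | merge B C _ _ hd hw ihB ihC =>
    obtain ⟨cB, eB⟩ := ihB
    obtain ⟨cC, eC⟩ := ihC
    have hpos : ∃ b ∈ B, ∃ c ∈ C, G.Adj b c := by
      by_contra hcon
      have h0 : wt (gw G A) B C = 0 := by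
        unfold wt
        refine sum_eq_zero fun b hb => sum_eq_zero fun c hc => ?_
        by_contra h1
        exact hcon ⟨b, hb, c, hc, gw_pos h1⟩
      omega
    obtain ⟨b0, hb0, c0, hc0, hbc0⟩ := hpos
    refine ⟨cB.union cC hb0 hc0 hbc0, ?_⟩
    -- the edges between the two sets
    have key : ∀ b ∈ B, ∀ c ∈ C, G.Adj b c → s(b, c) ∈ R := by
      intro b hb c hc hbc
      by_contra hnR
      -- another edge between the two sets
      have h2 : ∃ b' ∈ B, ∃ c' ∈ C, G.Adj b' c' ∧ ¬ (b = b' ∧ c = c') := by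
        by_contra hcon
        have h0 : wt (gw G A) B C = gw G A b c := by
          unfold wt
          rw [sum_eq_single_of_mem b hb, sum_eq_single_of_mem c hc]
          · intro c' hc' hne
            by_contra h1
            exact hcon ⟨b, hb, c', hc', gw_pos h1, fun h => hne h.2.symm⟩
          · intro b' hb' hne
            refine sum_eq_zero fun c' hc' => ?_
            by_contra h1
            exact hcon ⟨b', hb', c', hc', gw_pos h1, fun h => hne h.1.symm⟩
        have h1 : gw G A b c = 1 := by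
          unfold gw
          rw [if_pos hbc, if_neg (fun h => hnR (hAR h))]
        omega
      obtain ⟨b', hb', c', hc', hbc', hne⟩ := h2
      obtain ⟨Cy, hCy, hmem, hall⟩ := exists_cycle cB cC hd hb hb' hc hc' hbc hbc' hne
      have h3 := hR b Cy hCy ⟨s(b, c), hmem, hnR⟩
      have h4 : {e | e ∈ Cy.edges ∧ e ∉ R}.ncard ≤ ({s(b, c), s(b', c')} : Set (Sym2 α)).ncard := by
        apply Set.ncard_le_ncard
        · rintro e ⟨he, heR⟩
          rcases hall e he with h | h | ⟨x, hx, y, hy, h⟩ | ⟨x, hx, y, hy, h⟩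
          · exact Or.inl h
          · exact Or.inr h
          · exfalso
            apply heR
            rw [h]
            exact eB x hx y hy (by
              have := Cy.edges_subset_edgeSet he
              rw [h] at this
              exact this)
          · exfalso
            apply heR
            rw [h]
            exact eC x hx y hy (by
              have := Cy.edges_subset_edgeSet he
              rw [h] at this
              exact this)
        · exact Set.toFinite _
      have h5 : ({s(b, c), s(b', c')} : Set (Sym2 α)).ncard ≤ 2 := by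
        refine (Set.ncard_insert_le _ _).trans ?_
        rw [Set.ncard_singleton]
      omega
    intro x hx y hy hxy
    rcases mem_union.1 hx with hx | hx <;> rcases mem_union.1 hy with hy | hy
    · exact eB x hx y hy hxy
    · exact key x hx y hy hxy
    · rw [Sym2.eq_swap]
      exact key y hy x hx hxy.symm
    · exact eC x hx y hy hxy

/-- **a sufficient condition for a 2-base** -/
theorem isKBase_of_clu [Fintype α] {G : SimpleGraph α} {A : Set (Sym2 α)} (hA : A ⊆ G.edgeSet)
    (h : Clu (gw G A) univ) : IsKBase G 2 A := by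
  rw [isKBase_iff hA]
  intro R h1 h2 h3
  refine Set.Subset.antisymm h2 ?_
  intro e he
  induction e with
  | h x y => exact (clu_closed h1 h3 h).2 x (mem_univ _) y (mem_univ _) he

end TB
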