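import Mathlib

/-!
# MP_80160f_co : clusters

`Clu W U` : the set `U` can be collapsed to one cluster by merging two disjoint clusters joined by a
total weight of at least two.
-/

set_option autoImplicit false

namespace TB

open Finset

variable {α β : Type*} [DecidableEq α] [DecidableEq β]

/-- the weight between two sets -/
def wt (W : α → α → ℕ) (A B : Finset α) : ℕ := ∑ a ∈ A, ∑ b ∈ B, W a b

/-- the set can be collapsed by merges of weight at least two -/
inductive Clu (W : α → α → ℕ) : Finset α → Prop
  | single (a : α) : Clu W {a}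
  | merge (A B : Finset α) : Clu W A → Clu W B → Disjoint A B → 2 ≤ wt W A B → Clu W (A ∪ B)

omit [DecidableEq α] in
theorem wt_mono {W W' : α → α → ℕ} {A B : Finset α} (h : ∀ a ∈ A, ∀ b ∈ B, W a b ≤ W' a b) :
    wt W A B ≤ wt W' A B :=
  sum_le_sum fun a ha => sum_le_sum fun b hb => h a ha b hb

omit [DecidableEq α] in
theorem wt_comm {W : α → α → ℕ} (hW : ∀ a b, W a b = W b a) (A B : Finset α) :
    wt W A B = wt W B A := by
  unfold wt
  rw [sum_comm]
  exact sum_congr rfl fun b _ => sum_congr rfl fun a _ => hW a b

theorem wt_union_left (W : α → α → ℕ) {A A' : Finset α} (h : Disjoint A A') (B : Finset α) :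
    wt W (A ∪ A') B = wt W A B + wt W A' B := by
  unfold wt
  rw [sum_union h]

theorem wt_union_right (W : α → α → ℕ) (A : Finset α) {B B' : Finset α} (h : Disjoint B B') :
    wt W A (B ∪ B') = wt W A B + wt W A B' := by
  unfold wt
  rw [← sum_add_distrib]
  exact sum_congr rfl fun a _ => sum_union h

omit [DecidableEq α] in
theorem wt_sub {W : α → α → ℕ} {A A' B B' : Finset α} (hA : A ⊆ A') (hB : B ⊆ B') :
    wt W A B ≤ wt W A' B' := by
  unfold wt
  calc ∑ a ∈ A, ∑ b ∈ B, W a b ≤ ∑ a ∈ A, ∑ b ∈ B', W a b :=
        sum_le_sum fun a _ => sum_le_sum_of_subset hB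
    _ ≤ _ := sum_le_sum_of_subset hA

namespace Clu

theorem nonempty {W : α → α → ℕ} {U : Finset α} (h : Clu W U) : U.Nonempty := by
  induction h with
  | single a => exact singleton_nonempty a
  | merge A B _ _ _ _ ihA _ => exact ihA.mono subset_union_left

theorem mono {W W' : α → α → ℕ} {U : Finset α} (h : Clu W U)
    (hW : ∀ a ∈ U, ∀ b ∈ U, W a b ≤ W' a b) : Clu W' U := by
  induction h with
  | single a => exact single a
  | merge A B _ _ hd hw ihA ihB =>
    refine merge A B (ihA fun a ha b hb => hW a (subset_union_left ha) b (subset_union_left hb))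
      (ihB fun a ha b hb => hW a (subset_union_right ha) b (subset_union_right hb)) hd
      (hw.trans (wt_mono fun a ha b hb => hW a (subset_union_left ha) b (subset_union_right hb)))

/-- a union of two clusters -/
theorem union {W : α → α → ℕ} {A B U : Finset α} (hA : Clu W A) (hB : Clu W B)
    (hd : Disjoint A B) (hw : 2 ≤ wt W A B) (hU : A ∪ B = U) : Clu W U :=
  hU ▸ merge A B hA hB hd hw

/-- **expansion**: the vertices are replaced by clusters. `f a` is the cluster which replaces `a`. -/
theorem expand {W : β → β → ℕ} {W' : α → α → ℕ} (f : α → Finset β) {U : Finset α}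
    (h : Clu W' U) (hf : ∀ a ∈ U, Clu W (f a))
    (hd : ∀ a ∈ U, ∀ b ∈ U, a ≠ b → Disjoint (f a) (f b))
    (hw : ∀ a ∈ U, ∀ b ∈ U, a ≠ b → W' a b ≤ wt W (f a) (f b)) : Clu W (U.biUnion f) := by
  induction h with
  | single a =>
    rw [singleton_biUnion]
    exact hf a (mem_singleton_self a)
  | merge A B _ _ hAB h2 ihA ihB =>
    have hA := ihA (fun a ha => hf a (subset_union_left ha))
      (fun a ha b hb => hd a (subset_union_left ha) b (subset_union_left hb))
      (fun a ha b hb => hw a (subset_union_left ha) b (subset_union_left hb))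
    have hB := ihB (fun a ha => hf a (subset_union_right ha))
      (fun a ha b hb => hd a (subset_union_right ha) b (subset_union_right hb))
      (fun a ha b hb => hw a (subset_union_right ha) b (subset_union_right hb))
    have hne : ∀ a ∈ A, ∀ b ∈ B, a ≠ b := fun a ha b hb he =>
      (Finset.disjoint_left.1 hAB) ha (he ▸ hb)
    have hdis : Disjoint (A.biUnion f) (B.biUnion f) := by
      rw [disjoint_biUnion_left]
      intro a ha
      rw [disjoint_biUnion_right]
      intro b hb
      exact hd a (subset_union_left ha) b (subset_union_right hb) (hne a ha b hb)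
    have hAd : (A : Set α).PairwiseDisjoint f := fun a ha b hb hab =>
      hd a (subset_union_left (mem_coe.1 ha)) b (subset_union_left (mem_coe.1 hb)) hab
    have hBd : (B : Set α).PairwiseDisjoint f := fun a ha b hb hab =>
      hd a (subset_union_right (mem_coe.1 ha)) b (subset_union_right (mem_coe.1 hb)) hab
    refine union hA hB hdis ?_ (union_biUnion).symm
    have e : wt W (A.biUnion f) (B.biUnion f) = ∑ a ∈ A, ∑ b ∈ B, wt W (f a) (f b) := by
      unfold wt
      rw [sum_biUnion hAd]
      refine sum_congr rfl fun a _ => ?_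
      rw [sum_comm, sum_biUnion hBd]
      exact sum_congr rfl fun b _ => sum_comm
    rw [e]
    exact h2.trans (sum_le_sum fun a ha => sum_le_sum fun b hb =>
      hw a (subset_union_left ha) b (subset_union_right hb) (hne a ha b hb))

end Clu

end TB
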