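import Pool.Agent.Lib.MP_80160f_co.TreeFlow

/-!
# MP_80160f_co : the splitting of a spanning tree whose complement is a 2-base
-/

set_option autoImplicit false
set_option linter.unusedSectionVars false

namespace TB

open Finset

variable {α : Type*} [DecidableEq α] [Fintype α]

/-- `B` has the avoidance property: for all forbidden values there is a flow with values in the
group of order three which takes no forbidden value on the edges outside of `B` -/
def Avoid3 {β : Type*} [Fintype β] (G : SimpleGraph β) (B : Set (Sym2 β)) : Prop :=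
  ∀ f : β → β → ZMod 3, (∀ x y, f y x = -f x y) → ∃ φ : β → β → ZMod 3,
    (∀ x y, φ y x = -φ x y) ∧ (∀ x y, ¬ G.Adj x y → φ x y = 0) ∧ (∀ x, ∑ y, φ x y = 0) ∧
      ∀ x y, G.Adj x y → s(x, y) ∉ B → φ x y ≠ f x y

theorem sum_adj (J : SimpleGraph α) : ∑ x, ∑ y, ew J x y = 2 * J.edgeSet.ncard := by
  classical
  have h1 := J.sum_degrees_eq_twice_card_edges
  rw [Set.ncard_eq_toFinset_card' J.edgeSet]
  have h2 : J.edgeSet.toFinset = J.edgeFinset := rfl
  rw [h2, ← h1]
  refine sum_congr rfl fun x _ => ?_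
  rw [← J.card_neighborFinset_eq_degree, SimpleGraph.neighborFinset_eq_filter, card_filter]
  refine sum_congr rfl fun y _ => ?_
  by_cases h : J.Adj x y
  · rw [ew_adj h, if_pos h]
  · rw [ew_not h, if_neg h]

theorem tree_card {T : SimpleGraph α} (hT : T.IsTree) : T.edgeSet.ncard + 1 = Fintype.card α := by
  classical
  rw [← hT.card_edgeFinset, Set.ncard_eq_toFinset_card' T.edgeSet]
  rfl

theorem gw_sup {T J : SimpleGraph α} (hd : ∀ x y, T.Adj x y → ¬ J.Adj x y) (x y : α) :
    gw (T ⊔ J) J.edgeSet x y = ew T x y + 2 * ew J x y := by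
  unfold gw
  by_cases hT : T.Adj x y
  · have hJ := hd x y hT
    have h1 : (T ⊔ J).Adj x y := Or.inl hT
    have h2 : s(x, y) ∉ J.edgeSet := hJ
    rw [if_pos h1, if_neg h2, ew_adj hT, ew_not hJ]
  · by_cases hJ : J.Adj x y
    · have h1 : (T ⊔ J).Adj x y := Or.inr hJ
      have h2 : s(x, y) ∈ J.edgeSet := hJ
      rw [if_pos h1, if_pos h2, ew_not hT, ew_adj hJ]
    · have h1 : ¬ (T ⊔ J).Adj x y := fun h => h.elim hT hJ
      rw [if_neg h1, ew_not hT, ew_not hJ]

theorem gw_comm (G : SimpleGraph α) (A : Set (Sym2 α)) (x y : α) : gw G A x y = gw G A y x := by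
  unfold gw
  by_cases h : G.Adj x y
  · rw [if_pos h, if_pos h.symm, Sym2.eq_swap]
  · rw [if_neg h, if_neg fun h1 => h h1.symm]

theorem tight_univ {T J : SimpleGraph α} (hd : ∀ x y, T.Adj x y → ¬ J.Adj x y) (hT : T.IsTree)
    (hc : T.edgeSet.ncard = 2 * J.edgeSet.ncard) :
    wt (gw (T ⊔ J) J.edgeSet) univ univ + 4 ≤ 4 * (univ : Finset α).card := by
  have h1 : wt (gw (T ⊔ J) J.edgeSet) univ univ =
      2 * T.edgeSet.ncard + 2 * (2 * J.edgeSet.ncard) := by
    rw [← sum_adj T, ← sum_adj J]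
    unfold wt
    rw [mul_sum, ← sum_add_distrib]
    refine sum_congr rfl fun x _ => ?_
    rw [mul_sum, ← sum_add_distrib]
    exact sum_congr rfl fun y _ => gw_sup hd x y
  have h2 := tree_card hT
  rw [h1, card_univ]
  omega

theorem fl_supp {T J : SimpleGraph α} (x : J.edgeSet → ZMod 3) {a b : α}
    (h : ¬ (T ⊔ J).Adj a b) : fl T (anti J x) a b = 0 := by
  rw [fl_not _ fun h1 => h (Or.inl h1), anti_not _ fun h1 => h (Or.inr h1)]

/-- the forms of the tree edges -/
theorem sum_lf_ne_zero {T J : SimpleGraph α} [Fintype T.edgeSet] [Fintype J.edgeSet]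
    [DecidableEq J.edgeSet]
    (hd : ∀ x y, T.Adj x y → ¬ J.Adj x y) (hT : T.IsTree)
    (hc : T.edgeSet.ncard = 2 * J.edgeSet.ncard)
    (hclu : Clu (gw (T ⊔ J) J.edgeSet) univ) : ∑ x, ∏ t, lf T J t x ≠ 0 := by
  classical
  obtain ⟨c, c1, c2, c3⟩ := hclu.avoid (gw_comm _ _) (tight_univ hd hT hc)
  have hcon := connIn_univ hT.connected
  refine sum_ne_zero (lf T J) ?_ (fun t => c (fst (t : Sym2 α)) (snd (t : Sym2 α))) ?_ ?_
  · rw [← Nat.card_eq_fintype_card, ← Nat.card_eq_fintype_card, Nat.card_coe_set_eq,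
      Nat.card_coe_set_eq, hc]
  · intro t
    exact c2 _ (mem_univ _) _ (mem_univ _) (adj_out t).ne
  · intro x hx
    have hz := c3 (fl T (anti J x)) (fun p q => fl_symm hT.isAcyclic hcon (anti_symm x) p q) ?_
      (fun p _ => fl_div hT.isAcyclic hcon (anti_symm x) p) ?_
    · ext e
      have h1 := hz (fst (e : Sym2 α)) (mem_univ _) (snd (e : Sym2 α)) (mem_univ _)
      rw [fl_not _ fun h2 => hd _ _ h2 (adj_out e), anti_out] at h1
      rw [h1]
      rfl
    · intro a b hab
      apply fl_supp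
      intro h1
      unfold gw at hab
      rw [if_pos h1] at hab
      split_ifs at hab
    · intro a _ b _ hab
      have h1 : T.Adj a b := by
        by_contra h1
        rw [gw_sup hd, ew_not h1] at hab
        omega
      exact ne_of_out (fun p q => fl_symm hT.isAcyclic hcon (anti_symm x) p q) c1
        (hx ⟨s(a, b), h1⟩)

/-- **the core theorem** -/
theorem core {T J : SimpleGraph α} (hd : ∀ x y, T.Adj x y → ¬ J.Adj x y) (hT : T.IsTree)
    (hc : T.edgeSet.ncard = 2 * J.edgeSet.ncard)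
    (hclu : Clu (gw (T ⊔ J) J.edgeSet) univ) :
    ∃ A : Set (Sym2 α), A ⊆ T.edgeSet ∧ Avoid3 (T ⊔ J) J.edgeSet ∧ Avoid3 (T ⊔ J) A ∧
      Avoid3 (T ⊔ J) (T.edgeSet \ A) ∧ A.ncard = J.edgeSet.ncard ∧
        (T.edgeSet \ A).ncard = J.edgeSet.ncard := by
  classical
  have hcon := connIn_univ hT.connected
  have hsum := sum_lf_ne_zero hd hT hc hclu
  obtain ⟨A, hA1, hA2, h1, h2, h3⟩ := exists_split_forms (lf T J) (by
    rw [← Nat.card_eq_fintype_card, ← Nat.card_eq_fintype_card, Nat.card_coe_set_eq,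
      Nat.card_coe_set_eq, hc]) hsum
  have hJ : Fintype.card J.edgeSet = J.edgeSet.ncard := by
    rw [← Nat.card_eq_fintype_card, Nat.card_coe_set_eq]
  set S : Set (Sym2 α) := Subtype.val '' (A : Set T.edgeSet) with hS
  have hSA : ∀ (e : T.edgeSet), (e : Sym2 α) ∈ S ↔ e ∈ A := by
    intro e
    rw [hS, Set.mem_image]
    constructor
    · rintro ⟨e', he', h4⟩
      exact (Subtype.ext h4) ▸ (mem_coe.1 he')
    · intro h4
      exact ⟨e, mem_coe.2 h4, rfl⟩
  have hsub : S ⊆ T.edgeSet := by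
    rintro e ⟨e', -, rfl⟩
    exact e'.2
  have hScard : S.ncard = J.edgeSet.ncard := by
    rw [hS, Set.ncard_image_of_injective _ Subtype.val_injective, Set.ncard_coe_finset, hA1, hJ]
  have symm : ∀ (x : J.edgeSet → ZMod 3) (p q : α), fl T (anti J x) q p = -fl T (anti J x) p q :=
    fun x p q => fl_symm hT.isAcyclic hcon (anti_symm x) p q
  have div : ∀ (x : J.edgeSet → ZMod 3) (p : α), ∑ q, fl T (anti J x) p q = 0 :=
    fun x p => fl_div hT.isAcyclic hcon (anti_symm x) p
  -- the values on the edges outside of the tree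
  have hval : ∀ (x : J.edgeSet → ZMod 3) (f : α → α → ZMod 3), (∀ p q, f q p = -f p q) →
      (∀ k : J.edgeSet, x k ≠ f (fst (k : Sym2 α)) (snd (k : Sym2 α))) → ∀ a b, J.Adj a b →
      fl T (anti J x) a b ≠ f a b := by
    intro x f hf hx a b hab
    refine ne_of_out (symm x) hf ?_
    have h4 := hx ⟨s(a, b), hab⟩
    have h5 := adj_out (⟨s(a, b), hab⟩ : J.edgeSet)
    have h6 := anti_out x (⟨s(a, b), hab⟩ : J.edgeSet)
    rw [fl_not _ fun h7 => hd _ _ h7 h5, h6]
    exact h4
  refine ⟨S, hsub, ?_, ?_, ?_, hScard, ?_⟩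
  · intro f hf
    obtain ⟨x, hx⟩ := h1 fun t => f (fst (t : Sym2 α)) (snd (t : Sym2 α))
    refine ⟨fl T (anti J x), symm x, fun a b hab => fl_supp x hab, div x, ?_⟩
    intro a b hab hB
    rcases hab with hab | hab
    · exact ne_of_out (symm x) hf (hx ⟨s(a, b), hab⟩)
    · exact absurd hab hB
  · intro f hf
    obtain ⟨x, hx1, hx2⟩ := h2 (fun k => f (fst (k : Sym2 α)) (snd (k : Sym2 α)))
      (fun t => f (fst (t : Sym2 α)) (snd (t : Sym2 α)))
    refine ⟨fl T (anti J x), symm x, fun a b hab => fl_supp x hab, div x, ?_⟩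
    intro a b hab hB
    rcases hab with hab | hab
    · exact ne_of_out (symm x) hf (hx2 ⟨s(a, b), hab⟩ fun h4 => hB ((hSA ⟨s(a, b), hab⟩).2 h4))
    · exact hval x f hf hx1 a b hab
  · intro f hf
    obtain ⟨x, hx1, hx2⟩ := h3 (fun k => f (fst (k : Sym2 α)) (snd (k : Sym2 α)))
      (fun t => f (fst (t : Sym2 α)) (snd (t : Sym2 α)))
    refine ⟨fl T (anti J x), symm x, fun a b hab => fl_supp x hab, div x, ?_⟩
    intro a b hab hB
    rcases hab with hab | hab
    · refine ne_of_out (symm x) hf (hx2 ⟨s(a, b), hab⟩ ?_)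
      by_contra h4
      exact hB ⟨hab, fun h5 => h4 ((hSA ⟨s(a, b), hab⟩).1 h5)⟩
    · exact hval x f hf hx1 a b hab
  · rw [Set.ncard_sdiff hsub (Set.toFinite _), hScard, hc]
    omega

end TB
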