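import Pool.Agent.Lib.MP_80160f_co.Base

/-!
# MP_80160f_co : nonseparating ears in cubic 3-edge-connected graphs
-/

set_option autoImplicit false
set_option linter.unusedSectionVars false

namespace TB

open Finset

variable {V : Type*} [DecidableEq V]

/-- the number of edges between two vertices -/
noncomputable def ew (H : SimpleGraph V) (x y : V) : ℕ := by
  classical
  exact if H.Adj x y then 1 else 0

theorem ew_adj {H : SimpleGraph V} {x y : V} (h : H.Adj x y) : ew H x y = 1 := by
  unfold ew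
  rw [if_pos h]

theorem ew_not {H : SimpleGraph V} {x y : V} (h : ¬ H.Adj x y) : ew H x y = 0 := by
  unfold ew
  rw [if_neg h]

theorem ew_le (H : SimpleGraph V) (x y : V) : ew H x y ≤ 1 := by
  by_cases h : H.Adj x y
  · rw [ew_adj h]
  · rw [ew_not h]; omega

theorem ew_comm (H : SimpleGraph V) (x y : V) : ew H x y = ew H y x := by
  by_cases h : H.Adj x y
  · rw [ew_adj h, ew_adj h.symm]
  · rw [ew_not h, ew_not fun h1 => h h1.symm]

/-- the number of edges between two disjoint sets -/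
noncomputable def ec (H : SimpleGraph V) (A B : Finset V) : ℕ := wt (ew H) A B

theorem ec_pos {H : SimpleGraph V} {A B : Finset V} (h : 1 ≤ ec H A B) :
    ∃ a ∈ A, ∃ b ∈ B, H.Adj a b := by
  by_contra hcon
  have h0 : ec H A B = 0 := by
    unfold ec wt
    refine sum_eq_zero fun a ha => sum_eq_zero fun b hb => ?_
    exact ew_not fun h1 => hcon ⟨a, ha, b, hb, h1⟩
  omega

theorem ec_eq_zero {H : SimpleGraph V} {A B : Finset V} (h : ∀ a ∈ A, ∀ b ∈ B, ¬ H.Adj a b) :
    ec H A B = 0 := by
  unfold ec wt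
  exact sum_eq_zero fun a ha => sum_eq_zero fun b hb => ew_not (h a ha b hb)

theorem one_le_ec {H : SimpleGraph V} {A B : Finset V} {a b : V} (ha : a ∈ A) (hb : b ∈ B)
    (h : H.Adj a b) : 1 ≤ ec H A B := by
  have h1 : wt (ew H) {a} {b} ≤ wt (ew H) A B :=
    wt_sub (singleton_subset_iff.2 ha) (singleton_subset_iff.2 hb)
  have h2 : wt (ew H) {a} {b} = 1 := by
    unfold wt
    rw [sum_singleton, sum_singleton, ew_adj h]
  unfold ec
  omega

theorem ec_comm (H : SimpleGraph V) (A B : Finset V) : ec H A B = ec H B A :=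
  wt_comm (ew_comm H) A B

theorem ec_union_left (H : SimpleGraph V) {A A' : Finset V} (h : Disjoint A A') (B : Finset V) :
    ec H (A ∪ A') B = ec H A B + ec H A' B := wt_union_left _ h B

theorem ec_union_right (H : SimpleGraph V) (A : Finset V) {B B' : Finset V} (h : Disjoint B B') :
    ec H A (B ∪ B') = ec H A B + ec H A B' := wt_union_right _ A h

theorem ec_mono (H : SimpleGraph V) {A A' B B' : Finset V} (hA : A ⊆ A') (hB : B ⊆ B') :
    ec H A B ≤ ec H A' B' := wt_sub hA hB

theorem ec_insert_left (H : SimpleGraph V) {a : V} {A : Finset V} (h : a ∉ A) (B : Finset V) :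
    ec H (insert a A) B = ec H {a} B + ec H A B := by
  rw [insert_eq, ec_union_left H (disjoint_singleton_left.2 h)]

/-! ### Components -/

/-- the vertices of `S` which are joined to `x` inside of `S` -/
noncomputable def comp (H : SimpleGraph V) (S : Finset V) (x : V) : Finset V := by
  classical
  exact S.filter fun y => (inG H S).Reachable x y

theorem mem_comp {H : SimpleGraph V} {S : Finset V} {x y : V} :
    y ∈ comp H S x ↔ y ∈ S ∧ (inG H S).Reachable x y := by
  classical
  unfold comp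
  exact mem_filter

theorem comp_sub (H : SimpleGraph V) (S : Finset V) (x : V) : comp H S x ⊆ S :=
  fun _ h => (mem_comp.1 h).1

theorem self_mem_comp {H : SimpleGraph V} {S : Finset V} {x : V} (hx : x ∈ S) :
    x ∈ comp H S x := mem_comp.2 ⟨hx, SimpleGraph.Reachable.refl x⟩

/-- an edge inside of `S` does not leave the component -/
theorem comp_adj {H : SimpleGraph V} {S : Finset V} {x y z : V} (hy : y ∈ comp H S x)
    (hz : z ∈ S) (h : H.Adj y z) : z ∈ comp H S x := by
  rw [mem_comp] at hy ⊢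
  have h1 : (inG H S).Adj y z := ⟨h, hy.1, hz⟩
  exact ⟨hz, hy.2.trans h1.reachable⟩

theorem reach_in {H : SimpleGraph V} {S T : Finset V} {x y : V} (p : (inG H S).Walk x y)
    (hx : x ∈ T) (hT : ∀ a ∈ T, ∀ b ∈ S, H.Adj a b → b ∈ T) : (inG H T).Reachable x y := by
  induction p with
  | nil => exact SimpleGraph.Reachable.refl _
  | cons h p ih =>
    have h1 := hT _ hx _ h.2.2 h.1
    have h2 : (inG H T).Adj _ _ := ⟨h.1, hx, h1⟩
    exact h2.reachable.trans (ih h1)

theorem comp_conn (H : SimpleGraph V) (S : Finset V) (x : V) : ConnIn H (comp H S x) := by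
  intro y hy z hz
  have hy' := mem_comp.1 hy
  have hz' := mem_comp.1 hz
  obtain ⟨p⟩ := hy'.2.symm.trans hz'.2
  exact reach_in p hy fun a ha b hb hab => comp_adj ha hb hab

/-- a connected subset of `S` which meets the component is contained in it -/
theorem ConnIn.sub_comp {H : SimpleGraph V} {S D : Finset V} {x y : V} (hD : ConnIn H D)
    (hDS : D ⊆ S) (hy : y ∈ D) (hyx : y ∈ comp H S x) : D ⊆ comp H S x := by
  intro z hz
  have h1 := (hD y hy z hz).mono (inG_mono H hDS)
  rw [mem_comp] at hyx ⊢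
  exact ⟨hDS hz, hyx.2.trans h1⟩

theorem connIn_single (H : SimpleGraph V) (x : V) : ConnIn H {x} := by
  intro a ha b hb
  rw [mem_singleton] at ha hb
  rw [ha, hb]

/-- growing along an edge -/
theorem ConnIn.insert {H : SimpleGraph V} {A : Finset V} (hA : ConnIn H A) {a x : V} (ha : a ∈ A)
    (h : H.Adj a x) : ConnIn H (insert x A) := by
  have h1 := hA.union (connIn_single H x) ha (mem_singleton_self x) h
  rwa [union_comm, ← insert_eq] at h1

/-- in a connected set there is an edge between a part and the rest -/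
theorem ConnIn.exists_adj {H : SimpleGraph V} {S A : Finset V} (hS : ConnIn H S) (hA : A ⊆ S)
    {a b : V} (ha : a ∈ A) (hb : b ∈ S) (hbA : b ∉ A) :
    ∃ x ∈ A, ∃ y ∈ S, y ∉ A ∧ H.Adj x y := by
  by_contra hcon
  obtain ⟨p⟩ := hS a (hA ha) b hb
  have key : ∀ {x y : V} (p : (inG H S).Walk x y), x ∈ A → y ∈ A := by
    intro x y p
    induction p with
    | nil => exact id
    | cons h p ih =>
      intro hx
      apply ih
      by_contra h1
      exact hcon ⟨_, hx, _, h.2.2, h1, h.1⟩
  exact hbA (key p ha)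

/-- if all the neighbours of `p` in `S` are in one component of `S - p`, then this component is
all of `S - p` -/
theorem comp_erase {H : SimpleGraph V} {S : Finset V} {p q : V} (hS : ConnIn H S) (hp : p ∈ S)
    (hq : q ∈ S.erase p) (h : ∀ z ∈ S, H.Adj p z → z ∈ comp H (S.erase p) q) :
    comp H (S.erase p) q = S.erase p := by
  refine Subset.antisymm (comp_sub _ _ _) ?_
  intro z hz
  by_contra hcon
  -- `A` = the component together with `p`
  have hA : insert p (comp H (S.erase p) q) ⊆ S := by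
    intro x hx
    rcases mem_insert.1 hx with rfl | hx
    · exact hp
    · exact (mem_erase.1 (comp_sub _ _ _ hx)).2
  obtain ⟨x, hx, y, hy, hyA, hxy⟩ := hS.exists_adj hA (mem_insert_self p _)
    (mem_erase.1 hz).2 (by
      rw [mem_insert]
      rintro (h1 | h1)
      · exact (mem_erase.1 hz).1 h1
      · exact hcon h1)
  rw [mem_insert, not_or] at hyA
  rcases mem_insert.1 hx with rfl | hx
  · exact hyA.2 (h y hy hxy)
  · exact hyA.2 (comp_adj hx (mem_erase.2 ⟨hyA.1, hy⟩) hxy)

/-- the part of `S` outside of a component of `S \ C` is connected -/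
theorem sdiff_comp_conn {H : SimpleGraph V} {S C : Finset V} {q : V} (hS : ConnIn H S)
    (hC : ConnIn H C) (hCS : C ⊆ S) (hne : C.Nonempty) :
    ConnIn H (S \ comp H (S \ C) q) := by
  obtain ⟨c, hc⟩ := hne
  have hsub : C ⊆ S \ comp H (S \ C) q := by
    intro x hx
    rw [mem_sdiff]
    exact ⟨hCS hx, fun h1 => (mem_sdiff.1 (comp_sub _ _ _ h1)).2 hx⟩
  have key : ∀ {x y : V} (w : (inG H S).Walk x y), y = c → x ∈ S \ comp H (S \ C) q →
      (inG H (S \ comp H (S \ C) q)).Reachable x c := by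
    intro x y w
    induction w with
    | nil => intro h1 _; rw [h1]
    | @cons a b d h w ih =>
      intro hd ha
      by_cases hac : a ∈ C
      · exact (hC a hac c hc).mono (inG_mono H hsub)
      · have hb : b ∈ S \ comp H (S \ C) q := by
          rw [mem_sdiff]
          refine ⟨h.2.2, fun hb => ?_⟩
          exact (mem_sdiff.1 ha).2 (comp_adj hb (mem_sdiff.2 ⟨h.2.1, hac⟩) h.1.symm)
        have h1 : (inG H (S \ comp H (S \ C) q)).Adj a b := ⟨h.1, ha, hb⟩
        exact h1.reachable.trans (ih hd hb)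
  have hr : ∀ z ∈ S \ comp H (S \ C) q, (inG H (S \ comp H (S \ C) q)).Reachable z c := by
    intro z hz
    obtain ⟨w⟩ := hS z (mem_sdiff.1 hz).1 c (hCS hc)
    exact key w rfl hz
  intro x hx y hy
  exact (hr x hx).trans (hr y hy).symm

/-! ### The ear -/

/-- cubic and 3-edge-connected -/
structure Cubic3 [Fintype V] (H : SimpleGraph V) : Prop where
  deg : ∀ x, ∑ y, ew H x y = 3
  cut : ∀ A : Finset V, A.Nonempty → Aᶜ.Nonempty → 3 ≤ ec H A Aᶜ

section ear

variable [Fintype V] {H : SimpleGraph V}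

theorem ec_single (H : SimpleGraph V) (x : V) (B : Finset V) : ec H {x} B = ∑ y ∈ B, ew H x y := by
  unfold ec wt
  rw [sum_singleton]

theorem Cubic3.deg_split (h : Cubic3 H) {x : V} {A B C : Finset V} (hAB : Disjoint A B)
    (hC : Disjoint (A ∪ B) C) : ec H {x} A + ec H {x} B + ec H {x} C ≤ 3 := by
  rw [← ec_union_right H _ hAB, ← ec_union_right H _ hC, ← h.deg x, ec_single]
  exact sum_le_univ_sum_of_nonneg fun _ => Nat.zero_le _

theorem Cubic3.deg_eq (h : Cubic3 H) {x : V} {A B C : Finset V} (hAB : Disjoint A B)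
    (hC : Disjoint (A ∪ B) C) (hU : A ∪ B ∪ C = univ) :
    ec H {x} A + ec H {x} B + ec H {x} C = 3 := by
  rw [← ec_union_right H _ hAB, ← ec_union_right H _ hC, hU, ec_single]
  exact h.deg x

theorem Cubic3.deg_split2 (h : Cubic3 H) {x : V} {A B : Finset V} (hAB : Disjoint A B) :
    ec H {x} A + ec H {x} B ≤ 3 := by
  rw [← ec_union_right H _ hAB, ← h.deg x, ec_single]
  exact sum_le_univ_sum_of_nonneg fun _ => Nat.zero_le _

theorem ec_comp (H : SimpleGraph V) (S : Finset V) (q : V) :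
    ec H (comp H S q) (comp H S q)ᶜ = ec H (comp H S q) Sᶜ := by
  have h1 : (comp H S q)ᶜ = (S \ comp H S q) ∪ Sᶜ := by
    ext x
    simp only [mem_compl, mem_union, mem_sdiff]
    constructor
    · intro hx
      by_cases hxS : x ∈ S
      · exact Or.inl ⟨hxS, hx⟩
      · exact Or.inr hxS
    · rintro (hx | hx)
      · exact hx.2
      · exact fun h2 => hx (comp_sub _ _ _ h2)
  have h2 : Disjoint (S \ comp H S q) Sᶜ := by
    rw [Finset.disjoint_left]
    intro x hx hx'
    exact (mem_compl.1 hx') (mem_sdiff.1 hx).1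
  rw [h1, ec_union_right H _ h2, ec_eq_zero, zero_add]
  intro a ha b hb hab
  exact (mem_sdiff.1 hb).2 (comp_adj ha (mem_sdiff.1 hb).1 hab)

theorem Cubic3.cut_comp (h : Cubic3 H) {S : Finset V} {q : V} (hq : q ∈ S) (hS : Sᶜ.Nonempty) :
    3 ≤ ec H (comp H S q) Sᶜ := by
  rw [← ec_comp]
  refine h.cut _ ⟨q, self_mem_comp hq⟩ ?_
  obtain ⟨y, hy⟩ := hS
  exact ⟨y, mem_compl.2 fun h1 => (mem_compl.1 hy) (comp_sub _ _ _ h1)⟩

theorem compl_erase' {U : Finset V} {c : V} : (U.erase c)ᶜ = insert c Uᶜ := by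
  ext x
  simp only [mem_compl, mem_erase, mem_insert, not_and_or, not_not]

/-- the candidates for the rest -/
def Cand (H : SimpleGraph V) (U : Finset V) (c : V) (C : Finset V) : Prop :=
  c ∈ C ∧ C ⊆ U ∧ ConnIn H C ∧ ∃ P, P ⊆ U \ C ∧ ConnIn H P ∧ 2 ≤ ec H P Uᶜ

theorem cand_single (h : Cubic3 H) {U : Finset V} {c : V} (hc : c ∈ U) (hU : ConnIn H U)
    (hne : ∃ x ∈ U, x ≠ c) (hcv : ∃ y, y ∉ U ∧ H.Adj c y) : Cand H U c {c} := by
  obtain ⟨x, hx, hxc⟩ := hne
  obtain ⟨y, hy, hcy⟩ := hcv
  have hxe : x ∈ U.erase c := mem_erase.2 ⟨hxc, hx⟩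
  refine ⟨mem_singleton_self c, singleton_subset_iff.2 hc, connIn_single H c,
    comp H (U.erase c) x, ?_, comp_conn H _ _, ?_⟩
  · rw [sdiff_singleton_eq_erase]
    exact comp_sub _ _ _
  by_contra hlt
  have h1 := h.cut_comp hxe (⟨y, mem_compl.2 fun h1 => hy (mem_erase.1 h1).2⟩)
  rw [compl_erase', insert_eq, ec_union_right H _ (disjoint_singleton_left.2
    (by rw [mem_compl]; exact fun h => h hc))] at h1
  have hd : Disjoint (comp H (U.erase c) x) Uᶜ := by
    rw [Finset.disjoint_left]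
    intro z hz hz'
    exact (mem_compl.1 hz') (mem_erase.1 (comp_sub _ _ _ hz)).2
  have h2 := h.deg_split2 (x := c) hd
  have h3 : 1 ≤ ec H {c} Uᶜ := one_le_ec (mem_singleton_self c) (mem_compl.2 hy) hcy
  rw [ec_comm H _ {c}] at h1
  have h4 : ∀ z ∈ U, H.Adj c z → z ∈ comp H (U.erase c) x := by
    intro z hz hcz
    by_contra hzE
    have h5 : Disjoint (comp H (U.erase c) x ∪ Uᶜ) {z} := by
      rw [disjoint_singleton_right, mem_union, not_or]
      exact ⟨hzE, fun h6 => (mem_compl.1 h6) hz⟩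
    have h6 := h.deg_split (x := c) hd h5
    have h7 : 1 ≤ ec H {c} {z} := one_le_ec (mem_singleton_self c) (mem_singleton_self z) hcz
    omega
  have h5 := comp_erase hU hc hxe h4
  have h6 := h.cut U ⟨c, hc⟩ ⟨y, mem_compl.2 hy⟩
  have h7 : ec H U Uᶜ = ec H {c} Uᶜ + ec H (U.erase c) Uᶜ := by
    rw [← ec_insert_left H (notMem_erase c U), insert_erase hc]
  rw [← h5] at h7
  omega

theorem exists_cand_max (h : Cubic3 H) {U : Finset V} {c : V} (hc : c ∈ U) (hU : ConnIn H U)
    (hne : ∃ x ∈ U, x ≠ c) (hcv : ∃ y, y ∉ U ∧ H.Adj c y) :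
    ∃ C, Cand H U c C ∧ ∀ C', Cand H U c C' → C ⊆ C' → C' ⊆ C := by
  classical
  obtain ⟨C, hC, hmax⟩ := exists_max_image (U.powerset.filter (Cand H U c)) card
    ⟨{c}, mem_filter.2 ⟨mem_powerset.2 (singleton_subset_iff.2 hc),
      cand_single h hc hU hne hcv⟩⟩
  refine ⟨C, (mem_filter.1 hC).2, fun C' hC' hsub => ?_⟩
  have h1 := hmax C' (mem_filter.2 ⟨mem_powerset.2 hC'.2.1, hC'⟩)
  exact (eq_of_subset_of_card_le hsub h1).symm.subset

theorem sum_legs (H : SimpleGraph V) {M : Finset V} (f : V → Finset V) (B : Finset V)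
    (hd : ∀ a ∈ M, ∀ b ∈ M, a ≠ b → Disjoint (f a) (f b)) :
    ec H (M.biUnion f) B = ∑ a ∈ M, ec H (f a) B := by
  unfold ec wt
  rw [sum_biUnion]
  intro a ha b hb hab
  exact hd a (mem_coe.1 ha) b (mem_coe.1 hb) hab

/-- **the ear lemma** -/
theorem ear (h : Cubic3 H) {U : Finset V} {c : V} (hc : c ∈ U) (hU : ConnIn H U)
    (hne : ∃ x ∈ U, x ≠ c) (hcv : ∃ y, y ∉ U ∧ H.Adj c y) :
    ∃ Q : Finset V, Q ⊆ U.erase c ∧ Q.Nonempty ∧ ConnIn H Q ∧ ConnIn H (U \ Q) ∧
      2 ≤ ec H Q Uᶜ ∧ ∀ q ∈ Q, ec H {q} (U \ Q) = 1 := by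
  classical
  obtain ⟨C, ⟨hcC, hCU, hCc, P, hPC, hPc, hP2⟩, hmax⟩ := exists_cand_max h hc hU hne hcv
  obtain ⟨p0, hp0, -⟩ := ec_pos (le_trans (by omega) hP2)
  -- `Q` is connected
  have hQ0 : comp H (U \ C) p0 = U \ C := by
    refine Subset.antisymm (comp_sub _ _ _) ?_
    have h1 : P ⊆ comp H (U \ C) p0 := hPc.sub_comp hPC hp0 (self_mem_comp (hPC hp0))
    have h2 : Cand H U c (U \ comp H (U \ C) p0) := by
      refine ⟨mem_sdiff.2 ⟨hc, fun h2 => (mem_sdiff.1 (comp_sub _ _ _ h2)).2 hcC⟩, sdiff_subset,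
        sdiff_comp_conn hU hCc hCU ⟨c, hcC⟩, comp H (U \ C) p0, ?_, comp_conn H _ _,
        hP2.trans (ec_mono H h1 (Subset.refl _))⟩
      intro z hz
      rw [mem_sdiff, mem_sdiff, not_and, not_not]
      exact ⟨(mem_sdiff.1 (comp_sub _ _ _ hz)).1, fun _ => hz⟩
    have h3 := hmax _ h2 (by
      intro z hz
      rw [mem_sdiff]
      exact ⟨hCU hz, fun h3 => (mem_sdiff.1 (comp_sub _ _ _ h3)).2 hz⟩)
    intro z hz
    by_contra hcon
    exact (mem_sdiff.1 hz).2 (h3 (mem_sdiff.2 ⟨(mem_sdiff.1 hz).1, hcon⟩))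
  have hQc : ConnIn H (U \ C) := hQ0 ▸ comp_conn H (U \ C) p0
  have hQ2 : 2 ≤ ec H (U \ C) Uᶜ := hP2.trans (ec_mono H hPC (Subset.refl _))
  -- no large part avoids a vertex at `C`
  have hB : ∀ p ∈ U \ C, 1 ≤ ec H {p} C → ∀ P', P' ⊆ (U \ C).erase p → ConnIn H P' →
      ec H P' Uᶜ ≤ 1 := by
    intro p hp hpC P' hP' hP'c
    by_contra hlt
    obtain ⟨p', hp', a, ha, hpa⟩ := ec_pos hpC
    rw [mem_singleton] at hp'
    rw [hp'] at hpa
    have h1 : Cand H U c (insert p C) := by
      refine ⟨mem_insert_of_mem hcC, insert_subset (mem_sdiff.1 hp).1 hCU, hCc.insert ha hpa.symm,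
        P', ?_, hP'c, by omega⟩
      intro z hz
      have hz' := mem_erase.1 (hP' hz)
      rw [mem_sdiff, mem_insert, not_or]
      exact ⟨(mem_sdiff.1 hz'.2).1, hz'.1, (mem_sdiff.1 hz'.2).2⟩
    have h2 := hmax _ h1 (subset_insert _ _)
    exact (mem_sdiff.1 hp).2 (h2 (mem_insert_self p C))
  have hdQU : Disjoint (U \ C) Uᶜ := by
    rw [Finset.disjoint_left]
    intro z hz hz'
    exact (mem_compl.1 hz') (mem_sdiff.1 hz).1
  have hdCQ : Disjoint C (U \ C) := disjoint_sdiff
  have hdCU : Disjoint C Uᶜ := by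
    rw [Finset.disjoint_left]
    intro z hz hz'
    exact (mem_compl.1 hz') (hCU hz)
  -- the degrees
  have hdeg : ∀ x, ec H {x} C + ec H {x} (U \ C) + ec H {x} Uᶜ = 3 := by
    intro x
    refine h.deg_eq hdCQ ?_ ?_
    · rw [disjoint_union_left]
      exact ⟨hdCU, hdQU⟩
    · ext z
      simp only [mem_union, mem_sdiff, mem_compl, mem_univ, iff_true]
      by_cases h1 : z ∈ U
      · by_cases h2 : z ∈ C
        · exact Or.inl (Or.inl h2)
        · exact Or.inl (Or.inr ⟨h1, h2⟩)
      · exact Or.inr h1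
  have hsplit : ∀ p ∈ U \ C, ec H (U \ C) Uᶜ = ec H {p} Uᶜ + ec H ((U \ C).erase p) Uᶜ := by
    intro p hp
    rw [← ec_insert_left H (notMem_erase p _), insert_erase hp]
  -- at most one edge to `C`
  have hN1 : ∀ p ∈ U \ C, ec H {p} C ≤ 1 := by
    intro p hp
    by_contra hlt
    have h1 := hdeg p
    have h2 := hsplit p hp
    have hpQ : 1 ≤ ec H {p} (U \ C) := by
      by_contra h3
      have h4 : ∀ z ∈ U \ C, z = p := by
        intro z hz
        by_contra hzp
        obtain ⟨x, hx, y, hy, -, hxy⟩ := hQc.exists_adj (singleton_subset_iff.2 hp)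
          (mem_singleton_self p) hz (by rw [mem_singleton]; exact hzp)
        have := one_le_ec hx hy hxy
        omega
      have h5 : (U \ C).erase p = ∅ := by
        rw [eq_empty_iff_forall_notMem]
        intro z hz
        exact (mem_erase.1 hz).1 (h4 z (mem_erase.1 hz).2)
      rw [h5] at h2
      have h6 : ec H ∅ Uᶜ = 0 := by unfold ec wt; rw [sum_empty]
      omega
    obtain ⟨p', hp', q, hq, hpq⟩ := ec_pos hpQ
    rw [mem_singleton] at hp'
    rw [hp'] at hpq
    have hqe : q ∈ (U \ C).erase p := mem_erase.2 ⟨fun h3 => H.loopless.irrefl p (h3 ▸ hpq), hq⟩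
    have h3 : comp H ((U \ C).erase p) q = (U \ C).erase p := by
      apply comp_erase hQc hp hqe
      intro z hz hpz
      by_cases hzq : z = q
      · rw [hzq]
        exact self_mem_comp hqe
      · exfalso
        have h4 : ec H {p} {q} + ec H {p} {z} ≤ ec H {p} (U \ C) := by
          rw [← ec_union_right H _ (disjoint_singleton.2 (Ne.symm hzq))]
          exact ec_mono H (Subset.refl _) (union_subset (singleton_subset_iff.2 hq)
            (singleton_subset_iff.2 hz))
        have h5 := one_le_ec (mem_singleton_self p) (mem_singleton_self q) hpq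
        have h6 := one_le_ec (mem_singleton_self p) (mem_singleton_self z) hpz
        omega
    have h4 := hB p hp (by omega) ((U \ C).erase p) (Subset.refl _) (h3 ▸ comp_conn H _ _)
    omega
  -- every vertex of `Q` has an edge to `C`
  have hN : ∀ q ∈ U \ C, 1 ≤ ec H {q} C := by
    intro q hq
    by_contra hq0
    set S0 : Finset V := (U \ C).filter fun x => ec H {x} C = 0 with hS0
    set D : Finset V := comp H S0 q with hD
    set M : Finset V := (U \ C).filter fun x => 1 ≤ ec H {x} C ∧ 1 ≤ ec H {x} D with hM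
    have hqS : q ∈ S0 := mem_filter.2 ⟨hq, by omega⟩
    have hqD : q ∈ D := self_mem_comp hqS
    have hDQ : D ⊆ U \ C := fun z hz => (mem_filter.1 (comp_sub _ _ _ hz)).1
    have hDc : ConnIn H D := comp_conn H _ _
    have hD0 : ∀ z ∈ D, ec H {z} C = 0 := fun z hz => (mem_filter.1 (comp_sub _ _ _ hz)).2
    set E : V → Finset V := fun p => comp H ((U \ C).erase p) q with hE
    set O : V → Finset V := fun p => (U \ C) \ E p with hO
    have hMQ : ∀ p ∈ M, p ∈ U \ C ∧ 1 ≤ ec H {p} C ∧ 1 ≤ ec H {p} D := fun p hp =>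
      ⟨(mem_filter.1 hp).1, (mem_filter.1 hp).2⟩
    have hMD : ∀ p ∈ M, p ∉ D := by
      intro p hp hpD
      have h1 := hD0 p hpD
      have h2 := (hMQ p hp).2.1
      omega
    have hDe : ∀ p ∈ M, D ⊆ (U \ C).erase p := fun p hp z hz =>
      mem_erase.2 ⟨fun h1 => hMD p hp (h1 ▸ hz), hDQ hz⟩
    have hDE : ∀ p ∈ M, D ⊆ E p := fun p hp =>
      hDc.sub_comp (hDe p hp) hqD (self_mem_comp (hDe p hp hqD))
    have hEQ : ∀ p, E p ⊆ U \ C := fun p z hz => (mem_erase.1 (comp_sub _ _ _ hz)).2
    have hE1 : ∀ p ∈ M, ec H (E p) Uᶜ ≤ 1 := fun p hp =>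
      hB p (hMQ p hp).1 (hMQ p hp).2.1 (E p) (comp_sub _ _ _) (comp_conn H _ _)
    have hO1 : ∀ p ∈ M, 1 ≤ ec H (O p) Uᶜ := by
      intro p hp
      have h1 : ec H (U \ C) Uᶜ = ec H (O p) Uᶜ + ec H (E p) Uᶜ := by
        rw [← ec_union_left H sdiff_disjoint, sdiff_union_of_subset (hEQ p)]
      have h2 := hE1 p hp
      omega
    have hpE : ∀ p ∈ M, p ∉ E p := fun p _ h1 => (mem_erase.1 (comp_sub _ _ _ h1)).1 rfl
    have hpE' : ∀ p ∈ M, ∀ p' ∈ M, p ≠ p' → p' ∈ E p := by
      intro p hp p' hp' hne'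
      obtain ⟨p'', hp'', d, hd, hpd⟩ := ec_pos (hMQ p' hp').2.2
      rw [mem_singleton] at hp''
      rw [hp''] at hpd
      exact comp_adj (hDE p hp hd) (mem_erase.2 ⟨hne'.symm, (hMQ p' hp').1⟩) hpd.symm
    have hOE : ∀ p ∈ M, ∀ p' ∈ M, p ≠ p' → O p' ⊆ E p := by
      intro p hp p' hp' hne'
      have hc1 : ConnIn H (O p') := by
        have := sdiff_comp_conn (q := q) hQc (connIn_single H p')
          (singleton_subset_iff.2 (hMQ p' hp').1) ⟨p', mem_singleton_self p'⟩
        rwa [sdiff_singleton_eq_erase] at this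
      refine hc1.sub_comp ?_ (mem_sdiff.2 ⟨(hMQ p' hp').1, hpE p' hp'⟩) (hpE' p hp p' hp' hne')
      intro z hz
      refine mem_erase.2 ⟨fun h1 => ?_, (mem_sdiff.1 hz).1⟩
      rw [h1] at hz
      exact (mem_sdiff.1 hz).2 (hpE' p' hp' p hp hne'.symm)
    -- one edge between `D` and every vertex of `M`
    have hM1 : ∀ p ∈ M, ec H {p} D ≤ 1 := by
      intro p hp
      by_contra hlt
      have hpQ := (hMQ p hp).1
      have h1 := hdeg p
      have h2 := (hMQ p hp).2.1
      have h3 : ec H {p} (U \ C) = ec H {p} ((U \ C) \ D) + ec H {p} D := by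
        rw [← ec_union_right H _ sdiff_disjoint, sdiff_union_of_subset hDQ]
      have h4 : comp H ((U \ C).erase p) q = (U \ C).erase p := by
        refine comp_erase hQc hpQ (hDe p hp hqD) ?_
        intro z hz hpz
        apply hDE p hp
        by_contra hzD
        have := one_le_ec (B := (U \ C) \ D) (mem_singleton_self p)
          (mem_sdiff.2 ⟨hz, hzD⟩) hpz
        omega
      have h5 := hE1 p hp
      have h6 := hsplit p hpQ
      have h7 : ec H (E p) Uᶜ = ec H ((U \ C).erase p) Uᶜ := by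
        rw [hE]
        simp only [h4]
      omega
    -- the cut at `D`
    have hcut : 3 ≤ M.card + ec H D Uᶜ := by
      have h1 := h.cut_comp hqS ⟨c, by
        rw [mem_compl]
        exact fun h1 => (mem_sdiff.1 (mem_filter.1 h1).1).2 hcC⟩
      have h2 : S0ᶜ = (C ∪ ((U \ C) \ S0)) ∪ Uᶜ := by
        ext z
        simp only [hS0, mem_compl, mem_union, mem_sdiff, mem_filter]
        by_cases hzU : z ∈ U
        · by_cases hzC : z ∈ C
          · simp [hzU, hzC]
          · simp [hzU, hzC]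
        · simp [hzU]
      rw [h2, ec_union_right, ec_union_right] at h1
      · have h3 : ec H D C = 0 := by
          apply ec_eq_zero
          intro a ha b hb hab
          have h4 := hD0 a ha
          have h5 := one_le_ec (mem_singleton_self a) hb hab
          omega
        have h4 : ec H D ((U \ C) \ S0) ≤ M.card := by
          rw [ec_comm, card_eq_sum_ones]
          calc ec H ((U \ C) \ S0) D = ∑ x ∈ (U \ C) \ S0, ec H {x} D := by
                unfold ec wt
                exact sum_congr rfl fun x _ => by rw [sum_singleton]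
            _ ≤ ∑ x ∈ (U \ C) \ S0, if x ∈ M then 1 else 0 := by
                refine sum_le_sum fun x hx => ?_
                by_cases hxM : x ∈ M
                · rw [if_pos hxM]
                  exact hM1 x hxM
                · rw [if_neg hxM]
                  by_contra hlt
                  apply hxM
                  have h5 := (mem_sdiff.1 hx).2
                  refine mem_filter.2 ⟨(mem_sdiff.1 hx).1, ?_, by omega⟩
                  by_contra h6
                  exact h5 (mem_filter.2 ⟨(mem_sdiff.1 hx).1, by omega⟩)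
            _ ≤ ∑ x ∈ M, 1 := by
                rw [← sum_filter]
                apply sum_le_sum_of_subset
                intro x hx
                exact (mem_filter.1 hx).2
        have h5 : comp H S0 q = D := rfl
        rw [h5] at h1
        omega
      · rw [Finset.disjoint_left]
        intro z hz hz'
        exact (mem_sdiff.1 (mem_sdiff.1 hz').1).2 hz
      · rw [disjoint_union_left]
        exact ⟨hdCU, hdQU.mono_left sdiff_subset⟩
    -- `M` is not empty
    have hMne : M.Nonempty := by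
      obtain ⟨x, hx, y, hy, hyD, hxy⟩ := hU.exists_adj (hDQ.trans sdiff_subset) hqD hc
        (fun h1 => (mem_sdiff.1 (hDQ h1)).2 hcC)
      have hyC : y ∉ C := by
        intro h1
        have h2 := hD0 x hx
        have h3 := one_le_ec (mem_singleton_self x) h1 hxy
        omega
      refine ⟨y, mem_filter.2 ⟨mem_sdiff.2 ⟨hy, hyC⟩, ?_, one_le_ec (mem_singleton_self y) hx
        hxy.symm⟩⟩
      by_contra h1
      exact hyD (comp_adj hx (mem_filter.2 ⟨mem_sdiff.2 ⟨hy, hyC⟩, by omega⟩) hxy)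
    obtain ⟨p, hp⟩ := hMne
    have h1 : D ∪ (M.erase p).biUnion O ⊆ E p := by
      refine union_subset (hDE p hp) ?_
      rw [biUnion_subset]
      intro p' hp'
      exact hOE p hp p' (mem_erase.1 hp').2 (mem_erase.1 hp').1.symm
    have h2 : ec H (D ∪ (M.erase p).biUnion O) Uᶜ =
        ec H D Uᶜ + ∑ p' ∈ M.erase p, ec H (O p') Uᶜ := by
      rw [ec_union_left, sum_legs]
      · intro a ha b hb hab
        refine (disjoint_sdiff (s := E b)).mono_left ?_
        exact hOE b (mem_erase.1 hb).2 a (mem_erase.1 ha).2 hab.symm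
      · rw [disjoint_biUnion_right]
        intro p' hp'
        exact (disjoint_sdiff (s := E p')).mono_left (hDE p' (mem_erase.1 hp').2)
    have h3 : (M.erase p).card ≤ ∑ p' ∈ M.erase p, ec H (O p') Uᶜ := by
      rw [card_eq_sum_ones]
      exact sum_le_sum fun p' hp' => hO1 p' (mem_erase.1 hp').2
    have h4 := card_erase_of_mem hp
    have h5 := hE1 p hp
    have h6 := ec_mono H h1 (Subset.refl Uᶜ)
    omega
  refine ⟨U \ C, ?_, ⟨p0, hPC hp0⟩, hQc, ?_, hQ2, ?_⟩
  · intro z hz
    exact mem_erase.2 ⟨fun h1 => (mem_sdiff.1 hz).2 (h1 ▸ hcC), (mem_sdiff.1 hz).1⟩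
  · rw [Finset.sdiff_sdiff_eq_self hCU]
    exact hCc
  · intro q hq
    rw [Finset.sdiff_sdiff_eq_self hCU]
    have h1 := hN1 q hq
    have h2 := hN q hq
    omega

end ear

end TB
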