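import Pool.Agent.Lib.MP_80160f_co.Split

/-!
# MP_80160f_co : decoupling, the class `Gam`, and Lemma A
-/

set_option autoImplicit false
set_option linter.unusedSectionVars false

namespace TB

open Finset

variable {V : Type*} [DecidableEq V]

theorem hw_eq_ew {H T : SimpleGraph V} {t i : Bool} (h : t ≠ i) (x y : V) :
    hw H T (fun _ _ => t) i x y = ew H x y := by
  by_cases h1 : H.Adj x y
  · rw [ew_adj h1, hw_one h1]
    rintro ⟨-, h2⟩
    exact h h2
  · rw [ew_not h1, hw_not h1]

theorem hw_nonT {H T : SimpleGraph V} {col : V → V → Bool} {i : Bool} {x y : V}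
    (h : ¬ T.Adj x y) : hw H T col i x y = ew H x y := by
  by_cases h1 : H.Adj x y
  · rw [ew_adj h1, hw_one h1 fun h2 => h h2.1]
  · rw [ew_not h1, hw_not h1]

/-- the weights of the slots of a part. `f i` means that the part comes first in the colour `i`.
The tree edges to the other part have the colour `t`. -/
noncomputable def cut (H T : SimpleGraph V) (σ : Bool → V → V → ℕ) (X : Finset V)
    (f : Bool → Bool) (t : Bool) : Bool → V → V → ℕ := fun i u z => by
  classical
  exact if z ∈ X then (if f i = true then 0 else hw H T (fun _ _ => t) i u z) else σ i u z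

section cutlemmas

variable {H T : SimpleGraph V} {σ : Bool → V → V → ℕ} {X : Finset V} {f : Bool → Bool}
  {t i : Bool} {u z : V}

theorem cut_out (hz : z ∉ X) : cut H T σ X f t i u z = σ i u z := by
  unfold cut
  rw [if_neg hz]

theorem cut_first (hz : z ∈ X) (hf : f i = true) : cut H T σ X f t i u z = 0 := by
  unfold cut
  rw [if_pos hz, if_pos hf]

theorem cut_after (hz : z ∈ X) (hf : f i = false) :
    cut H T σ X f t i u z = hw H T (fun _ _ => t) i u z := by
  unfold cut
  rw [if_pos hz, if_neg (by rw [hf]; exact Bool.false_ne_true)]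

end cutlemmas

variable [Fintype V]

theorem sum_compl {X P Q : Finset V} (hun : P ∪ Q = X) (hd : Disjoint P Q) (g : V → ℕ) :
    ∑ z ∈ Pᶜ, g z = ∑ z ∈ Xᶜ, g z + ∑ z ∈ Q, g z := by
  have h1 : Pᶜ = Xᶜ ∪ Q := by
    ext z
    rw [mem_compl, mem_union, mem_compl, ← hun, mem_union, not_or]
    constructor
    · intro h
      by_cases h2 : z ∈ Q
      · exact Or.inr h2
      · exact Or.inl ⟨h, h2⟩
    · rintro (h | h)
      · exact h.1
      · exact fun h2 => (Finset.disjoint_left.1 hd) h2 h
  rw [h1, sum_union]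
  rw [Finset.disjoint_left]
  intro z hz hz'
  rw [mem_compl, ← hun] at hz
  exact hz (mem_union_right _ hz')

/-- the weight of the slots of `X` at a subset -/
noncomputable def ow (σ : Bool → V → V → ℕ) (X : Finset V) (i : Bool) (P : Finset V) : ℕ :=
  ∑ x ∈ P, ∑ z ∈ Xᶜ, σ i x z

theorem tot_eq (σ : Bool → V → V → ℕ) (X : Finset V) (i : Bool) : tot σ X i = ow σ X i X := rfl

theorem ow_union (σ : Bool → V → V → ℕ) (X : Finset V) (i : Bool) {A B : Finset V}
    (h : Disjoint A B) : ow σ X i (A ∪ B) = ow σ X i A + ow σ X i B := by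
  unfold ow
  exact sum_union h

theorem ow_mono (σ : Bool → V → V → ℕ) (X : Finset V) (i : Bool) {A B : Finset V}
    (h : A ⊆ B) : ow σ X i A ≤ ow σ X i B := by
  unfold ow
  exact sum_le_sum_of_subset h

theorem le_ow {σ : Bool → V → V → ℕ} {X : Finset V} (i : Bool) {A : Finset V} {u z : V}
    (hu : u ∈ A) (hz : z ∉ X) : σ i u z ≤ ow σ X i A := by
  unfold ow
  calc σ i u z ≤ ∑ z ∈ Xᶜ, σ i u z :=
        single_le_sum (f := fun z => σ i u z) (fun _ _ => Nat.zero_le _) (mem_compl.2 hz)
    _ ≤ _ := single_le_sum (f := fun x => ∑ z ∈ Xᶜ, σ i x z) (fun _ _ => Nat.zero_le _) hu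

theorem ow_cut_first {H T : SimpleGraph V} {σ : Bool → V → V → ℕ} {X P Q A : Finset V}
    {f : Bool → Bool} {t i : Bool} (hun : P ∪ Q = X) (hd : Disjoint P Q) (hf : f i = true) :
    ow (cut H T σ X f t) P i A = ow σ X i A := by
  unfold ow
  refine sum_congr rfl fun x _ => ?_
  rw [sum_compl hun hd]
  have h1 : ∑ z ∈ Q, cut H T σ X f t i x z = 0 :=
    sum_eq_zero fun z hz => cut_first (hun ▸ mem_union_right _ hz) hf
  rw [h1, add_zero]
  exact sum_congr rfl fun z hz => cut_out (mem_compl.1 hz)

theorem ow_cut_after {H T : SimpleGraph V} {σ : Bool → V → V → ℕ} {X P Q A : Finset V}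
    {f : Bool → Bool} {t i : Bool} (hun : P ∪ Q = X) (hd : Disjoint P Q) (hf : f i = false) :
    ow (cut H T σ X f t) P i A =
      ow σ X i A + ∑ x ∈ A, ∑ z ∈ Q, hw H T (fun _ _ => t) i x z := by
  unfold ow
  rw [← sum_add_distrib]
  refine sum_congr rfl fun x _ => ?_
  rw [sum_compl hun hd]
  refine congrArg₂ (· + ·) ?_ ?_
  · exact sum_congr rfl fun z hz => cut_out (mem_compl.1 hz)
  · exact sum_congr rfl fun z hz => cut_after (hun ▸ mem_union_right _ hz) hf

theorem ow_cut_ew {H T : SimpleGraph V} {σ : Bool → V → V → ℕ} {X P Q A : Finset V}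
    {f : Bool → Bool} {t i : Bool} (hun : P ∪ Q = X) (hd : Disjoint P Q) (hf : f i = false)
    (ht : t ≠ i) : ow (cut H T σ X f t) P i A = ow σ X i A + ec H A Q := by
  rw [ow_cut_after hun hd hf]
  unfold ec wt
  refine congrArg₂ (· + ·) rfl ?_
  exact sum_congr rfl fun x _ => sum_congr rfl fun z _ => hw_eq_ew ht x z

theorem wt_hub_some {H T : SimpleGraph V} (col : V → V → Bool) (σ : Bool → V → V → ℕ)
    (X : Finset V) (i : Bool) (A : Finset V) (p : V) :
    wt (W H T col σ X i) (hub A) {some p} =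
      ∑ z ∈ Xᶜ, σ i p z + ∑ a ∈ A, hw H T col i a p := by
  rw [← emb_single, wt_hub_emb, sum_singleton]
  refine congrArg₂ (· + ·) rfl ?_
  exact sum_congr rfl fun a _ => sum_singleton _ _

theorem wt_emb_some {H T : SimpleGraph V} (col : V → V → Bool) (σ : Bool → V → V → ℕ)
    (X : Finset V) (i : Bool) (A : Finset V) (p : V) :
    wt (W H T col σ X i) (emb A) {some p} = ∑ a ∈ A, hw H T col i a p := by
  rw [← emb_single, wt_emb]
  exact sum_congr rfl fun a _ => sum_singleton _ _

/-- **decoupling** -/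
theorem decouple {H T : SimpleGraph V} {σ : Bool → V → V → ℕ} {X P Q : Finset V}
    (hun : P ∪ Q = X) (hd : Disjoint P Q) (f g : Bool → Bool) (hfg : ∀ i, g i = !f i) (t : Bool)
    (hP : Good H T P (cut H T σ X f t)) (hQ : Good H T Q (cut H T σ X g t)) :
    Good H T X σ := by
  obtain ⟨cP, hcP, hP⟩ := hP
  obtain ⟨cQ, hcQ, hQ⟩ := hQ
  obtain ⟨col, hc, hcj, hct⟩ := exists_comb (ι := Bool) (fun b => if b then P else Q)
    (by
      intro j k hjk
      cases j <;> cases k
      · exact absurd rfl hjk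
      · exact hd.symm
      · exact hd
      · exact absurd rfl hjk)
    (fun b => if b then cP else cQ)
    (by
      intro j x y
      cases j
      · exact hcQ x y
      · exact hcP x y) (fun _ _ => t) (fun _ _ => rfl)
  have hcolP : ∀ x ∈ P, ∀ y ∈ P, col x y = cP x y := fun x hx y hy => hcj true x hx y hy
  have hcolQ : ∀ x ∈ Q, ∀ y ∈ Q, col x y = cQ x y := fun x hx y hy => hcj false x hx y hy
  have hcross : ∀ x ∈ P, ∀ y ∈ Q, col x y = t := by
    intro x hx y hy
    apply hct
    intro j hj
    cases j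
    · exact absurd hj fun h1 => (Finset.disjoint_left.1 hd) hx h1
    · exact fun h1 => (Finset.disjoint_left.1 hd) h1 hy
  refine ⟨col, hc, fun i => ?_⟩
  -- the first part and then the second one
  have key : ∀ (A B : Finset V) (cA cB : V → V → Bool) (fA fB : Bool → Bool), A ∪ B = X →
      Disjoint A B → (∀ x ∈ A, ∀ y ∈ A, col x y = cA x y) → (∀ x ∈ B, ∀ y ∈ B, col x y = cB x y) →
      (∀ x ∈ A, ∀ y ∈ B, col x y = t) → fA i = true → fB i = false →
      Clu (W H T cA (cut H T σ X fA t) A i) (hub A) →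
      Clu (W H T cB (cut H T σ X fB t) B i) (hub B) → Clu (W H T col σ X i) (hub X) := by
    intro A B cA cB fA fB hAB hdAB hA hB hAB' hfA hfB hcA hcB
    have h1 : Clu (W H T col σ X i) (hub A) := by
      have h2 : Clu (W H T col σ X i) (hub ∅ ∪ emb A) := by
        refine part_hub hc hA hcA ?_ ?_ ?_
        · rw [hub_empty]
          exact Clu.single _
        · exact hub_disjoint (disjoint_empty_left A)
        · intro p hp
          rw [wt_hub_some, sum_empty, add_zero, sum_compl hAB hdAB]
          have h3 : ∑ z ∈ B, cut H T σ X fA t i p z = 0 :=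
            sum_eq_zero fun z hz => cut_first (hAB ▸ mem_union_right _ hz) hfA
          rw [h3, add_zero]
          exact (sum_congr rfl fun z hz => cut_out (mem_compl.1 hz)).le
      rwa [← hub_union, empty_union] at h2
    have h0 : hub X = hub A ∪ emb B := by rw [← hAB, hub_union]
    rw [h0]
    refine part_hub hc hB hcB h1 (hub_disjoint hdAB) ?_
    intro p hp
    have hBA : B ∪ A = X := by rw [union_comm]; exact hAB
    rw [wt_hub_some, sum_compl hBA hdAB.symm]
    refine add_le_add (sum_congr rfl fun z hz => cut_out (mem_compl.1 hz)).le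
      (sum_le_sum fun z hz => ?_)
    rw [cut_after (hAB ▸ mem_union_left _ hz) hfB, hw_comm (fun _ _ => rfl)]
    exact (hw_congr (hAB' z hz p hp).symm).le
  by_cases hf : f i = true
  · exact key P Q cP cQ f g hun hd hcolP hcolQ hcross hf (by rw [hfg, hf]; rfl) (hP i) (hQ i)
  · rw [Bool.not_eq_true] at hf
    refine key Q P cQ cP g f (by rw [union_comm]; exact hun) hd.symm hcolQ hcolP
      (fun x hx y hy => ?_) (by rw [hfg, hf]; rfl) hf (hQ i) (hP i)
    rw [hc]
    exact hcross y hy x hx

/-- the class `Gam`: all slots have weight one, except for a special one of weight two -/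
structure Gam (H : SimpleGraph V) (X : Finset V) (σ : Bool → V → V → ℕ) (s1 s2 : V) : Prop where
  m1 : s1 ∈ X
  m2 : s2 ∉ X
  adj : H.Adj s1 s2
  spec : ∀ c, σ c s1 s2 + σ (!c) s1 s2 = 2
  lab : ∀ c, ∀ u ∈ X, ∀ z ∉ X, H.Adj u z → ¬ (u = s1 ∧ z = s2) → σ c u z + σ (!c) u z = 1
  non : ∀ c, ∀ u ∈ X, ∀ z ∉ X, ¬ H.Adj u z → σ c u z = 0

/-- the tree edge is a bridge -/
def Bridge (H : SimpleGraph V) (P Q : Finset V) (p q : V) : Prop :=
  ∀ a ∈ P, ∀ b ∈ Q, H.Adj a b → a = p ∧ b = q

/-- the criterion -/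
structure Crit (H T : SimpleGraph V) (X : Finset V) (σ : Bool → V → V → ℕ) (s1 s2 : V) :
    Prop where
  tot : ∀ i, 2 ≤ tot σ X i
  bad : ∀ i, σ i s1 s2 = 2 → ∀ P Q p q, Split T X P Q p q → s1 ∈ P → Bridge H P Q p q →
    1 ≤ ow σ X (!i) P

/-- the claim GAMMA for the sets with at most `n` elements -/
def GammaUpTo (H T : SimpleGraph V) (n : ℕ) : Prop :=
  ∀ (X : Finset V) (σ : Bool → V → V → ℕ) (s1 s2 : V), X.card < n → ConnIn T X →
    Gam H X σ s1 s2 → Crit H T X σ s1 s2 → Good H T X σ

/-- a separated pair; the special slot is in the first part -/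
def Sep (T : SimpleGraph V) (X : Finset V) (σ : Bool → V → V → ℕ) (s1 : V) (c : Bool)
    (P Q : Finset V) (p q : V) : Prop :=
  Split T X P Q p q ∧ s1 ∈ P ∧ 2 ≤ ow σ X c P ∧ 2 ≤ ow σ X (!c) Q

theorem ec_eq_one_bridge {H : SimpleGraph V} {P Q : Finset V} {p q : V} (hp : p ∈ P) (hq : q ∈ Q)
    (h : H.Adj p q) (h1 : ec H P Q ≤ 1) : Bridge H P Q p q := by
  intro a ha b hb hab
  by_contra hne
  have h2 : ∃ A B : Finset V, True := ⟨∅, ∅, trivial⟩
  by_cases hap : a = p
  · have hbq : b ≠ q := fun h3 => hne ⟨hap, h3⟩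
    rw [hap] at hab
    have h3 : ec H {p} {b} + ec H {p} {q} ≤ ec H P Q := by
      rw [← ec_union_right H _ (disjoint_singleton.2 hbq)]
      exact ec_mono H (singleton_subset_iff.2 hp) (union_subset (singleton_subset_iff.2 hb)
        (singleton_subset_iff.2 hq))
    have h4 := one_le_ec (mem_singleton_self p) (mem_singleton_self b) hab
    have h5 := one_le_ec (mem_singleton_self p) (mem_singleton_self q) h
    omega
  · have h3 : ec H {a} Q + ec H {p} Q ≤ ec H P Q := by
      rw [← ec_union_left H (disjoint_singleton.2 hap)]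
      exact ec_mono H (union_subset (singleton_subset_iff.2 ha)
        (singleton_subset_iff.2 hp)) (Subset.refl _)
    have h4 := one_le_ec (mem_singleton_self a) hb hab
    have h5 := one_le_ec (mem_singleton_self p) hq h
    omega

/-- **Lemma A** -/
theorem lemmaA {H T : SimpleGraph V} (hTH : T ≤ H) {n : ℕ}
    (ih : GammaUpTo H T n) {X : Finset V} {σ : Bool → V → V → ℕ} {s1 s2 : V} (hn : X.card ≤ n)
    (hG : Gam H X σ s1 s2) (hC : Crit H T X σ s1 s2)
    (hsep : ∃ c P Q p q, Sep T X σ s1 c P Q p q) : Good H T X σ := by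
  -- the choice of the colour
  obtain ⟨c, hc, hpref⟩ : ∃ c, (∃ P Q p q, Sep T X σ s1 c P Q p q) ∧
      (σ c s1 s2 = 2 ∨ ∀ c', σ c' s1 s2 = 2 → ∀ P Q p q, ¬ Sep T X σ s1 c' P Q p q) := by
    by_cases h1 : ∃ c, σ c s1 s2 = 2 ∧ ∃ P Q p q, Sep T X σ s1 c P Q p q
    · obtain ⟨c, h1, h2⟩ := h1
      exact ⟨c, h2, Or.inl h1⟩
    · obtain ⟨c, h2⟩ := hsep
      refine ⟨c, h2, Or.inr fun c' h3 P Q p q h4 => h1 ⟨c', h3, P, Q, p, q, h4⟩⟩
  -- the minimal second part
  obtain ⟨⟨⟨P, Q⟩, ⟨p, q⟩⟩, hS, hmin⟩ := exists_min_nat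
    (fun t : (Finset V × Finset V) × (V × V) => t.1.2.card)
    (fun t => Sep T X σ s1 c t.1.1 t.1.2 t.2.1 t.2.2) (by
      obtain ⟨P, Q, p, q, h⟩ := hc
      exact ⟨((P, Q), (p, q)), h⟩)
  have hmin' : ∀ P' Q' p' q', Sep T X σ s1 c P' Q' p' q' → Q.card ≤ Q'.card :=
    fun P' Q' p' q' h => hmin ((P', Q'), (p', q')) h
  obtain ⟨hs, hs1, hcP, hcQ⟩ : Sep T X σ s1 c P Q p q := hS
  have hne : (!c) ≠ c := by cases c <;> decide
  obtain ⟨f, g, hfg, hfc, hfc', hgc, hgc'⟩ : ∃ f g : Bool → Bool, (∀ i, g i = !f i) ∧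
      f c = true ∧ f (!c) = false ∧ g c = false ∧ g (!c) = true := by
    refine ⟨fun i => i == c, fun i => !(i == c), fun _ => rfl, ?_, ?_, ?_, ?_⟩ <;> cases c <;> rfl
  have hcb : ∀ i : Bool, i = c ∨ i = !c := by intro i; cases i <;> cases c <;> simp
  have hunQ : Q ∪ P = X := by rw [union_comm]; exact hs.un
  refine decouple hs.un hs.dis f g hfg c
    (ih P _ s1 s2 (lt_of_lt_of_le hs.cardP hn) hs.cP ?_ ?_)
    (ih Q _ q p (lt_of_lt_of_le hs.cardQ hn) hs.cQ ?_ ?_)
  · -- the first part is in the class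
    refine ⟨hs1, fun h => hG.m2 (hs.subP h), hG.adj, ?_, ?_, ?_⟩
    · intro c'
      rw [cut_out hG.m2, cut_out hG.m2]
      exact hG.spec c'
    · intro c' u hu z hz huz hne'
      by_cases hzX : z ∈ X
      · have h1 : cut H T σ X f c c u z = 0 := cut_first hzX hfc
        have h2 : cut H T σ X f c (!c) u z = 1 := by
          rw [cut_after hzX hfc', hw_eq_ew hne.symm, ew_adj huz]
        rcases hcb c' with h3 | h3
        · rw [h3, h1, h2]
        · rw [h3, Bool.not_not, h1, h2]
      · rw [cut_out hzX, cut_out hzX]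
        exact hG.lab c' u (hs.subP hu) z hzX huz hne'
    · intro c' u hu z hz huz
      by_cases hzX : z ∈ X
      · rcases hcb c' with h3 | h3
        · rw [h3]
          exact cut_first hzX hfc
        · rw [h3, cut_after hzX hfc', hw_not huz]
      · rw [cut_out hzX]
        exact hG.non c' u (hs.subP hu) z hzX huz
  · -- the criterion for the first part
    have hpq := hTH hs.adj
    constructor
    · intro i
      rw [tot_eq]
      rcases hcb i with h3 | h3
      · rw [h3, ow_cut_first hs.un hs.dis hfc]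
        exact hcP
      · rw [h3, ow_cut_ew hs.un hs.dis hfc' hne.symm]
        by_contra hlt
        have h1 := one_le_ec hs.hp hs.hq hpq
        have h2 : σ (!c) s1 s2 ≤ ow σ X (!c) P := le_ow _ hs1 hG.m2
        have h4 := hG.spec c
        have h5 := hC.bad c (by omega) P Q p q hs hs1
          (ec_eq_one_bridge hs.hp hs.hq hpq (by omega))
        omega
    · intro i hi P1 P2 a b hs' hs1' hbr
      rw [cut_out hG.m2] at hi
      by_contra hlt
      rcases hcb i with h3 | h3
      · rw [h3] at hlt hi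
        rw [ow_cut_ew hs.un hs.dis hfc' hne.symm] at hlt
        have hno : ∀ x ∈ P1, ∀ y ∈ Q, ¬ H.Adj x y := by
          intro x hx y hy hxy
          have := one_le_ec hx hy hxy
          omega
        have hp2 : p ∈ P2 := by
          rcases hs'.mem_or hs.hp with h4 | h4
          · exact absurd hpq (hno p h4 q hs.hq)
          · exact h4
        have h5 := (hs.symm.assoc hs'.symm hp2).symm
        have h6 := hC.bad c hi P1 _ a b h5 hs1' (by
          intro x hx y hy hxy
          rcases mem_union.1 hy with h7 | h7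
          · exact absurd hxy (hno x hx y h7)
          · exact hbr x hx y h7 hxy)
        omega
      · rw [h3] at hlt hi
        rw [Bool.not_not, ow_cut_first hs.un hs.dis hfc] at hlt
        have h4 := hG.spec c
        have h5 : ow σ X c P = ow σ X c P1 + ow σ X c P2 := by
          rw [← ow_union _ _ _ hs'.dis, hs'.un]
        have h6 : σ (!c) s1 s2 ≤ ow σ X (!c) P1 := le_ow _ hs1' hG.m2
        rcases hpref with h7 | h7
        · omega
        · rcases hs'.mem_or hs.hp with h8 | h8
          · refine h7 (!c) hi _ _ _ _ ⟨hs.symm.assoc hs' h8, mem_union_right _ hs1', ?_, ?_⟩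
            · exact le_trans (by omega) (ow_mono σ X (!c) subset_union_right)
            · rw [Bool.not_not]
              omega
          · refine h7 (!c) hi _ _ _ _ ⟨(hs.symm.assoc hs'.symm h8).symm, hs1', by omega, ?_⟩
            rw [Bool.not_not]
            exact le_trans (by omega) (ow_mono σ X c subset_union_right)
  · -- the second part is in the class
    refine ⟨hs.hq, hs.notQ hs.hp, (hTH hs.adj).symm, ?_, ?_, ?_⟩
    · intro c'
      have h1 : cut H T σ X g c c q p = 2 := by
        rw [cut_after hs.pX hgc, hw_two (hTH hs.adj).symm hs.adj.symm rfl]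
      have h2 : cut H T σ X g c (!c) q p = 0 := cut_first hs.pX hgc'
      rcases hcb c' with h3 | h3
      · rw [h3, h1, h2]
      · rw [h3, Bool.not_not, h1, h2]
    · intro c' u hu z hz huz hne'
      by_cases hzX : z ∈ X
      · have hzP : z ∈ P := by
          rcases hs.mem_or hzX with h4 | h4
          · exact h4
          · exact absurd h4 hz
        have h1 : cut H T σ X g c c u z = 1 := by
          rw [cut_after hzX hgc, hw_one huz]
          rintro ⟨h5, -⟩
          have h6 := hs.uniq z hzP u hu h5.symm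
          exact hne' ⟨h6.2, h6.1⟩
        have h2 : cut H T σ X g c (!c) u z = 0 := cut_first hzX hgc'
        rcases hcb c' with h3 | h3
        · rw [h3, h1, h2]
        · rw [h3, Bool.not_not, h1, h2]
      · rw [cut_out hzX, cut_out hzX]
        refine hG.lab c' u (hs.subQ hu) z hzX huz ?_
        rintro ⟨h5, -⟩
        exact hs.notP hu (h5 ▸ hs1)
    · intro c' u hu z hz huz
      by_cases hzX : z ∈ X
      · rcases hcb c' with h3 | h3
        · rw [h3, cut_after hzX hgc, hw_not huz]
        · rw [h3]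
          exact cut_first hzX hgc'
      · rw [cut_out hzX]
        exact hG.non c' u (hs.subQ hu) z hzX huz
  · -- the criterion for the second part
    have h2p : cut H T σ X g c c q p = 2 := by
      rw [cut_after hs.pX hgc, hw_two (hTH hs.adj).symm hs.adj.symm rfl]
    have h0p : cut H T σ X g c (!c) q p = 0 := cut_first hs.pX hgc'
    constructor
    · intro i
      rw [tot_eq]
      rcases hcb i with h3 | h3
      · rw [h3, ← h2p]
        exact le_ow c hs.hq (hs.notQ hs.hp)
      · rw [h3, ow_cut_first hunQ hs.dis.symm hgc']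
        exact hcQ
    · intro i hi Q1 Q2 a b hs' hq1 hbr
      rcases hcb i with h3 | h3
      · rw [h3, ow_cut_first hunQ hs.dis.symm hgc']
        by_contra hlt
        have h5 : ow σ X (!c) Q = ow σ X (!c) Q1 + ow σ X (!c) Q2 := by
          rw [← ow_union _ _ _ hs'.dis, hs'.un]
        have h6 := hmin' (P ∪ Q1) Q2 a b ⟨hs.assoc hs' hq1, mem_union_left _ hs1,
          hcP.trans (ow_mono σ X c subset_union_left), by omega⟩
        have h7 := hs'.cardQ
        omega
      · rw [h3] at hi
        omega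

end TB
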