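import Pool.Agent.Lib.MP_80160f_co.All

/-!
# MP_80160f_co : the splitting theorem for a general graph
-/

set_option autoImplicit false
set_option linter.unusedSectionVars false

namespace TB

open Finset

variable {α : Type*} [DecidableEq α] [Fintype α]

theorem sum_gw {G J : SimpleGraph α} (hJ : J ≤ G) :
    wt (gw G J.edgeSet) univ univ = 2 * G.edgeSet.ncard + 2 * J.edgeSet.ncard := by
  rw [← sum_adj G, ← sum_adj J]
  unfold wt
  rw [← sum_add_distrib]
  refine sum_congr rfl fun x _ => ?_
  rw [← sum_add_distrib]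
  refine sum_congr rfl fun y _ => ?_
  unfold gw
  by_cases h : G.Adj x y
  · by_cases h' : J.Adj x y
    · have h2 : s(x, y) ∈ J.edgeSet := h'
      rw [if_pos h, if_pos h2, ew_adj h, ew_adj h']
    · have h2 : s(x, y) ∉ J.edgeSet := h'
      rw [if_pos h, if_neg h2, ew_adj h, ew_not h']
  · rw [if_neg h, ew_not h, ew_not fun h1 => h (hJ h1)]

/-- **the splitting theorem** : let `G` be a connected graph with `3 (n - 1) / 2` edges and let `B` be
a 2-base with connected complement. Then the rest splits into two parts such that all three parts have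
the avoidance property for all abelian groups with at least three elements. -/
theorem split_of_base {G : SimpleGraph α} {B : Set (Sym2 α)} (hB : IsKBase G 2 B)
    (hT : (G.deleteEdges B).Connected)
    (hcard : 2 * G.edgeSet.ncard + 3 = 3 * Fintype.card α) :
    ∃ A A' : Set (Sym2 α), Disjoint B A ∧ Disjoint B A' ∧ Disjoint A A' ∧
      B ∪ A ∪ A' = G.edgeSet ∧ B.ncard = A.ncard ∧ B.ncard = A'.ncard ∧
      ∀ (Γ : Type*) [AddCommGroup Γ], (∃ a b : Γ, a ≠ 0 ∧ b ≠ 0 ∧ a ≠ b) →
        Avoids Γ G B ∧ Avoids Γ G A ∧ Avoids Γ G A' := by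
  classical
  set T := G.deleteEdges B with hTdef
  set J := SimpleGraph.fromEdgeSet B with hJdef
  have hBG := hB.1
  have hJB : J.edgeSet = B := by
    rw [hJdef, SimpleGraph.edgeSet_fromEdgeSet]
    ext e
    constructor
    · exact fun h => h.1
    · exact fun h => ⟨h, G.not_isDiag_of_mem_edgeSet (hBG h)⟩
  have hTE : T.edgeSet = G.edgeSet \ B := by
    rw [hTdef, SimpleGraph.edgeSet_deleteEdges]
  have hJG : J ≤ G := by
    rw [← SimpleGraph.edgeSet_subset_edgeSet, hJB]
    exact hBG
  have hTG : T ≤ G := SimpleGraph.deleteEdges_le B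
  have hsup : T ⊔ J = G := by
    apply SimpleGraph.edgeSet_injective
    rw [SimpleGraph.edgeSet_sup, hJB, hTE, Set.sdiff_union_of_subset hBG]
  have hd : ∀ x y, T.Adj x y → ¬ J.Adj x y := by
    intro x y h1 h2
    have h3 : s(x, y) ∈ T.edgeSet := h1
    have h4 : s(x, y) ∈ J.edgeSet := h2
    rw [hTE] at h3
    rw [hJB] at h4
    exact h3.2 h4
  have hGc : G.Connected := hT.mono hTG
  have hclu := clu_of_isKBase hGc hB
  have h1 := hclu.total (gw_comm _ _)
  have h2 := sum_gw hJG
  rw [hJB] at h2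
  rw [h2, card_univ] at h1
  have h3 : T.edgeSet.ncard + B.ncard = G.edgeSet.ncard := by
    rw [hTE]
    exact Set.ncard_sdiff_add_ncard_of_subset hBG (Set.toFinite _)
  have h4 := hT.card_vert_le_card_edgeSet_add_one
  rw [Nat.card_eq_fintype_card, Nat.card_coe_set_eq] at h4
  have hTt : T.IsTree := by
    rw [SimpleGraph.isTree_iff_connected_and_card]
    refine ⟨hT, ?_⟩
    rw [Nat.card_coe_set_eq, Nat.card_eq_fintype_card]
    omega
  have h5 := tree_card hTt
  obtain ⟨A, hA, a4, a5, a1⟩ := core_all hd hTt (by rw [hJB]; omega) (by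
    rw [hsup, hJB]
    exact hclu)
  rw [hJB] at a1 a4 a5
  rw [hsup] at a1
  refine ⟨A, T.edgeSet \ A, ?_, ?_, Set.disjoint_sdiff_right, ?_, a4.symm, a5.symm, a1⟩
  · rw [Set.disjoint_left]
    intro e h6 h7
    have h8 := hA h7
    rw [hTE] at h8
    exact h8.2 h6
  · rw [Set.disjoint_left]
    intro e h6 h7
    have h8 := h7.1
    rw [hTE] at h8
    exact h8.2 h6
  · rw [Set.union_assoc, Set.union_sdiff_cancel hA, hTE, Set.union_sdiff_cancel hBG]

end TB
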