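import Pool.Agent.Lib.MP_80160f_co.Ear

/-!
# MP_80160f_co : instances

An instance is a set `X` of vertices (the hub is everything else) together with the weights of its
slots, that is, of the edges which leave it.
-/

set_option autoImplicit false
set_option linter.unusedSectionVars false

namespace TB

open Finset

section erase

variable {β : Type*} [DecidableEq β]

theorem wt_single_left (W : β → β → ℕ) (a : β) (B : Finset β) : wt W {a} B = ∑ b ∈ B, W a b := by
  unfold wt
  rw [sum_singleton]

theorem wt_single_right (W : β → β → ℕ) (A : Finset β) (b : β) : wt W A {b} = ∑ a ∈ A, W a b := by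
  unfold wt
  exact sum_congr rfl fun a _ => sum_singleton _ _

theorem wt_empty_left (W : β → β → ℕ) (B : Finset β) : wt W ∅ B = 0 := by
  unfold wt
  rw [sum_empty]

theorem wt_empty_right (W : β → β → ℕ) (A : Finset β) : wt W A ∅ = 0 := by
  unfold wt
  exact sum_eq_zero fun a _ => sum_empty

theorem union_erase_left {A B : Finset β} {h : β} (hB : h ∉ B) :
    (A ∪ B).erase h = A.erase h ∪ B := by
  rw [erase_union_distrib, erase_eq_of_notMem hB]

theorem Clu.deg {W : β → β → ℕ} (hW : ∀ a b, W a b = W b a) {A : Finset β} (hA : Clu W A) {h : β}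
    (hh : h ∈ A) (hne : A ≠ {h}) : 2 ≤ wt W {h} (A.erase h) := by
  induction hA with
  | single a =>
    rw [mem_singleton] at hh
    exact absurd (by rw [hh]) hne
  | merge A B hA hB hd hw ihA ihB =>
    have key : ∀ A B : Finset β, Disjoint A B → 2 ≤ wt W A B →
        (h ∈ A → A ≠ {h} → 2 ≤ wt W {h} (A.erase h)) → h ∈ A →
        2 ≤ wt W {h} ((A ∪ B).erase h) := by
      intro A B hd hw ih hA
      by_cases hA1 : A = {h}
      · rw [hA1] at hw
        have hB : h ∉ B := fun hB => (Finset.disjoint_left.1 hd) hA hB
        refine hw.trans (wt_sub (Subset.refl _) ?_)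
        rw [union_erase_left hB]
        exact subset_union_right
      · exact (ih hA hA1).trans (wt_sub (Subset.refl _) (erase_subset_erase _ subset_union_left))
    rcases mem_union.1 hh with h1 | h1
    · exact key A B hd hw ihA h1
    · rw [union_comm]
      exact key B A hd.symm (by rw [wt_comm hW]; exact hw) ihB h1

/-- if the hub has weight at most two then the rest is a cluster -/
theorem Clu.erase_hub {W : β → β → ℕ} (hW : ∀ a b, W a b = W b a) {A : Finset β} (hA : Clu W A)
    {h : β} (hh : h ∈ A) (hne : A ≠ {h}) (h2 : wt W {h} (A.erase h) ≤ 2) : Clu W (A.erase h) := by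
  induction hA with
  | single a =>
    rw [mem_singleton] at hh
    exact absurd (by rw [hh]) hne
  | merge A B hA hB hd hw ihA ihB =>
    have key : ∀ A B : Finset β, Clu W A → Clu W B → Disjoint A B → 2 ≤ wt W A B →
        (h ∈ A → A ≠ {h} → wt W {h} (A.erase h) ≤ 2 → Clu W (A.erase h)) → h ∈ A →
        wt W {h} ((A ∪ B).erase h) ≤ 2 → Clu W ((A ∪ B).erase h) := by
      intro A B hcA hcB hd hw ih hA h2
      have hB : h ∉ B := fun hB => (Finset.disjoint_left.1 hd) hA hB
      rw [union_erase_left hB] at h2 ⊢
      by_cases hA1 : A = {h}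
      · rw [hA1, erase_singleton, empty_union]
        exact hcB
      · have hd' : Disjoint (A.erase h) B := hd.mono_left (erase_subset _ _)
        have h3 := hcA.deg hW hA hA1
        rw [wt_union_right _ _ hd'] at h2
        have h4 := ih hA hA1 (by omega)
        refine h4.union hcB hd' ?_ rfl
        have h5 : wt W A B = wt W {h} B + wt W (A.erase h) B := by
          rw [← wt_union_left _ (disjoint_singleton_left.2 (notMem_erase h A)), ← insert_eq,
            insert_erase hA]
        omega
    rcases mem_union.1 hh with h1 | h1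
    · exact key A B hA hB hd hw ihA h1 h2
    · rw [union_comm] at h2 ⊢
      exact key B A hB hA hd.symm (by rw [wt_comm hW]; exact hw) ihB h1 h2

end erase

variable {V : Type*} [DecidableEq V]

/-- the set without the hub -/
def emb (X : Finset V) : Finset (Option V) := X.map Function.Embedding.some

theorem mem_emb {X : Finset V} {x : V} : some x ∈ emb X ↔ x ∈ X := by
  unfold emb
  rw [mem_map]
  constructor
  · rintro ⟨y, hy, h⟩
    exact (Option.some.inj h) ▸ hy
  · intro h
    exact ⟨x, h, rfl⟩

theorem none_notMem_emb (X : Finset V) : none ∉ emb X := by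
  unfold emb
  rw [mem_map]
  rintro ⟨y, -, h⟩
  exact Option.some_ne_none y h

/-- the set with the hub -/
def hub (X : Finset V) : Finset (Option V) := insert none (emb X)

theorem some_mem_hub {X : Finset V} {x : V} : some x ∈ hub X ↔ x ∈ X := by
  unfold hub
  rw [mem_insert, mem_emb]
  constructor
  · rintro (h | h)
    · exact absurd h (Option.some_ne_none x)
    · exact h
  · exact Or.inr

theorem none_mem_hub (X : Finset V) : none ∈ hub X := mem_insert_self _ _

theorem hub_erase (X : Finset V) : (hub X).erase none = emb X := by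
  unfold hub
  exact erase_insert (none_notMem_emb X)

theorem emb_union (A B : Finset V) : emb (A ∪ B) = emb A ∪ emb B := by
  unfold emb
  exact map_union _ _

theorem hub_union (A B : Finset V) : hub (A ∪ B) = hub A ∪ emb B := by
  unfold hub
  rw [emb_union, insert_union]

theorem hub_empty : hub (∅ : Finset V) = {none} := by
  unfold hub emb
  rw [map_empty]
  rfl

theorem emb_single (x : V) : emb {x} = {some x} := by
  unfold emb
  rw [map_singleton]
  rfl

theorem emb_disjoint {A B : Finset V} (h : Disjoint A B) : Disjoint (emb A) (emb B) := by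
  unfold emb
  exact (disjoint_map _).2 h

theorem hub_disjoint {A B : Finset V} (h : Disjoint A B) : Disjoint (hub A) (emb B) := by
  unfold hub
  rw [disjoint_insert_left]
  exact ⟨none_notMem_emb B, emb_disjoint h⟩

/-- the weights inside -/
noncomputable def hw (H T : SimpleGraph V) (col : V → V → Bool) (i : Bool) (x y : V) : ℕ := by
  classical
  exact if H.Adj x y then (if T.Adj x y ∧ col x y = i then 2 else 1) else 0

theorem hw_not {H T : SimpleGraph V} {col : V → V → Bool} {i : Bool} {x y : V}
    (h : ¬ H.Adj x y) : hw H T col i x y = 0 := by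
  unfold hw
  rw [if_neg h]

theorem hw_one {H T : SimpleGraph V} {col : V → V → Bool} {i : Bool} {x y : V}
    (h : H.Adj x y) (h' : ¬ (T.Adj x y ∧ col x y = i)) : hw H T col i x y = 1 := by
  unfold hw
  rw [if_pos h, if_neg h']

theorem hw_two {H T : SimpleGraph V} {col : V → V → Bool} {i : Bool} {x y : V}
    (h : H.Adj x y) (h' : T.Adj x y) (h'' : col x y = i) : hw H T col i x y = 2 := by
  unfold hw
  rw [if_pos h, if_pos ⟨h', h''⟩]

theorem ew_le_hw (H T : SimpleGraph V) (col : V → V → Bool) (i : Bool) (x y : V) :
    ew H x y ≤ hw H T col i x y := by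
  by_cases h : H.Adj x y
  · rw [ew_adj h]
    unfold hw
    rw [if_pos h]
    split_ifs <;> omega
  · rw [ew_not h]
    exact Nat.zero_le _

theorem hw_comm {H T : SimpleGraph V} {col : V → V → Bool} (hc : ∀ x y, col x y = col y x)
    (i : Bool) (x y : V) : hw H T col i x y = hw H T col i y x := by
  by_cases h : H.Adj x y
  · by_cases h' : T.Adj x y ∧ col x y = i
    · rw [hw_two h h'.1 h'.2, hw_two h.symm h'.1.symm (by rw [hc]; exact h'.2)]
    · rw [hw_one h h', hw_one h.symm]
      rintro ⟨h1, h2⟩
      exact h' ⟨h1.symm, by rw [hc]; exact h2⟩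
  · rw [hw_not h, hw_not fun h1 => h h1.symm]

theorem hw_congr {H T : SimpleGraph V} {col col' : V → V → Bool} {i : Bool} {x y : V}
    (h : col x y = col' x y) : hw H T col i x y = hw H T col' i x y := by
  unfold hw
  rw [h]

variable [Fintype V]

/-- all the weights -/
noncomputable def W (H T : SimpleGraph V) (col : V → V → Bool) (σ : Bool → V → V → ℕ)
    (X : Finset V) (i : Bool) : Option V → Option V → ℕ
  | some x, some y => hw H T col i x y
  | none, some x => ∑ z ∈ Xᶜ, σ i x z
  | some x, none => ∑ z ∈ Xᶜ, σ i x z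
  | none, none => 0

theorem W_comm {H T : SimpleGraph V} {col : V → V → Bool} (hc : ∀ x y, col x y = col y x)
    (σ : Bool → V → V → ℕ) (X : Finset V) (i : Bool) (a b : Option V) :
    W H T col σ X i a b = W H T col σ X i b a := by
  cases a <;> cases b
  · rfl
  · rfl
  · rfl
  · exact hw_comm hc i _ _

/-- the instance has a solution -/
def Good (H T : SimpleGraph V) (X : Finset V) (σ : Bool → V → V → ℕ) : Prop :=
  ∃ col : V → V → Bool, (∀ x y, col x y = col y x) ∧ ∀ i, Clu (W H T col σ X i) (hub X)

/-- the total weight of the slots -/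
noncomputable def tot (σ : Bool → V → V → ℕ) (X : Finset V) (i : Bool) : ℕ :=
  ∑ x ∈ X, ∑ z ∈ Xᶜ, σ i x z

theorem wt_emb (W : Option V → Option V → ℕ) (A B : Finset V) :
    wt W (emb A) (emb B) = ∑ a ∈ A, ∑ b ∈ B, W (some a) (some b) := by
  unfold wt emb
  rw [sum_map]
  exact sum_congr rfl fun a _ => sum_map _ _ _

theorem wt_none_emb (W : Option V → Option V → ℕ) (B : Finset V) :
    wt W {none} (emb B) = ∑ b ∈ B, W none (some b) := by
  rw [wt_single_left]
  unfold emb
  exact sum_map _ _ _

theorem wt_hub_emb (W : Option V → Option V → ℕ) (A B : Finset V) :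
    wt W (hub A) (emb B) = ∑ b ∈ B, W none (some b) + ∑ a ∈ A, ∑ b ∈ B, W (some a) (some b) := by
  unfold hub
  rw [insert_eq, wt_union_left _ (disjoint_singleton_left.2 (none_notMem_emb A)), wt_none_emb,
    wt_emb]

/-- a part is expanded at the cluster `K` -/
theorem part_hub {H T : SimpleGraph V} {col cP : V → V → Bool} {σ σP : Bool → V → V → ℕ}
    {X P : Finset V} {i : Bool} (hc : ∀ x y, col x y = col y x)
    (hcol : ∀ x ∈ P, ∀ y ∈ P, col x y = cP x y)
    (hP : Clu (W H T cP σP P i) (hub P)) {K : Finset (Option V)}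
    (hK : Clu (W H T col σ X i) K) (hdis : Disjoint K (emb P))
    (hle : ∀ p ∈ P, ∑ z ∈ Pᶜ, σP i p z ≤ wt (W H T col σ X i) K {some p}) :
    Clu (W H T col σ X i) (K ∪ emb P) := by
  set f : Option V → Finset (Option V) := fun a => a.elim K fun x => {some x} with hf
  have h1 : (hub P).biUnion f = K ∪ emb P := by
    ext a
    simp only [mem_biUnion, mem_union]
    constructor
    · rintro ⟨b, hb, hab⟩
      cases b with
      | none => exact Or.inl hab
      | some x =>
        have h2 : a = some x := mem_singleton.1 hab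
        rw [h2]
        exact Or.inr (mem_emb.2 (some_mem_hub.1 hb))
    · rintro (ha | ha)
      · exact ⟨none, none_mem_hub P, ha⟩
      · cases a with
        | none => exact absurd ha (none_notMem_emb P)
        | some x => exact ⟨some x, some_mem_hub.2 (mem_emb.1 ha), mem_singleton_self _⟩
  rw [← h1]
  refine hP.expand f ?_ ?_ ?_
  · intro a _
    cases a with
    | none => exact hK
    | some x => exact Clu.single _
  · intro a ha b hb hab
    cases a with
    | none =>
      cases b with
      | none => exact absurd rfl hab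
      | some y =>
        exact disjoint_singleton_right.2 fun h =>
          (Finset.disjoint_left.1 hdis) h (mem_emb.2 (some_mem_hub.1 hb))
    | some x =>
      cases b with
      | none =>
        exact disjoint_singleton_left.2 fun h =>
          (Finset.disjoint_left.1 hdis) h (mem_emb.2 (some_mem_hub.1 ha))
      | some y => exact disjoint_singleton.2 hab
  · intro a ha b hb hab
    cases a with
    | none =>
      cases b with
      | none => exact absurd rfl hab
      | some y => exact hle y (some_mem_hub.1 hb)
    | some x =>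
      cases b with
      | none =>
        change _ ≤ wt (W H T col σ X i) {some x} K
        rw [wt_comm (W_comm hc σ X i)]
        exact hle x (some_mem_hub.1 ha)
      | some y =>
        change _ ≤ wt (W H T col σ X i) {some x} {some y}
        rw [wt_single_left, sum_singleton]
        exact (hw_congr (hcol x (some_mem_hub.1 ha) y (some_mem_hub.1 hb))).ge

/-- a part collapses without the hub -/
theorem part_alone {H T : SimpleGraph V} {col cP : V → V → Bool} {σ σP : Bool → V → V → ℕ}
    {X P : Finset V} {i : Bool} (hcP : ∀ x y, cP x y = cP y x)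
    (hcol : ∀ x ∈ P, ∀ y ∈ P, col x y = cP x y)
    (hP : Clu (W H T cP σP P i) (hub P)) (hne : P.Nonempty) (h2 : tot σP P i ≤ 2) :
    Clu (W H T col σ X i) (emb P) := by
  have h1 : Clu (W H T cP σP P i) ((hub P).erase none) := by
    refine hP.erase_hub (W_comm hcP σP P i) (none_mem_hub P) ?_ ?_
    · intro h
      obtain ⟨p, hp⟩ := hne
      have h3 := some_mem_hub.2 hp
      rw [h, mem_singleton] at h3
      exact Option.some_ne_none p h3
    · rw [hub_erase, wt_none_emb]
      exact h2
  rw [hub_erase] at h1
  refine h1.mono ?_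
  intro a ha b hb
  cases a with
  | none => exact absurd ha (none_notMem_emb P)
  | some x =>
    cases b with
    | none => exact absurd hb (none_notMem_emb P)
    | some y => exact (hw_congr (hcol x (mem_emb.1 ha) y (mem_emb.1 hb))).ge

theorem Good.mono {H T : SimpleGraph V} {X : Finset V} {σ σ' : Bool → V → V → ℕ}
    (h : Good H T X σ) (hle : ∀ i, ∀ x ∈ X, ∀ z ∉ X, σ i x z ≤ σ' i x z) : Good H T X σ' := by
  obtain ⟨col, hc, h⟩ := h
  refine ⟨col, hc, fun i => (h i).mono ?_⟩
  have h1 : ∀ x ∈ X, ∑ z ∈ Xᶜ, σ i x z ≤ ∑ z ∈ Xᶜ, σ' i x z := fun x hx =>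
    sum_le_sum fun z hz => hle i x hx z (mem_compl.1 hz)
  intro a ha b hb
  cases a with
  | none =>
    cases b with
    | none => exact le_refl _
    | some y => exact h1 y (some_mem_hub.1 hb)
  | some x =>
    cases b with
    | none => exact h1 x (some_mem_hub.1 ha)
    | some y => exact le_refl _

/-- **relocation** of the weights of a colour of total weight two -/
theorem Good.reloc {H T : SimpleGraph V} {X : Finset V} {σ σ' : Bool → V → V → ℕ}
    (h : Good H T X σ) (hne : X.Nonempty)
    (hle : ∀ i, (tot σ X i ≤ 2 ∧ 2 ≤ tot σ' X i) ∨ ∀ x ∈ X, ∀ z ∉ X, σ i x z ≤ σ' i x z) :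
    Good H T X σ' := by
  obtain ⟨col, hc, h⟩ := h
  refine ⟨col, hc, fun i => ?_⟩
  rcases hle i with ⟨h2, h2'⟩ | hle
  · have h3 : Clu (W H T col σ' X i) (emb X) :=
      part_alone hc (fun _ _ _ _ => rfl) (h i) hne h2
    have h4 : Clu (W H T col σ' X i) ({none} ∪ emb X) := by
      refine Clu.merge _ _ (Clu.single none) h3 (disjoint_singleton_left.2 (none_notMem_emb X)) ?_
      rw [wt_none_emb]
      exact h2'
    rwa [← insert_eq] at h4
  · refine (h i).mono ?_
    have h1 : ∀ x ∈ X, ∑ z ∈ Xᶜ, σ i x z ≤ ∑ z ∈ Xᶜ, σ' i x z := fun x hx =>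
      sum_le_sum fun z hz => hle x hx z (mem_compl.1 hz)
    intro a ha b hb
    cases a with
    | none =>
      cases b with
      | none => exact le_refl _
      | some y => exact h1 y (some_mem_hub.1 hb)
    | some x =>
      cases b with
      | none => exact h1 x (some_mem_hub.1 ha)
      | some y => exact le_refl _

/-- the combination of the colourings of the parts -/
theorem exists_comb {ι : Type*} (P : ι → Finset V)
    (hP : ∀ j k, j ≠ k → Disjoint (P j) (P k)) (c : ι → V → V → Bool)
    (hc : ∀ j x y, c j x y = c j y x) (ct : V → V → Bool) (hct : ∀ x y, ct x y = ct y x) :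
    ∃ col : V → V → Bool, (∀ x y, col x y = col y x) ∧
      (∀ j, ∀ x ∈ P j, ∀ y ∈ P j, col x y = c j x y) ∧
      ∀ x y, (∀ j, x ∈ P j → y ∉ P j) → col x y = ct x y := by
  classical
  refine ⟨fun x y => if h : ∃ j, x ∈ P j ∧ y ∈ P j then c h.choose x y else ct x y, ?_, ?_, ?_⟩
  · intro x y
    by_cases h : ∃ j, x ∈ P j ∧ y ∈ P j
    · have h' : ∃ j, y ∈ P j ∧ x ∈ P j := by
        obtain ⟨j, h1, h2⟩ := h
        exact ⟨j, h2, h1⟩
      have h3 : h.choose = h'.choose := by
        by_contra hne
        exact (Finset.disjoint_left.1 (hP _ _ hne)) h.choose_spec.1 h'.choose_spec.2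
      simp only [dif_pos h, dif_pos h']
      rw [← h3]
      exact hc _ _ _
    · have h' : ¬ ∃ j, y ∈ P j ∧ x ∈ P j := by
        rintro ⟨j, h1, h2⟩
        exact h ⟨j, h2, h1⟩
      simp only [dif_neg h, dif_neg h']
      exact hct x y
  · intro j x hx y hy
    have h : ∃ j, x ∈ P j ∧ y ∈ P j := ⟨j, hx, hy⟩
    have h3 : h.choose = j := by
      by_contra hne
      exact (Finset.disjoint_left.1 (hP _ _ hne)) h.choose_spec.1 hx
    simp only [dif_pos h]
    rw [h3]
  · intro x y h
    have h' : ¬ ∃ j, x ∈ P j ∧ y ∈ P j := by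
      rintro ⟨j, h1, h2⟩
      exact h j h1 h2
    simp only [dif_neg h']

end TB
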