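import Pool.Agent.Lib.MP_80160f_co.Ear

/-!
# MP_80160f_co : the spanning tree of Jaeger, Linial, Payan and Tarsi

For a cubic 3-edge-connected graph `H` and a vertex `v` there is a spanning tree `T` of `H - v` such
that the edges of `H - v` outside of `T` are a 2-base.
-/

set_option autoImplicit false
set_option linter.unusedSectionVars false

namespace TB

open Finset

variable {V : Type*} [DecidableEq V]

/-- a connected set all of whose edges have weight two is a cluster -/
theorem clu_of_conn {H : SimpleGraph V} {W : V → V → ℕ} {Q : Finset V} (hQ : ConnIn H Q)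
    (hne : Q.Nonempty) (hW : ∀ x ∈ Q, ∀ y ∈ Q, H.Adj x y → 2 ≤ W x y) : Clu W Q := by
  classical
  obtain ⟨q, hq⟩ := hne
  obtain ⟨A, hA, hmax⟩ := exists_max_image (Q.powerset.filter (Clu W)) card
    ⟨{q}, mem_filter.2 ⟨mem_powerset.2 (singleton_subset_iff.2 hq), Clu.single q⟩⟩
  obtain ⟨hAQ, hAc⟩ := mem_filter.1 hA
  rw [mem_powerset] at hAQ
  have h1 : A = Q := by
    refine Subset.antisymm hAQ ?_
    intro z hz
    by_contra hzA
    obtain ⟨a, ha⟩ := hAc.nonempty
    obtain ⟨x, hx, y, hy, hyA, hxy⟩ := hQ.exists_adj hAQ ha hz hzA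
    have h2 : Clu W (A ∪ {y}) := by
      refine Clu.merge A {y} hAc (Clu.single y) (disjoint_singleton_right.2 hyA) ?_
      calc 2 ≤ W x y := hW x (hAQ hx) y hy hxy
        _ = wt W {x} {y} := by
            unfold wt
            rw [sum_singleton, sum_singleton]
        _ ≤ _ := wt_sub (singleton_subset_iff.2 hx) (Subset.refl _)
    have h3 := hmax _ (mem_filter.2 ⟨mem_powerset.2 (union_subset hAQ
      (singleton_subset_iff.2 hy)), h2⟩)
    rw [card_union_of_disjoint (disjoint_singleton_right.2 hyA), card_singleton] at h3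
    omega
  exact h1 ▸ hAc

theorem ec_le_wt {H : SimpleGraph V} {W : V → V → ℕ} (hW : ∀ x y, H.Adj x y → 1 ≤ W x y)
    (A B : Finset V) : ec H A B ≤ wt W A B := by
  refine wt_mono fun a _ b _ => ?_
  by_cases h : H.Adj a b
  · rw [ew_adj h]
    exact hW a b h
  · rw [ew_not h]
    exact Nat.zero_le _

/-- the rooted tree of the unprocessed part -/
def Out (H : SimpleGraph V) (U : Finset V) (c : V) (out : V → V) (rk : V → ℕ) : Prop :=
  (∀ x, x ∉ U ∨ x = c → out x = x) ∧
    ∀ x ∈ U, x ≠ c → out x ∈ U ∧ H.Adj x (out x) ∧ rk x < rk (out x)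

theorem out_step {H : SimpleGraph V} {U Q : Finset V} {c : V} (hQU : Q ⊆ U.erase c)
    {out' : V → V} {rk' : V → ℕ} (h : Out H (U \ Q) c out' rk')
    (hQ : ∀ q ∈ Q, ec H {q} (U \ Q) = 1) :
    ∃ out rk, Out H U c out rk ∧ (∀ x ∈ Q, out x ∉ Q) ∧ ∀ x, x ∉ Q → out x = out' x := by
  classical
  have h1 : ∀ q : V, ∃ y, q ∈ Q → y ∈ U \ Q ∧ H.Adj q y := by
    intro q
    by_cases hq : q ∈ Q
    · obtain ⟨q', hq', y, hy, hqy⟩ := ec_pos (hQ q hq).ge
      rw [mem_singleton] at hq'
      exact ⟨y, fun _ => ⟨hy, hq' ▸ hqy⟩⟩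
    · exact ⟨q, fun h => absurd h hq⟩
  choose f hf using h1
  refine ⟨fun x => if x ∈ Q then f x else out' x, fun x => if x ∈ Q then 0 else rk' x + 1,
    ⟨?_, ?_⟩, ?_, ?_⟩
  · intro x hx
    have hxQ : x ∉ Q := by
      intro h2
      have h3 := mem_erase.1 (hQU h2)
      rcases hx with hx | hx
      · exact hx h3.2
      · exact h3.1 hx
    simp only [if_neg hxQ]
    apply h.1
    rcases hx with hx | hx
    · exact Or.inl fun h2 => hx (mem_sdiff.1 h2).1
    · exact Or.inr hx
  · intro x hx hxc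
    by_cases hxQ : x ∈ Q
    · obtain ⟨h2, h3⟩ := hf x hxQ
      simp only [if_pos hxQ, if_neg (mem_sdiff.1 h2).2]
      exact ⟨(mem_sdiff.1 h2).1, h3, Nat.succ_pos _⟩
    · obtain ⟨h2, h3, h4⟩ := h.2 x (mem_sdiff.2 ⟨hx, hxQ⟩) hxc
      simp only [if_neg hxQ, if_neg (mem_sdiff.1 h2).2]
      exact ⟨(mem_sdiff.1 h2).1, h3, Nat.succ_lt_succ h4⟩
  · intro x hx
    simp only [if_pos hx]
    exact (mem_sdiff.1 (hf x hx).1).2
  · intro x hx
    simp only [if_neg hx]

variable [Fintype V]

theorem jlpt_aux {H : SimpleGraph V} (h : Cubic3 H) (v : V) : ∀ (n : ℕ) (U : Finset V) (c : V),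
    U.card = n → c ∈ U → ConnIn H U → (∃ y, y ∉ U ∧ H.Adj c y) → v ∉ U →
    (∀ x ∈ U, x ≠ c → ¬ H.Adj x v) →
    ∃ (out : V → V) (rk : V → ℕ), Out H U c out rk ∧
      ∀ W : V → V → ℕ, (∀ x y, H.Adj x y → 1 ≤ W x y) →
        (∀ x ∈ U, ∀ y ∈ U, H.Adj x y → out x ≠ y → out y ≠ x → 2 ≤ W x y) →
        Clu W (Uᶜ.erase v) → Clu W (univ.erase v) := by
  intro n
  induction n using Nat.strong_induction_on with
  | _ n ih =>
  intro U c hn hc hU hcv hvU hv
  by_cases hne : ∃ x ∈ U, x ≠ c
  · obtain ⟨Q, hQU, hQne, hQc, hUQ, hQ2, hQ1⟩ := ear h hc hU hne hcv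
    have hQU' : Q ⊆ U := hQU.trans (erase_subset _ _)
    have hcard : (U \ Q).card < n := by
      rw [← hn]
      exact card_lt_card (sdiff_ssubset hQU' hQne)
    have hcQ : c ∈ U \ Q := mem_sdiff.2 ⟨hc, fun h1 => (mem_erase.1 (hQU h1)).1 rfl⟩
    obtain ⟨out', rk', ho, hW'⟩ := ih _ hcard (U \ Q) c rfl hcQ hUQ (by
      obtain ⟨y, hy, hcy⟩ := hcv
      exact ⟨y, fun h1 => hy (mem_sdiff.1 h1).1, hcy⟩) (fun h1 => hvU (mem_sdiff.1 h1).1)
      (fun x hx => hv x (mem_sdiff.1 hx).1)
    obtain ⟨out, rk, h1, h2, h3⟩ := out_step hQU ho hQ1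
    refine ⟨out, rk, h1, ?_⟩
    intro W hW1 hW2 hK
    have hQW : Clu W Q := by
      refine clu_of_conn hQc hQne fun x hx y hy hxy => hW2 x (hQU' hx) y (hQU' hy) hxy ?_ ?_
      · exact fun h4 => h2 x hx (h4 ▸ hy)
      · exact fun h4 => h2 y hy (h4 ▸ hx)
    have hd : Disjoint (Uᶜ.erase v) Q := by
      rw [Finset.disjoint_left]
      intro z hz hz'
      exact (mem_compl.1 (mem_erase.1 hz).2) (hQU' hz')
    have h4 : 2 ≤ wt W (Uᶜ.erase v) Q := by
      refine le_trans ?_ (ec_le_wt hW1 _ _)
      have h5 : ec H Q Uᶜ = ec H Q {v} + ec H Q (Uᶜ.erase v) := by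
        rw [← ec_union_right H Q (disjoint_singleton_left.2 (notMem_erase v _)), ← insert_eq,
          insert_erase (mem_compl.2 hvU)]
      have h6 : ec H Q {v} = 0 := by
        apply ec_eq_zero
        intro a ha b hb
        rw [mem_singleton] at hb
        rw [hb]
        exact hv a (hQU' ha) (mem_erase.1 (hQU ha)).1
      rw [ec_comm]
      omega
    refine hW' W hW1 ?_ (hK.union hQW hd h4 ?_)
    · intro x hx y hy hxy h5 h6
      rw [← h3 x (mem_sdiff.1 hx).2] at h5
      rw [← h3 y (mem_sdiff.1 hy).2] at h6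
      exact hW2 x (mem_sdiff.1 hx).1 y (mem_sdiff.1 hy).1 hxy h5 h6
    · ext z
      simp only [mem_union, mem_erase, mem_compl, mem_sdiff, not_and, not_not]
      constructor
      · rintro (h5 | h5)
        · exact ⟨h5.1, fun h6 => absurd h6 h5.2⟩
        · exact ⟨fun h6 => hvU (h6 ▸ hQU' h5), fun _ => h5⟩
      · rintro ⟨h5, h6⟩
        by_cases h7 : z ∈ U
        · exact Or.inr (h6 h7)
        · exact Or.inl ⟨h5, h7⟩
  · have hU1 : U = {c} := by
      ext z
      rw [mem_singleton]
      constructor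
      · intro hz
        by_contra h1
        exact hne ⟨z, hz, h1⟩
      · rintro rfl
        exact hc
    refine ⟨id, fun _ => 0, ⟨fun _ _ => rfl, fun x hx hxc => absurd ⟨x, hx, hxc⟩ hne⟩, ?_⟩
    intro W hW1 _ hK
    have hcv' : c ≠ v := fun h1 => hvU (h1 ▸ hc)
    refine hK.union (Clu.single c) ?_ ?_ ?_
    · rw [disjoint_singleton_right]
      exact fun h1 => (mem_compl.1 (mem_erase.1 h1).2) hc
    · refine le_trans ?_ (ec_le_wt hW1 _ _)
      rw [ec_comm]
      have h1 : ec H {c} {c} + ec H {c} {v} + ec H {c} (Uᶜ.erase v) = 3 := by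
        refine h.deg_eq (disjoint_singleton.2 hcv') ?_ ?_
        · rw [Finset.disjoint_left]
          intro z hz hz'
          rcases mem_union.1 hz with h1 | h1
          · rw [mem_singleton] at h1
            exact (mem_compl.1 (mem_erase.1 hz').2) (h1 ▸ hc)
          · rw [mem_singleton] at h1
            exact (mem_erase.1 hz').1 h1
        · ext z
          rw [hU1]
          simp only [mem_union, mem_singleton, mem_erase, mem_compl, mem_univ, iff_true]
          by_cases h1 : z = c
          · exact Or.inl (Or.inl h1)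
          · by_cases h2 : z = v
            · exact Or.inl (Or.inr h2)
            · exact Or.inr ⟨h2, h1⟩
      have h2 : ec H {c} {c} = 0 := by
        rw [ec_single, sum_singleton]
        exact ew_not (H.loopless.irrefl c)
      have h3 : ec H {c} {v} ≤ 1 := by
        rw [ec_single, sum_singleton]
        exact ew_le H c v
      omega
    · ext z
      rw [hU1]
      simp only [mem_union, mem_singleton, mem_erase, mem_compl, mem_univ, and_true]
      constructor
      · rintro (h1 | h1)
        · exact h1.1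
        · exact h1 ▸ hcv'
      · intro h1
        by_cases h2 : z = c
        · exact Or.inr h2
        · exact Or.inl ⟨h1, h2⟩

/-- the tree of the pointers -/
def outG (H : SimpleGraph V) (out : V → V) : SimpleGraph V where
  Adj x y := H.Adj x y ∧ (out x = y ∨ out y = x)
  symm := ⟨fun _ _ h => ⟨h.1.symm, h.2.symm⟩⟩
  loopless := ⟨fun _ h => H.loopless.irrefl _ h.1⟩

theorem outG_acyclic {H : SimpleGraph V} {U : Finset V} {c : V} {out : V → V} {rk : V → ℕ}
    (h : Out H U c out rk) : (outG H out).IsAcyclic := by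
  classical
  intro u C hC
  obtain ⟨x, hx, hmin⟩ := exists_min_image C.support.toFinset rk
    ⟨u, List.mem_toFinset.2 C.start_mem_support⟩
  rw [List.mem_toFinset] at hx
  have hC' := hC.rotate hx
  have hsup : ∀ y ∈ (C.rotate x hx).support, rk x ≤ rk y := by
    intro y hy
    apply hmin
    rw [List.mem_toFinset]
    exact (SimpleGraph.Walk.mem_support_rotate_iff C x hx).1 hy
  have hnn := hC'.not_nil
  have key : ∀ y, (outG H out).Adj x y → rk x ≤ rk y → out x = y := by
    intro y hxy hr
    rcases hxy.2 with h1 | h1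
    · exact h1
    · exfalso
      have h2 : y ∈ U ∧ y ≠ c := by
        by_contra h3
        have h4 : y ∉ U ∨ y = c := by
          by_cases h5 : y ∈ U
          · right
            by_contra h6
            exact h3 ⟨h5, h6⟩
          · exact Or.inl h5
        have h5 := h.1 y h4
        rw [h5] at h1
        exact (outG H out).ne_of_adj hxy h1.symm
      have h3 := (h.2 y h2.1 h2.2).2.2
      rw [h1] at h3
      omega
  have h1 := key _ ((C.rotate x hx).adj_snd hnn) (hsup _ (SimpleGraph.Walk.getVert_mem_support _ _))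
  have h2 := key _ ((C.rotate x hx).adj_penultimate hnn).symm
    (hsup _ (SimpleGraph.Walk.getVert_mem_support _ _))
  exact hC'.snd_ne_penultimate (h1.symm.trans h2)

theorem outG_conn {H : SimpleGraph V} {U : Finset V} {c : V} {out : V → V} {rk : V → ℕ}
    (h : Out H U c out rk) : ConnIn (outG H out) U := by
  have key : ∀ n, ∀ x ∈ U, univ.sup rk - rk x = n → (inG (outG H out) U).Reachable x c := by
    intro n
    induction n using Nat.strong_induction_on with
    | _ n ih =>
    intro x hx hn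
    by_cases hxc : x = c
    · rw [hxc]
    · obtain ⟨h1, h2, h3⟩ := h.2 x hx hxc
      have h4 : rk (out x) ≤ univ.sup rk := le_sup (f := rk) (mem_univ _)
      have h5 := ih (univ.sup rk - rk (out x)) (by omega) (out x) h1 rfl
      have h6 : (inG (outG H out) U).Adj x (out x) := ⟨⟨h2, Or.inl rfl⟩, hx, h1⟩
      exact h6.reachable.trans h5
  intro x hx y hy
  exact (key _ x hx rfl).trans (key _ y hy rfl).symm

/-- the weights: `2` for the edges outside of the tree, and `1` for the edges of the tree -/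
noncomputable def cotW (H T : SimpleGraph V) (x y : V) : ℕ := by
  classical
  exact if H.Adj x y then (if T.Adj x y then 1 else 2) else 0

/-- `H - v` is connected -/
theorem Cubic3.conn_erase {H : SimpleGraph V} (h : Cubic3 H) (v : V) :
    ConnIn H (univ.erase v) := by
  have hco : (univ.erase v : Finset V)ᶜ = {v} := by
    ext z
    simp
  have key : ∀ x ∈ univ.erase v, comp H (univ.erase v) x = univ.erase v := by
    intro x hx
    refine Subset.antisymm (comp_sub _ _ _) ?_
    intro z hz
    by_contra hcon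
    have h1 := h.cut_comp hx (by rw [hco]; exact singleton_nonempty v)
    have h2 := h.cut_comp hz (by rw [hco]; exact singleton_nonempty v)
    rw [hco, ec_comm] at h1 h2
    have h3 : Disjoint (comp H (univ.erase v) x) (comp H (univ.erase v) z) := by
      rw [Finset.disjoint_left]
      intro y hy hy'
      have h4 := (mem_comp.1 hy).2.trans (mem_comp.1 hy').2.symm
      exact hcon (mem_comp.2 ⟨hz, h4⟩)
    have h4 := h.deg_split2 (x := v) h3
    omega
  intro x hx y hy
  have h1 : y ∈ comp H (univ.erase v) x := by rw [key x hx]; exact hy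
  exact (mem_comp.1 h1).2

/-- **the tree of Jaeger, Linial, Payan and Tarsi** -/
theorem jlpt {H : SimpleGraph V} (h : Cubic3 H) (v : V) :
    ∃ T : SimpleGraph V, T ≤ H ∧ T.IsAcyclic ∧ ConnIn T (univ.erase v) ∧ (∀ x, ¬ T.Adj x v) ∧
      Clu (cotW H T) (univ.erase v) := by
  classical
  have hco : (univ.erase v : Finset V)ᶜ = {v} := by
    ext z
    simp
  -- a neighbour of `v`
  have hdv := h.deg v
  rw [← ec_single] at hdv
  obtain ⟨v', hv', c, -, hvc⟩ := ec_pos (H := H) (A := {v}) (B := univ) (by omega)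
  rw [mem_singleton] at hv'
  rw [hv'] at hvc
  have hcv : c ≠ v := fun h1 => H.loopless.irrefl v (h1 ▸ hvc)
  have hc : c ∈ univ.erase v := mem_erase.2 ⟨hcv, mem_univ _⟩
  have hdc := h.deg c
  rw [← ec_single] at hdc
  have hne : ∃ x ∈ univ.erase v, x ≠ c := by
    have h1 : ec H {c} univ = ec H {c} {v} + ec H {c} (univ.erase v) := by
      rw [← ec_union_right H _ (disjoint_singleton_left.2 (notMem_erase v _)), ← insert_eq,
        insert_erase (mem_univ v)]
    have h2 : ec H {c} {v} ≤ 1 := by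
      rw [ec_single, sum_singleton]
      exact ew_le H c v
    obtain ⟨c', hc', x, hx, hcx⟩ := ec_pos (H := H) (A := {c}) (B := univ.erase v) (by omega)
    rw [mem_singleton] at hc'
    rw [hc'] at hcx
    exact ⟨x, hx, fun h1 => H.loopless.irrefl c (h1 ▸ hcx)⟩
  obtain ⟨Q, hQU, hQne, hQc, hUQ, hQ2, hQ1⟩ := ear h hc (h.conn_erase v) hne
    ⟨v, notMem_erase v _, hvc.symm⟩
  have hcQ : c ∉ Q := fun h1 => (mem_erase.1 (hQU h1)).1 rfl
  have hvQ : v ∉ Q := fun h1 => (mem_erase.1 (mem_erase.1 (hQU h1)).2).1 rfl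
  rw [hco, ec_comm] at hQ2
  have hcQ' : c ∈ univ.erase v \ Q := mem_sdiff.2 ⟨hc, hcQ⟩
  obtain ⟨out', rk', ho, hW'⟩ := jlpt_aux h v _ (univ.erase v \ Q) c rfl hcQ' hUQ
    ⟨v, fun h1 => (mem_erase.1 (mem_sdiff.1 h1).1).1 rfl, hvc.symm⟩
    (fun h1 => (mem_erase.1 (mem_sdiff.1 h1).1).1 rfl) (by
      intro x hx hxc hxv
      have hd : Disjoint Q {c} := disjoint_singleton_right.2 hcQ
      have hd2 : Disjoint (Q ∪ {c}) {x} := by
        rw [disjoint_singleton_right, mem_union, mem_singleton, not_or]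
        exact ⟨(mem_sdiff.1 hx).2, hxc⟩
      have h1 := h.deg_split (x := v) hd hd2
      have h2 := one_le_ec (mem_singleton_self v) (mem_singleton_self c) hvc
      have h3 := one_le_ec (mem_singleton_self v) (mem_singleton_self x) hxv.symm
      omega)
  obtain ⟨out, rk, h1, h2, h3⟩ := out_step hQU ho hQ1
  have hvo : ∀ x, out x = v → x = v := by
    intro x hx
    by_contra hxv
    by_cases hxc : x = c
    · have h4 := h1.1 x (Or.inr hxc)
      exact hxv (h4 ▸ hx)
    · have h4 := (h1.2 x (mem_erase.2 ⟨hxv, mem_univ _⟩) hxc).1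
      rw [hx] at h4
      exact (mem_erase.1 h4).1 rfl
  refine ⟨outG H out, fun _ _ h4 => h4.1, outG_acyclic h1, outG_conn h1, ?_, ?_⟩
  · intro x hx
    have h4 := h1.1 v (Or.inl (notMem_erase v _))
    rcases hx.2 with h5 | h5
    · exact (outG H out).ne_of_adj hx (hvo x h5)
    · rw [h4] at h5
      exact (outG H out).ne_of_adj hx h5.symm
  · apply hW'
    · intro x y hxy
      unfold cotW
      rw [if_pos hxy]
      split_ifs <;> omega
    · intro x hx y hy hxy h5 h6
      rw [← h3 x (mem_sdiff.1 hx).2] at h5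
      rw [← h3 y (mem_sdiff.1 hy).2] at h6
      unfold cotW
      rw [if_pos hxy, if_neg]
      rintro ⟨-, h7 | h7⟩
      · exact h5 h7
      · exact h6 h7
    · have h4 : (univ.erase v \ Q)ᶜ.erase v = Q := by
        ext z
        simp only [mem_erase, mem_compl, mem_sdiff, mem_univ, and_true, not_and, not_not]
        constructor
        · rintro ⟨h5, h6⟩
          exact h6 h5
        · intro h5
          exact ⟨fun h6 => hvQ (h6 ▸ h5), fun _ => h5⟩
      rw [h4]
      refine clu_of_conn hQc hQne fun x hx y hy hxy => ?_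
      unfold cotW
      rw [if_pos hxy, if_neg]
      rintro ⟨-, h7 | h7⟩
      · exact h2 x hx (h7 ▸ hy)
      · exact h2 y hy (h7 ▸ hx)

end TB
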