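import Pool.Agent.Lib.MP_80160f_co.Inst

/-!
# MP_80160f_co : the sides of the tree edges
-/

set_option autoImplicit false
set_option linter.unusedSectionVars false

namespace TB

open Finset

variable {V : Type*} [DecidableEq V]

/-- the two sides of the tree edge `p q` -/
structure Split (T : SimpleGraph V) (X P Q : Finset V) (p q : V) : Prop where
  un : P ∪ Q = X
  dis : Disjoint P Q
  cP : ConnIn T P
  cQ : ConnIn T Q
  hp : p ∈ P
  hq : q ∈ Q
  adj : T.Adj p q
  uniq : ∀ a ∈ P, ∀ b ∈ Q, T.Adj a b → a = p ∧ b = q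

namespace Split

variable {T : SimpleGraph V} {X P Q Q1 Q2 : Finset V} {p q a b : V}

theorem symm (h : Split T X P Q p q) : Split T X Q P q p where
  un := by rw [union_comm]; exact h.un
  dis := h.dis.symm
  cP := h.cQ
  cQ := h.cP
  hp := h.hq
  hq := h.hp
  adj := h.adj.symm
  uniq := fun x hx y hy hxy => (h.uniq y hy x hx hxy.symm).symm

theorem subP (h : Split T X P Q p q) : P ⊆ X := h.un ▸ subset_union_left

theorem subQ (h : Split T X P Q p q) : Q ⊆ X := h.un ▸ subset_union_right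

theorem pX (h : Split T X P Q p q) : p ∈ X := h.subP h.hp

theorem qX (h : Split T X P Q p q) : q ∈ X := h.subQ h.hq

theorem notP (h : Split T X P Q p q) {x : V} (hx : x ∈ Q) : x ∉ P := fun h1 =>
  (Finset.disjoint_left.1 h.dis) h1 hx

theorem notQ (h : Split T X P Q p q) {x : V} (hx : x ∈ P) : x ∉ Q := fun h1 =>
  (Finset.disjoint_left.1 h.dis) hx h1

theorem mem_or (h : Split T X P Q p q) {x : V} (hx : x ∈ X) : x ∈ P ∨ x ∈ Q := by
  rw [← h.un] at hx
  exact mem_union.1 hx

theorem cX (h : Split T X P Q p q) : ConnIn T X := by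
  rw [← h.un]
  exact h.cP.union h.cQ h.hp h.hq h.adj

theorem sdiffP (h : Split T X P Q p q) : X \ P = Q := by
  ext x
  rw [mem_sdiff]
  constructor
  · rintro ⟨h1, h2⟩
    rcases h.mem_or h1 with h3 | h3
    · exact absurd h3 h2
    · exact h3
  · intro h1
    exact ⟨h.subQ h1, h.notP h1⟩

theorem sdiffQ (h : Split T X P Q p q) : X \ Q = P := h.symm.sdiffP

theorem cardP (h : Split T X P Q p q) : P.card < X.card :=
  card_lt_card ⟨h.subP, fun h1 => h.notP h.hq (h1 h.qX)⟩

theorem cardQ (h : Split T X P Q p q) : Q.card < X.card := h.symm.cardP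

/-- splitting the second part further -/
theorem assoc (h : Split T X P Q p q) (h' : Split T Q Q1 Q2 a b) (hq : q ∈ Q1) :
    Split T X (P ∪ Q1) Q2 a b where
  un := by rw [union_assoc, h'.un, h.un]
  dis := disjoint_union_left.2 ⟨h.dis.mono_right h'.subQ, h'.dis⟩
  cP := h.cP.union h'.cP h.hp hq h.adj
  cQ := h'.cQ
  hp := mem_union_right _ h'.hp
  hq := h'.hq
  adj := h'.adj
  uniq := by
    intro x hx y hy hxy
    rcases mem_union.1 hx with hx | hx
    · exfalso
      have h1 := (h.uniq x hx y (h'.subQ hy) hxy).2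
      rw [h1] at hy
      exact h'.notQ hq hy
    · exact h'.uniq x hx y hy hxy

end Split

/-- the branch at `q` of the tree without the vertex `p` -/
noncomputable def br (T : SimpleGraph V) (X : Finset V) (p q : V) : Finset V :=
  comp T (X.erase p) q

theorem br_sub (T : SimpleGraph V) (X : Finset V) (p q : V) : br T X p q ⊆ X.erase p :=
  comp_sub _ _ _

theorem split_br {T : SimpleGraph V} (hT : T.IsAcyclic) {X : Finset V} (hX : ConnIn T X)
    {p q : V} (hp : p ∈ X) (hq : q ∈ X) (h : T.Adj p q) :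
    Split T X (X \ br T X p q) (br T X p q) p q := by
  have hsub : br T X p q ⊆ X := (br_sub T X p q).trans (erase_subset _ _)
  have hpn : p ∉ br T X p q := fun h1 => (mem_erase.1 (br_sub T X p q h1)).1 rfl
  have hqe : q ∈ X.erase p := mem_erase.2 ⟨h.ne', hq⟩
  refine ⟨sdiff_union_of_subset hsub, sdiff_disjoint, ?_, comp_conn _ _ _,
    mem_sdiff.2 ⟨hp, hpn⟩, self_mem_comp hqe, h, ?_⟩
  · have h1 := sdiff_comp_conn (q := q) hX (connIn_single T p) (singleton_subset_iff.2 hp)
      ⟨p, mem_singleton_self p⟩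
    rwa [sdiff_singleton_eq_erase] at h1
  · intro a ha b hb hab
    have hap : a = p := by
      by_contra hne
      exact (mem_sdiff.1 ha).2 (comp_adj hb (mem_erase.2 ⟨hne, (mem_sdiff.1 ha).1⟩) hab.symm)
    refine ⟨hap, ?_⟩
    by_contra hbq
    rw [hap] at hab
    -- a second way from `p` to `q`
    have h1 := (SimpleGraph.isAcyclic_iff_forall_adj_isBridge.1 hT) h
    rw [SimpleGraph.isBridge_iff] at h1
    apply h1
    have h2 : inG T (X.erase p) ≤ T \ SimpleGraph.fromEdgeSet {s(p, q)} := by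
      intro x y hxy
      rw [SimpleGraph.sdiff_adj, SimpleGraph.fromEdgeSet_adj]
      refine ⟨hxy.1, ?_⟩
      rintro ⟨h3, -⟩
      rw [Set.mem_singleton_iff, Sym2.eq_iff] at h3
      rcases h3 with ⟨h3, -⟩ | ⟨-, h3⟩
      · exact (mem_erase.1 hxy.2.1).1 h3
      · exact (mem_erase.1 hxy.2.2).1 h3
    have h3 : (T \ SimpleGraph.fromEdgeSet {s(p, q)}).Adj p b := by
      rw [SimpleGraph.sdiff_adj, SimpleGraph.fromEdgeSet_adj]
      refine ⟨hab, ?_⟩
      rintro ⟨h4, -⟩
      rw [Set.mem_singleton_iff, Sym2.eq_iff] at h4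
      rcases h4 with ⟨-, h4⟩ | ⟨h4, -⟩
      · exact hbq h4
      · exact h.ne h4
    exact h3.reachable.trans (((mem_comp.1 hb).2.symm).mono h2)

theorem exists_split {T : SimpleGraph V} (hT : T.IsAcyclic) {X : Finset V} (hX : ConnIn T X)
    {p q : V} (hp : p ∈ X) (hq : q ∈ X) (h : T.Adj p q) : ∃ P Q, Split T X P Q p q :=
  ⟨_, _, split_br hT hX hp hq h⟩

/-- the sides are unique -/
theorem Split.br_eq {T : SimpleGraph V} {X P Q : Finset V} {p q : V} (h : Split T X P Q p q) :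
    br T X p q = Q := by
  refine Subset.antisymm ?_ ?_
  · intro z hz
    by_contra hzQ
    have hqe : q ∈ X.erase p := mem_erase.2 ⟨h.adj.ne', h.qX⟩
    obtain ⟨x, hx, y, hy, hyA, hxy⟩ := (comp_conn T (X.erase p) q).exists_adj
      (A := comp T (X.erase p) q ∩ Q) inter_subset_left
      (mem_inter.2 ⟨self_mem_comp hqe, h.hq⟩) hz (fun h1 => hzQ (mem_inter.1 h1).2)
    have hyX := mem_erase.1 (comp_sub _ _ _ hy)
    rcases h.mem_or hyX.2 with h1 | h1
    · exact hyX.1 (h.uniq y h1 x (mem_inter.1 hx).2 hxy.symm).1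
    · exact hyA (mem_inter.2 ⟨hy, h1⟩)
  · have h1 : Q ⊆ X.erase p := fun z hz => mem_erase.2 ⟨fun h2 => h.notQ h.hp (h2 ▸ hz), h.subQ hz⟩
    exact h.cQ.sub_comp h1 h.hq (self_mem_comp (h1 h.hq))

/-- the neighbours in the tree -/
noncomputable def nbT (T : SimpleGraph V) (X : Finset V) (v : V) : Finset V := by
  classical
  exact X.filter fun w => T.Adj v w

theorem mem_nbT {T : SimpleGraph V} {X : Finset V} {v w : V} :
    w ∈ nbT T X v ↔ w ∈ X ∧ T.Adj v w := by
  classical
  unfold nbT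
  exact mem_filter

theorem br_disjoint {T : SimpleGraph V} (hT : T.IsAcyclic) {X : Finset V} (hX : ConnIn T X)
    {v : V} (hv : v ∈ X) : ∀ w ∈ nbT T X v, ∀ w' ∈ nbT T X v, w ≠ w' →
      Disjoint (br T X v w) (br T X v w') := by
  intro w hw w' hw' hne
  rw [mem_nbT] at hw hw'
  rw [Finset.disjoint_left]
  intro z hz hz'
  have h1 : w' ∈ br T X v w := by
    have h2 := (mem_comp.1 hz).2.trans (mem_comp.1 hz').2.symm
    exact mem_comp.2 ⟨mem_erase.2 ⟨hw'.2.ne', hw'.1⟩, h2⟩
  have h2 := split_br hT hX hv hw.1 hw.2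
  exact hne (h2.uniq v h2.hp w' h1 hw'.2).2.symm

theorem br_union {T : SimpleGraph V} {X : Finset V} (hX : ConnIn T X)
    {v : V} (hv : v ∈ X) : (nbT T X v).biUnion (br T X v) = X.erase v := by
  ext z
  rw [mem_biUnion]
  constructor
  · rintro ⟨w, -, hz⟩
    exact br_sub _ _ _ _ hz
  · intro hz
    have h1 : comp T (X.erase v) z ⊆ X := (comp_sub _ _ _).trans (erase_subset _ _)
    obtain ⟨x, hx, y, hy, hyc, hxy⟩ := hX.exists_adj h1 (self_mem_comp hz) hv
      (fun h2 => (mem_erase.1 (comp_sub _ _ _ h2)).1 rfl)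
    have h2 : y = v := by
      by_contra hne
      exact hyc (comp_adj hx (mem_erase.2 ⟨hne, hy⟩) hxy)
    rw [h2] at hxy
    exact ⟨x, mem_nbT.2 ⟨h1 hx, hxy.symm⟩, mem_comp.2 ⟨hz, (mem_comp.1 hx).2.symm⟩⟩

theorem sum_branches {T : SimpleGraph V} (hT : T.IsAcyclic) {X : Finset V} (hX : ConnIn T X)
    {v : V} (hv : v ∈ X) (g : V → ℕ) :
    ∑ x ∈ X, g x = g v + ∑ w ∈ nbT T X v, ∑ x ∈ br T X v w, g x := by
  rw [← add_sum_erase X g hv, ← br_union hX hv, sum_biUnion]
  intro w hw w' hw' hne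
  exact br_disjoint hT hX hv w (mem_coe.1 hw) w' (mem_coe.1 hw') hne

/-- minimal elements -/
theorem exists_min_nat {α : Type*} (f : α → ℕ) (p : α → Prop) (h : ∃ a, p a) :
    ∃ a, p a ∧ ∀ b, p b → f a ≤ f b := by
  classical
  have h1 : ∃ n, ∃ a, p a ∧ f a = n := by
    obtain ⟨a, ha⟩ := h
    exact ⟨f a, a, ha, rfl⟩
  obtain ⟨a, ha, hfa⟩ := Nat.find_spec h1
  refine ⟨a, ha, fun b hb => ?_⟩
  rw [hfa]
  exact Nat.find_min' h1 ⟨b, hb, rfl⟩

/-- **a sink** : every tree edge has a big side; there is a vertex such that all the tree edges at it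
have a big side which contains it -/
theorem exists_sink {T : SimpleGraph V} (hT : T.IsAcyclic) {X : Finset V} (hX : ConnIn T X)
    (hne : X.Nonempty) (B : Finset V → Prop)
    (hB : ∀ P Q p q, Split T X P Q p q → B P ∨ B Q) :
    ∃ v ∈ X, ∀ w ∈ nbT T X v, B (X \ br T X v w) := by
  by_cases hex : ∃ t : (Finset V × Finset V) × (V × V), Split T X t.1.1 t.1.2 t.2.1 t.2.2 ∧ B t.1.1
  · obtain ⟨⟨⟨P, Q⟩, ⟨p, q⟩⟩, ⟨hs, hBP⟩, hmin⟩ := exists_min_nat
      (fun t : (Finset V × Finset V) × (V × V) => t.1.1.card) _ hex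
    simp only at hs hBP hmin
    refine ⟨p, hs.pX, ?_⟩
    intro w hw
    rw [mem_nbT] at hw
    have hs' := split_br hT hX hs.pX hw.1 hw.2
    rcases hB _ _ _ _ hs' with h1 | h1
    · exact h1
    · -- the branch at `w` is big
      by_cases hwq : w = q
      · rw [hwq, hs.br_eq] at h1 ⊢
        rw [hs.sdiffQ]
        exact hBP
      · exfalso
        have h2 : P.card ≤ (br T X p w).card :=
          hmin ((br T X p w, X \ br T X p w), (w, p)) ⟨hs'.symm, h1⟩
        have hwP : w ∈ P := by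
          rcases hs.mem_or hw.1 with h3 | h3
          · exact h3
          · exact absurd (hs.uniq p hs.hp w h3 hw.2).2 hwq
        have h3 := split_br hT hs.cP hs.hp hwP hw.2
        have h4 := hs.symm.assoc h3 h3.hp
        rw [h4.br_eq] at h2
        have h5 := h3.cardQ
        omega
  · obtain ⟨v, hv⟩ := hne
    refine ⟨v, hv, ?_⟩
    intro w hw
    rw [mem_nbT] at hw
    have hs' := split_br hT hX hv hw.1 hw.2
    exfalso
    rcases hB _ _ _ _ hs' with h1 | h1
    · exact hex ⟨⟨⟨_, _⟩, ⟨_, _⟩⟩, hs', h1⟩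
    · exact hex ⟨⟨⟨_, _⟩, ⟨_, _⟩⟩, hs'.symm, h1⟩

end TB
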