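import Pool.Agent.Lib.MP_80160f_co.Clu

/-!
# MP_80160f_co : tight clusters and values which only the zero flow avoids
-/

set_option autoImplicit false
set_option linter.unusedSectionVars false

namespace TB

open Finset

variable {α : Type*} [DecidableEq α]

/-- a sum with total weight two -/
theorem zero_of_two {ι : Type*} (S : Finset ι) (w : ι → ℕ) (g : ι → ZMod 3)
    (hw : ∑ i ∈ S, w i = 2) (h0 : ∀ i ∈ S, w i = 0 → g i = 0) (h1 : ∀ i ∈ S, w i = 1 → g i ≠ 1)
    (hs : ∑ i ∈ S, g i = 0) : ∀ i ∈ S, g i = 0 := by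
  classical
  intro i hi
  by_contra hgi
  have hwi : w i ≠ 0 := fun h => hgi (h0 i hi h)
  rw [← add_sum_erase S w hi] at hw
  rw [← add_sum_erase S g hi] at hs
  by_cases h2 : w i = 1
  · have h3 : g i = 2 := by
      have h4 := h1 i hi h2
      revert h4 hgi
      generalize g i = z
      revert z
      decide
    have h5 : ∑ j ∈ S.erase i, g j = 1 := by
      rw [h3] at hs
      revert hs
      generalize ∑ j ∈ S.erase i, g j = z
      revert z
      decide
    obtain ⟨j, hj, hgj⟩ : ∃ j ∈ S.erase i, g j ≠ 0 := by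
      by_contra hcon
      rw [sum_eq_zero fun j hj => by
        by_contra h6
        exact hcon ⟨j, hj, h6⟩] at h5
      exact absurd h5 (by decide)
    have hjS := mem_of_mem_erase hj
    have hwj : w j ≠ 0 := fun h => hgj (h0 j hjS h)
    rw [← add_sum_erase _ w hj] at hw
    rw [← add_sum_erase _ g hj] at h5
    have h6 : ∑ k ∈ (S.erase i).erase j, w k = 0 := by omega
    rw [sum_eq_zero_iff] at h6
    have h7 : ∑ k ∈ (S.erase i).erase j, g k = 0 :=
      sum_eq_zero fun k hk => h0 k (mem_of_mem_erase (mem_of_mem_erase hk)) (h6 k hk)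
    rw [h7, add_zero] at h5
    exact h1 j hjS (by omega) h5
  · have h3 : ∑ j ∈ S.erase i, w j = 0 := by omega
    rw [sum_eq_zero_iff] at h3
    have h4 : ∑ j ∈ S.erase i, g j = 0 :=
      sum_eq_zero fun j hj => h0 j (mem_of_mem_erase hj) (h3 j hj)
    rw [h4, add_zero] at hs
    exact hgi hs

theorem eq_zero_of_neg {z : ZMod 3} (h : z = -z) : z = 0 := by
  revert z
  decide

/-- the sum of an antisymmetric function over a square is zero -/
theorem sum_square {φ : α → α → ZMod 3} (h : ∀ x y, φ y x = -φ x y) (A : Finset α) :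
    ∑ x ∈ A, ∑ y ∈ A, φ x y = 0 := by
  apply eq_zero_of_neg
  calc ∑ x ∈ A, ∑ y ∈ A, φ x y = ∑ y ∈ A, ∑ x ∈ A, φ x y := sum_comm
    _ = ∑ y ∈ A, ∑ x ∈ A, -φ y x := sum_congr rfl fun y _ => sum_congr rfl fun x _ => h y x
    _ = -∑ y ∈ A, ∑ x ∈ A, φ y x := by
        rw [← sum_neg_distrib]
        exact sum_congr rfl fun y _ => sum_neg_distrib _

theorem wt_sq {W : α → α → ℕ} (hW : ∀ a b, W a b = W b a) {A B : Finset α} (h : Disjoint A B) :
    wt W (A ∪ B) (A ∪ B) = wt W A A + wt W B B + 2 * wt W A B := by
  rw [wt_union_left W h, wt_union_right W _ h, wt_union_right W _ h, wt_comm hW B A]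
  ring

/-- the total weight of a cluster -/
theorem Clu.total {W : α → α → ℕ} (hW : ∀ a b, W a b = W b a) {U : Finset α} (h : Clu W U) :
    4 * U.card ≤ wt W U U + 4 := by
  induction h with
  | single a =>
    rw [card_singleton]
    omega
  | merge A B _ _ hd hw ihA ihB =>
    rw [wt_sq hW hd, card_union_of_disjoint hd]
    omega

/-- **in a tight cluster there are nonzero values which only the zero flow avoids** -/
theorem Clu.avoid {W : α → α → ℕ} (hW : ∀ a b, W a b = W b a) {U : Finset α} (h : Clu W U)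
    (ht : wt W U U + 4 ≤ 4 * U.card) :
    ∃ c : α → α → ZMod 3, (∀ x y, c y x = -c x y) ∧ (∀ x ∈ U, ∀ y ∈ U, x ≠ y → c x y ≠ 0) ∧
      ∀ φ : α → α → ZMod 3, (∀ x y, φ y x = -φ x y) → (∀ x y, W x y = 0 → φ x y = 0) →
        (∀ x ∈ U, ∑ y ∈ U, φ x y = 0) →
        (∀ x ∈ U, ∀ y ∈ U, W x y = 1 → φ x y ≠ c x y) → ∀ x ∈ U, ∀ y ∈ U, φ x y = 0 := by
  induction h with
  | single a =>
    refine ⟨fun _ _ => 0, fun _ _ => by rw [neg_zero], ?_, ?_⟩
    · intro x hx y hy hxy
      rw [mem_singleton] at hx hy
      exact absurd (hx.trans hy.symm) hxy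
    · intro φ hφ _ _ _ x hx y hy
      rw [mem_singleton] at hx hy
      rw [hx, hy]
      exact eq_zero_of_neg (hφ a a)
  | merge A B hA hB hd hw ihA ihB =>
    rw [wt_sq hW hd, card_union_of_disjoint hd] at ht
    have tA := hA.total hW
    have tB := hB.total hW
    obtain ⟨cA, cA1, cA2, cA3⟩ := ihA (by omega)
    obtain ⟨cB, cB1, cB2, cB3⟩ := ihB (by omega)
    have hAB : wt W A B = 2 := by omega
    have nB : ∀ {x}, x ∈ A → x ∉ B := fun h1 h2 => (Finset.disjoint_left.1 hd) h1 h2
    have nA : ∀ {x}, x ∈ B → x ∉ A := fun h1 h2 => (Finset.disjoint_left.1 hd) h2 h1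
    refine ⟨fun x y => if x ∈ A then (if y ∈ A then cA x y else if y ∈ B then 1 else 0)
      else if x ∈ B then (if y ∈ A then -1 else if y ∈ B then cB x y else 0) else 0, ?_, ?_, ?_⟩
    · intro x y
      by_cases hxA : x ∈ A
      · by_cases hyA : y ∈ A
        · simp only [if_pos hxA, if_pos hyA]
          exact cA1 x y
        · by_cases hyB : y ∈ B
          · simp only [if_pos hxA, if_neg hyA, if_pos hyB]
          · simp only [if_pos hxA, if_neg hyA, if_neg hyB, neg_zero]
      · by_cases hxB : x ∈ B
        · by_cases hyA : y ∈ A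
          · simp only [if_neg hxA, if_pos hxB, if_pos hyA, neg_neg]
          · by_cases hyB : y ∈ B
            · simp only [if_neg hxA, if_pos hxB, if_neg hyA, if_pos hyB]
              exact cB1 x y
            · simp only [if_neg hxA, if_pos hxB, if_neg hyA, if_neg hyB, neg_zero]
        · by_cases hyA : y ∈ A
          · simp only [if_neg hxA, if_neg hxB, if_pos hyA, neg_zero]
          · by_cases hyB : y ∈ B
            · simp only [if_neg hxA, if_neg hxB, if_neg hyA, if_pos hyB, neg_zero]
            · simp only [if_neg hxA, if_neg hxB, if_neg hyA, if_neg hyB, neg_zero]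
    · intro x hx y hy hxy
      rcases mem_union.1 hx with hx | hx <;> rcases mem_union.1 hy with hy | hy
      · simp only [if_pos hx, if_pos hy]
        exact cA2 x hx y hy hxy
      · simp only [if_pos hx, if_neg (nA hy), if_pos hy]
        decide
      · simp only [if_neg (nA hx), if_pos hx, if_pos hy]
        decide
      · simp only [if_neg (nA hx), if_pos hx, if_neg (nA hy), if_pos hy]
        exact cB2 x hx y hy hxy
    · intro φ hφ h0 hdiv hav
      have hdA : ∀ x ∈ A, ∑ y ∈ A, φ x y + ∑ y ∈ B, φ x y = 0 := by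
        intro x hx
        rw [← sum_union hd]
        exact hdiv x (mem_union_left _ hx)
      have hdB : ∀ x ∈ B, ∑ y ∈ A, φ x y + ∑ y ∈ B, φ x y = 0 := by
        intro x hx
        rw [← sum_union hd]
        exact hdiv x (mem_union_right _ hx)
      have hcut : ∑ x ∈ A, ∑ y ∈ B, φ x y = 0 := by
        have h1 : ∑ x ∈ A, (∑ y ∈ A, φ x y + ∑ y ∈ B, φ x y) = 0 := sum_eq_zero hdA
        rw [sum_add_distrib, sum_square hφ, zero_add] at h1
        exact h1
      have hz := zero_of_two (A ×ˢ B) (fun p => W p.1 p.2) (fun p => φ p.1 p.2)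
        (by rw [sum_product]; exact hAB) (fun p _ h1 => h0 _ _ h1) (by
          intro p hp h1
          rw [mem_product] at hp
          have h2 := hav p.1 (mem_union_left _ hp.1) p.2 (mem_union_right _ hp.2) h1
          simp only [if_pos hp.1, if_neg (nA hp.2), if_pos hp.2] at h2
          exact h2) (by rw [sum_product]; exact hcut)
      have zAB : ∀ x ∈ A, ∀ y ∈ B, φ x y = 0 := fun x hx y hy =>
        hz (x, y) (mem_product.2 ⟨hx, hy⟩)
      have zBA : ∀ x ∈ B, ∀ y ∈ A, φ x y = 0 := fun x hx y hy => by
        rw [hφ y x, zAB y hy x hx, neg_zero]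
      have zA := cA3 φ hφ h0 (by
        intro x hx
        have h1 := hdA x hx
        rw [sum_eq_zero (zAB x hx), add_zero] at h1
        exact h1) (by
        intro x hx y hy h1
        have h2 := hav x (mem_union_left _ hx) y (mem_union_left _ hy) h1
        simp only [if_pos hx, if_pos hy] at h2
        exact h2)
      have zB := cB3 φ hφ h0 (by
        intro x hx
        have h1 := hdB x hx
        rw [sum_eq_zero (zBA x hx), zero_add] at h1
        exact h1) (by
        intro x hx y hy h1
        have h2 := hav x (mem_union_right _ hx) y (mem_union_right _ hy) h1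
        simp only [if_neg (nA hx), if_pos hx, if_neg (nA hy), if_pos hy] at h2
        exact h2)
      intro x hx y hy
      rcases mem_union.1 hx with hx | hx <;> rcases mem_union.1 hy with hy | hy
      · exact zA x hx y hy
      · exact zAB x hx y hy
      · exact zBA x hx y hy
      · exact zB x hx y hy

end TB
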