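import Pool.Agent.Lib.MP_80160f_co.Alg
import Pool.Agent.Lib.MP_80160f_co.Tight
import Pool.Agent.Lib.MP_80160f_co.Split

/-!
# MP_80160f_co : flows which are given by their values outside of a spanning tree
-/

set_option autoImplicit false
set_option linter.unusedSectionVars false

namespace TB

open Finset

variable {α : Type*} [DecidableEq α] [Fintype α]

/-- what flows into the set `S` -/
def inflow (z : α → α → ZMod 3) (S : Finset α) : ZMod 3 := ∑ b ∈ S, ∑ a, z a b

/-- the flow which extends `z` along the tree -/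
noncomputable def fl (T : SimpleGraph α) (z : α → α → ZMod 3) (p q : α) : ZMod 3 := by
  classical
  exact z p q - if T.Adj p q then inflow z (br T univ p q) else 0

theorem fl_adj {T : SimpleGraph α} (z : α → α → ZMod 3) {p q : α} (h : T.Adj p q) :
    fl T z p q = z p q - inflow z (br T univ p q) := by
  unfold fl
  rw [if_pos h]

theorem fl_not {T : SimpleGraph α} (z : α → α → ZMod 3) {p q : α} (h : ¬ T.Adj p q) :
    fl T z p q = z p q := by
  unfold fl
  rw [if_neg h, sub_zero]

theorem inflow_univ {z : α → α → ZMod 3} (hz : ∀ x y, z y x = -z x y) : inflow z univ = 0 := by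
  unfold inflow
  rw [sum_comm]
  exact sum_square hz univ

theorem inflow_add (z z' : α → α → ZMod 3) (S : Finset α) :
    inflow (fun a b => z a b + z' a b) S = inflow z S + inflow z' S := by
  unfold inflow
  rw [← sum_add_distrib]
  exact sum_congr rfl fun b _ => sum_add_distrib

theorem inflow_smul (m : ZMod 3) (z : α → α → ZMod 3) (S : Finset α) :
    inflow (fun a b => m * z a b) S = m * inflow z S := by
  unfold inflow
  rw [mul_sum]
  exact sum_congr rfl fun b _ => (mul_sum _ _ _).symm

theorem fl_add (T : SimpleGraph α) (z z' : α → α → ZMod 3) (p q : α) :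
    fl T (fun a b => z a b + z' a b) p q = fl T z p q + fl T z' p q := by
  by_cases h : T.Adj p q
  · rw [fl_adj _ h, fl_adj _ h, fl_adj _ h, inflow_add]
    ring
  · rw [fl_not _ h, fl_not _ h, fl_not _ h]

theorem fl_smul (T : SimpleGraph α) (m : ZMod 3) (z : α → α → ZMod 3) (p q : α) :
    fl T (fun a b => m * z a b) p q = m * fl T z p q := by
  by_cases h : T.Adj p q
  · rw [fl_adj _ h, fl_adj _ h, inflow_smul]
    ring
  · rw [fl_not _ h, fl_not _ h]

section tree

variable {T : SimpleGraph α}

theorem connIn_univ (hT : T.Connected) : ConnIn T univ := by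
  intro x _ y _
  have h1 : T ≤ inG T univ := fun a b h => ⟨h, mem_univ a, mem_univ b⟩
  exact (hT.preconnected x y).mono h1

theorem br_compl (hT : T.IsAcyclic) (hc : ConnIn T univ) {p q : α} (h : T.Adj p q) :
    br T univ q p = (br T univ p q)ᶜ := by
  have h1 := (split_br hT hc (mem_univ p) (mem_univ q) h).symm
  rw [h1.br_eq, compl_eq_univ_sdiff]

theorem fl_symm (hT : T.IsAcyclic) (hc : ConnIn T univ) {z : α → α → ZMod 3}
    (hz : ∀ x y, z y x = -z x y) (p q : α) : fl T z q p = -fl T z p q := by
  by_cases h : T.Adj p q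
  · rw [fl_adj _ h, fl_adj _ h.symm, hz p q, br_compl hT hc h]
    have h1 : inflow z (br T univ p q) + inflow z (br T univ p q)ᶜ = 0 := by
      rw [← inflow_univ hz]
      exact sum_add_sum_compl _ _
    have h2 : inflow z (br T univ p q)ᶜ = -inflow z (br T univ p q) :=
      eq_neg_of_add_eq_zero_right h1
    rw [h2]
    ring
  · rw [fl_not _ h, fl_not _ fun h1 => h h1.symm, hz p q]

theorem fl_div (hT : T.IsAcyclic) (hc : ConnIn T univ) {z : α → α → ZMod 3}
    (hz : ∀ x y, z y x = -z x y) (p : α) : ∑ q, fl T z p q = 0 := by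
  classical
  have h1 : ∀ q, fl T z p q = z p q - if T.Adj p q then inflow z (br T univ p q) else 0 :=
    fun q => rfl
  simp only [h1]
  rw [sum_sub_distrib, ← sum_filter]
  have h2 : ∑ q ∈ univ.filter fun q => T.Adj p q, inflow z (br T univ p q) =
      inflow z (univ.erase p) := by
    have h3 : (univ.filter fun q => T.Adj p q) = nbT T univ p := by
      ext q
      rw [mem_nbT, mem_filter]
    rw [h3]
    unfold inflow
    rw [← br_union hc (mem_univ p), sum_biUnion]
    intro w hw w' hw' hne
    exact br_disjoint hT hc (mem_univ p) w (mem_coe.1 hw) w' (mem_coe.1 hw') hne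
  rw [h2]
  have h4 : ∑ q, z p q = -∑ a, z a p := by
    rw [← sum_neg_distrib]
    exact sum_congr rfl fun a _ => hz a p
  have h5 : ∑ a, z a p + inflow z (univ.erase p) = 0 := by
    rw [← inflow_univ hz]
    exact add_sum_erase univ (fun b => ∑ a, z a b) (mem_univ p)
  rw [h4]
  have h6 : -∑ a, z a p - inflow z (univ.erase p) = -(∑ a, z a p + inflow z (univ.erase p)) := by
    ring
  rw [h6, h5, neg_zero]

end tree

/-! ### The orientation of the edges -/

/-- the first end of an edge -/
noncomputable def fst (e : Sym2 α) : α := (Quot.out e).1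

/-- the second end of an edge -/
noncomputable def snd (e : Sym2 α) : α := (Quot.out e).2

theorem mk_out (e : Sym2 α) : s(fst e, snd e) = e := Quot.out_eq e

theorem out_or (a b : α) : (fst s(a, b) = a ∧ snd s(a, b) = b) ∨
    (fst s(a, b) = b ∧ snd s(a, b) = a) := by
  have h := mk_out s(a, b)
  rw [Sym2.eq_iff] at h
  exact h

/-- the orientation -/
noncomputable def sg (a b : α) : ZMod 3 := if fst s(a, b) = a then 1 else -1

theorem sg_symm {a b : α} (h : a ≠ b) : sg b a = -sg a b := by
  unfold sg
  rw [Sym2.eq_swap (a := b) (b := a)]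
  rcases out_or a b with ⟨h1, -⟩ | ⟨h1, -⟩
  · rw [h1, if_neg h, if_pos rfl]
  · rw [h1, if_pos rfl, if_neg h.symm, neg_neg]

/-- the antisymmetric function of a function on the edges -/
noncomputable def anti (J : SimpleGraph α) (x : J.edgeSet → ZMod 3) (a b : α) : ZMod 3 := by
  classical
  exact if h : J.Adj a b then sg a b * x ⟨s(a, b), h⟩ else 0

theorem anti_not {J : SimpleGraph α} (x : J.edgeSet → ZMod 3) {a b : α} (h : ¬ J.Adj a b) :
    anti J x a b = 0 := by
  unfold anti
  rw [dif_neg h]

theorem anti_adj {J : SimpleGraph α} (x : J.edgeSet → ZMod 3) {a b : α} (h : J.Adj a b) :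
    anti J x a b = sg a b * x ⟨s(a, b), h⟩ := by
  unfold anti
  rw [dif_pos h]

theorem anti_symm {J : SimpleGraph α} (x : J.edgeSet → ZMod 3) (a b : α) :
    anti J x b a = -anti J x a b := by
  by_cases h : J.Adj a b
  · rw [anti_adj x h, anti_adj x h.symm, sg_symm h.ne, neg_mul]
    have h1 : (⟨s(b, a), h.symm⟩ : J.edgeSet) = ⟨s(a, b), h⟩ := Subtype.ext Sym2.eq_swap
    rw [h1]
  · rw [anti_not x h, anti_not x fun h1 => h h1.symm, neg_zero]

theorem anti_add {J : SimpleGraph α} (x y : J.edgeSet → ZMod 3) :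
    anti J (x + y) = fun a b => anti J x a b + anti J y a b := by
  ext a b
  by_cases h : J.Adj a b
  · rw [anti_adj _ h, anti_adj _ h, anti_adj _ h, Pi.add_apply, mul_add]
  · rw [anti_not _ h, anti_not _ h, anti_not _ h, add_zero]

theorem anti_smul {J : SimpleGraph α} (m : ZMod 3) (x : J.edgeSet → ZMod 3) :
    anti J (m • x) = fun a b => m * anti J x a b := by
  ext a b
  by_cases h : J.Adj a b
  · rw [anti_adj _ h, anti_adj _ h, Pi.smul_apply, smul_eq_mul]
    ring
  · rw [anti_not _ h, anti_not _ h, mul_zero]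

theorem adj_out {J : SimpleGraph α} (e : J.edgeSet) : J.Adj (fst (e : Sym2 α)) (snd (e : Sym2 α)) := by
  have h : (e : Sym2 α) ∈ J.edgeSet := e.2
  rw [← mk_out (e : Sym2 α)] at h
  exact h

theorem anti_out {J : SimpleGraph α} (x : J.edgeSet → ZMod 3) (e : J.edgeSet) :
    anti J x (fst (e : Sym2 α)) (snd (e : Sym2 α)) = x e := by
  rw [anti_adj x (adj_out e)]
  have h1 : (⟨s(fst (e : Sym2 α), snd (e : Sym2 α)), adj_out e⟩ : J.edgeSet) = e :=
    Subtype.ext (mk_out _)
  rw [h1]
  unfold sg
  rw [mk_out, if_pos rfl, one_mul]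

/-- a value on a tree edge as a linear form -/
noncomputable def lf (T J : SimpleGraph α) (t : T.edgeSet) :
    (J.edgeSet → ZMod 3) →ₗ[ZMod 3] ZMod 3 where
  toFun x := fl T (anti J x) (fst (t : Sym2 α)) (snd (t : Sym2 α))
  map_add' x y := by rw [anti_add, fl_add]
  map_smul' m x := by rw [anti_smul, fl_smul]; rfl

/-- two antisymmetric functions differ on an edge if they differ on the oriented edge -/
theorem ne_of_out {φ f : α → α → ZMod 3} (hφ : ∀ x y, φ y x = -φ x y) (hf : ∀ x y, f y x = -f x y)
    {x y : α} (h : φ (fst s(x, y)) (snd s(x, y)) ≠ f (fst s(x, y)) (snd s(x, y))) :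
    φ x y ≠ f x y := by
  rcases out_or x y with ⟨h1, h2⟩ | ⟨h1, h2⟩
  · rw [h1, h2] at h
    exact h
  · rw [h1, h2] at h
    intro h3
    apply h
    rw [hφ x y, hf x y, h3]

end TB
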