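import Pool.Agent.Lib.MP_80160f_co.Gen
import Pool.Agent.Lib.MP_80160f_co.Jlpt

/-!
# MP_80160f_co : 3-connected cubic graphs, and the graph without a vertex
-/

set_option autoImplicit false
set_option linter.unusedSectionVars false

namespace TB

open Finset

/-- a 3-connected cubic graph: every vertex has exactly three neighbours, and the deletion of at most
two vertices leaves a connected graph -/
def ThreeConnectedCubic {V : Type*} (H : SimpleGraph V) : Prop :=
  (∀ x, (H.neighborSet x).ncard = 3) ∧ ∀ S : Set V, S.Finite → S.ncard ≤ 2 → (H.induce Sᶜ).Connected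

variable {V : Type*} [DecidableEq V] [Fintype V]

theorem sum_ew (H : SimpleGraph V) (x : V) : ∑ y, ew H x y = (H.neighborSet x).ncard := by
  classical
  rw [Set.ncard_eq_toFinset_card' (H.neighborSet x)]
  have h2 : (H.neighborSet x).toFinset = univ.filter fun y => H.Adj x y := by
    ext y
    rw [Set.mem_toFinset, SimpleGraph.mem_neighborSet, mem_filter]
    exact ⟨fun h => ⟨mem_univ _, h⟩, fun h => h.2⟩
  rw [h2, card_filter]
  refine sum_congr rfl fun y _ => ?_
  by_cases h : H.Adj x y
  · rw [ew_adj h, if_pos h]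
  · rw [ew_not h, if_neg h]

theorem cubic3_of {H : SimpleGraph V} (h : ThreeConnectedCubic H) : Cubic3 H := by
  classical
  have hdeg : ∀ x, ∑ y, ew H x y = 3 := fun x => by rw [sum_ew, h.1 x]
  refine ⟨hdeg, ?_⟩
  intro A hA hA'
  by_contra hlt
  have hsum : ec H A Aᶜ = ∑ a ∈ A, ∑ b ∈ Aᶜ, ew H a b := rfl
  by_cases h3 : 3 ≤ A.card
  · -- the ends of the cut edges
    set S := A.filter fun a => ∃ b ∈ Aᶜ, H.Adj a b with hS
    have hSc : S.card ≤ 2 := by
      have h1 : S.card ≤ ec H A Aᶜ := by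
        rw [hsum, hS, card_filter]
        refine sum_le_sum fun a _ => ?_
        split_ifs with h2
        · obtain ⟨b, hb, hab⟩ := h2
          rw [← ew_adj hab]
          exact single_le_sum (f := fun b => ew H a b) (fun _ _ => Nat.zero_le _) hb
        · exact Nat.zero_le _
      omega
    have hconn := h.2 (S : Set V) S.finite_toSet (by rw [Set.ncard_coe_finset]; exact hSc)
    obtain ⟨a, ha, haS⟩ : ∃ a ∈ A, a ∉ S := by
      by_contra hcon
      have h1 : A ⊆ S := fun a ha => by
        by_contra h2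
        exact hcon ⟨a, ha, h2⟩
      have h2 := card_le_card h1
      omega
    obtain ⟨b, hb⟩ := hA'
    have hbS : b ∉ S := fun h1 => (mem_compl.1 hb) (mem_filter.1 h1).1
    obtain ⟨p⟩ := hconn.preconnected ⟨a, fun h1 => haS (mem_coe.1 h1)⟩
      ⟨b, fun h1 => hbS (mem_coe.1 h1)⟩
    have key : ∀ {x y : ((S : Set V)ᶜ : Set V)} (p : (H.induce (S : Set V)ᶜ).Walk x y),
        (x : V) ∈ A → (y : V) ∈ A := by
      intro x y p
      induction p with
      | nil => exact fun h => h
      | @cons x z y hxz p ih =>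
        intro hx
        apply ih
        by_contra hz
        have h1 : H.Adj x z := hxz
        exact x.2 (mem_coe.2 (mem_filter.2 ⟨hx, z, mem_compl.2 hz, h1⟩))
    exact (mem_compl.1 hb) (key p ha)
  · have hin : ∀ a ∈ A, ∑ b ∈ A, ew H a b + 1 ≤ A.card := by
      intro a ha
      have h1 : ∑ b ∈ A, ew H a b = ∑ b ∈ A.erase a, ew H a b := by
        rw [← add_sum_erase A _ ha, ew_not (H.loopless.irrefl a), zero_add]
      have h2 : ∑ b ∈ A.erase a, ew H a b ≤ (A.erase a).card := by
        rw [card_eq_sum_ones]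
        exact sum_le_sum fun b _ => ew_le H a b
      have h3 : (A.erase a).card + 1 = A.card := card_erase_add_one ha
      omega
    have hout : ∀ a ∈ A, 4 ≤ ∑ b ∈ Aᶜ, ew H a b + A.card := by
      intro a ha
      have h1 := hin a ha
      have h2 : ∑ b ∈ A, ew H a b + ∑ b ∈ Aᶜ, ew H a b = 3 := by
        rw [sum_add_sum_compl]
        exact hdeg a
      omega
    have h5 : A.card * (4 - A.card) ≤ ec H A Aᶜ := by
      rw [hsum, ← smul_eq_mul, ← sum_const]
      refine sum_le_sum fun a ha => ?_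
      have := hout a ha
      omega
    have h6 := card_pos.2 hA
    have h7 : A.card = 1 ∨ A.card = 2 := by omega
    rcases h7 with h7 | h7
    · rw [h7] at h5
      omega
    · rw [h7] at h5
      omega

theorem sum_del (v : V) (g : V → ℕ) :
    ∑ y : ({v}ᶜ : Set V), g y = ∑ y ∈ univ.erase v, g y := by
  symm
  apply sum_subtype
  intro y
  rw [mem_erase]
  exact ⟨fun h => h.1, fun h => ⟨h, mem_univ _⟩⟩

/-- the number of edges of the graph without a vertex -/
theorem card_edges_del {H : SimpleGraph V} (h : Cubic3 H) (v : V) :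
    2 * (H.induce ({v}ᶜ : Set V)).edgeSet.ncard + 3 =
      3 * Fintype.card ({v}ᶜ : Set V) := by
  classical
  rw [← sum_adj]
  have h1 : ∀ x : ({v}ᶜ : Set V), ∑ y : ({v}ᶜ : Set V), ew (H.induce ({v}ᶜ : Set V)) x y +
      ew H x v = 3 := by
    intro x
    rw [← h.deg x, ← add_sum_erase univ _ (mem_univ v), add_comm]
    refine congrArg₂ (· + ·) rfl ?_
    rw [← sum_del v fun y => ew H x y]
    refine sum_congr rfl fun y _ => ?_
    unfold ew
    rfl
  have h2 : ∑ x : ({v}ᶜ : Set V), ew H x v = 3 := by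
    rw [← h.deg v, ← add_sum_erase univ _ (mem_univ v), ew_not (H.loopless.irrefl v), zero_add]
    rw [← sum_del v fun y => ew H v y]
    exact sum_congr rfl fun y _ => ew_comm H y v
  have h3 : ∑ x : ({v}ᶜ : Set V), (∑ y : ({v}ᶜ : Set V), ew (H.induce ({v}ᶜ : Set V)) x y +
      ew H x v) = ∑ x : ({v}ᶜ : Set V), 3 := sum_congr rfl fun x _ => h1 x
  rw [sum_add_distrib, h2, sum_const, smul_eq_mul, card_univ] at h3
  rw [h3, mul_comm]

/-- **the theorem of Jaeger, Linial, Payan and Tarsi** for the graph without a vertex -/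
theorem exists_base {H : SimpleGraph V} (h : Cubic3 H) (v : V) :
    ∃ B : Set (Sym2 ({v}ᶜ : Set V)), IsKBase (H.induce ({v}ᶜ : Set V)) 2 B ∧
      ((H.induce ({v}ᶜ : Set V)).deleteEdges B).Connected := by
  classical
  obtain ⟨T, hTH, -, hTc, -, hclu⟩ := jlpt h v
  set G := H.induce ({v}ᶜ : Set V) with hG
  set TT := T.induce ({v}ᶜ : Set V) with hTT
  have hle : TT ≤ G := fun x y hxy => hTH hxy
  have hmem : ∀ x : ({v}ᶜ : Set V), (x : V) ∈ univ.erase v := fun x =>
    mem_erase.2 ⟨x.2, mem_univ _⟩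
  refine ⟨G.edgeSet \ TT.edgeSet, ?_, ?_⟩
  · apply isKBase_of_clu Set.sdiff_subset
    have h1 := Clu.expand (W := gw G (G.edgeSet \ TT.edgeSet)) (W' := cotW H T)
      (fun a : V => if h : a ∈ ({v}ᶜ : Set V) then {(⟨a, h⟩ : ({v}ᶜ : Set V))} else ∅) hclu ?_ ?_ ?_
    · convert h1
      ext x
      simp only [mem_univ, mem_biUnion, true_iff]
      refine ⟨x, hmem x, ?_⟩
      rw [dif_pos x.2]
      exact mem_singleton_self x
    · intro a ha
      have h2 : a ∈ ({v}ᶜ : Set V) := (mem_erase.1 ha).1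
      simp only [dif_pos h2]
      exact Clu.single _
    · intro a ha b hb hab
      have h2 : a ∈ ({v}ᶜ : Set V) := (mem_erase.1 ha).1
      have h3 : b ∈ ({v}ᶜ : Set V) := (mem_erase.1 hb).1
      simp only [dif_pos h2, dif_pos h3]
      rw [disjoint_singleton]
      exact fun h4 => hab (congrArg Subtype.val h4)
    · intro a ha b hb hab
      have h2 : a ∈ ({v}ᶜ : Set V) := (mem_erase.1 ha).1
      have h3 : b ∈ ({v}ᶜ : Set V) := (mem_erase.1 hb).1
      simp only [dif_pos h2, dif_pos h3]
      unfold wt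
      rw [sum_singleton, sum_singleton]
      unfold cotW gw
      by_cases h4 : H.Adj a b
      · have h5 : G.Adj ⟨a, h2⟩ ⟨b, h3⟩ := h4
        rw [if_pos h4, if_pos h5]
        by_cases h6 : T.Adj a b
        · rw [if_pos h6]
          split_ifs <;> omega
        · have h7 : s((⟨a, h2⟩ : ({v}ᶜ : Set V)), ⟨b, h3⟩) ∈ G.edgeSet \ TT.edgeSet :=
            ⟨h5, fun h8 => h6 h8⟩
          rw [if_neg h6, if_pos h7]
      · rw [if_neg h4]
        exact Nat.zero_le _
  · have h1 : G.deleteEdges (G.edgeSet \ TT.edgeSet) = TT := by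
      apply SimpleGraph.edgeSet_injective
      rw [SimpleGraph.edgeSet_deleteEdges]
      exact Set.sdiff_sdiff_cancel_left (SimpleGraph.edgeSet_subset_edgeSet.2 hle)
    rw [h1]
    have key : ∀ {x y : V} (p : (inG T (univ.erase v)).Walk x y) (hx : x ∈ ({v}ᶜ : Set V))
        (hy : y ∈ ({v}ᶜ : Set V)), TT.Reachable ⟨x, hx⟩ ⟨y, hy⟩ := by
      intro x y p
      induction p with
      | nil => exact fun _ _ => SimpleGraph.Reachable.refl _
      | @cons x z y hxz p ih =>
        intro hx hy
        have hz : z ∈ ({v}ᶜ : Set V) := (mem_erase.1 hxz.2.2).1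
        have h2 : TT.Adj ⟨x, hx⟩ ⟨z, hz⟩ := hxz.1
        exact h2.reachable.trans (ih hz hy)
    have hne : Nonempty ({v}ᶜ : Set V) := by
      have h2 := h.deg v
      obtain ⟨w, -, hw⟩ := exists_ne_zero_of_sum_ne_zero (s := univ) (f := fun y => ew H v y)
        (by rw [h2]; omega)
      refine ⟨⟨w, fun h3 => hw ?_⟩⟩
      rw [Set.mem_singleton_iff] at h3
      rw [h3]
      exact ew_not (H.loopless.irrefl v)
    refine (SimpleGraph.connected_iff _).2 ⟨?_, hne⟩
    intro x y
    obtain ⟨p⟩ := hTc x (hmem x) y (hmem y)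
    exact key p x.2 y.2

end TB
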